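import Pool.Agent.helper24_TG.Bh
import Pool.Agent.helper24_TP.An0

set_option autoImplicit false

/-!
Counting functions of a polynomial: monotonicity, and interpolation. The slopes of a polynomial.
-/

namespace Pool.Agent.helper24_TG

open Finset Polynomial Filter
open Pool.Agent.H300R2.BH (FF FF_eval SS rho pv lF)
open Pool.Agent.H373R2.T7 (Vz Vz_pos)
open Pool.Agent.helper24_TP (log_ge_one SS_bd grid)

lemma term_bd {F : ℤ[X]} {k : ℕ} (h : 3 ≤ F.eval (k : ℤ)) :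
    0 ≤ 1 / Real.log ((F.eval (k : ℤ) : ℤ) : ℝ) ∧ 1 / Real.log ((F.eval (k : ℤ) : ℤ) : ℝ) ≤ 1 := by
  obtain ⟨n, hn⟩ : ∃ n : ℕ, F.eval (k : ℤ) = n := ⟨(F.eval (k : ℤ)).toNat, by omega⟩
  rw [hn] at h ⊢
  have h1 := log_ge_one n (by exact_mod_cast h)
  have e : (((n : ℕ) : ℤ) : ℝ) = (n : ℝ) := by push_cast; rfl
  rw [e]
  constructor
  · positivity
  · rw [div_le_one (by linarith)]
    exact h1

lemma lF_eq {F : ℤ[X]} {K : ℕ} (h : ∀ k ∈ Icc 1 K, 3 ≤ F.eval (k : ℤ)) :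
    lF F K = ∑ k ∈ Icc 1 K, 1 / Real.log ((F.eval (k : ℤ) : ℤ) : ℝ) := by
  unfold lF
  rw [filter_true_of_mem]
  intro k hk
  have := h k hk
  linarith

lemma pv_mono (F : ℤ[X]) {K K' : ℕ} (h : K ≤ K') : pv F K ≤ pv F K' := by
  unfold pv
  have : (Icc 1 K).filter (fun k : ℕ => (F.eval (k : ℤ)).toNat.Prime) ⊆
      (Icc 1 K').filter (fun k : ℕ => (F.eval (k : ℤ)).toNat.Prime) :=
    filter_subset_filter _ (Icc_subset_Icc le_rfl h)
  exact_mod_cast card_le_card this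

lemma pv_le (F : ℤ[X]) (K : ℕ) : 0 ≤ pv F K ∧ pv F K ≤ K := by
  unfold pv
  refine ⟨Nat.cast_nonneg _, ?_⟩
  have : ((Icc 1 K).filter (fun k : ℕ => (F.eval (k : ℤ)).toNat.Prime)).card ≤ K := by
    refine (card_filter_le _ _).trans ?_
    rw [Nat.card_Icc]
    omega
  exact_mod_cast this

lemma lF_diff {F : ℤ[X]} {K K' : ℕ} (hF : ∀ k ∈ Icc 1 K', 3 ≤ F.eval (k : ℤ)) (h : K ≤ K') :
    lF F K ≤ lF F K' ∧ lF F K' ≤ lF F K + ((K' : ℝ) - K) := by
  rw [lF_eq hF, lF_eq (fun k hk => hF k (by rw [mem_Icc] at hk ⊢; omega))]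
  have hIcc : Icc 1 K' = Icc 1 K ∪ Ioc K K' := by
    ext k; simp only [mem_union, mem_Icc, mem_Ioc]; omega
  have hdisj : Disjoint (Icc 1 K) (Ioc K K') := by
    rw [disjoint_left]
    intro k hk hk2
    rw [mem_Icc] at hk; rw [mem_Ioc] at hk2; omega
  rw [hIcc, sum_union hdisj]
  have hF' : ∀ k ∈ Ioc K K', 3 ≤ F.eval (k : ℤ) := fun k hk => hF k (by
    rw [mem_Ioc] at hk; rw [mem_Icc]; omega)
  constructor
  · have : 0 ≤ ∑ k ∈ Ioc K K', 1 / Real.log ((F.eval (k : ℤ) : ℤ) : ℝ) :=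
      sum_nonneg fun k hk => (term_bd (hF' k hk)).1
    linarith
  · have : ∑ k ∈ Ioc K K', 1 / Real.log ((F.eval (k : ℤ) : ℤ) : ℝ) ≤ (K' : ℝ) - K := by
      calc _ ≤ ∑ k ∈ Ioc K K', (1 : ℝ) := sum_le_sum fun k hk => (term_bd (hF' k hk)).2
        _ = (K' : ℝ) - K := by
            rw [sum_const, Nat.card_Ioc, nsmul_eq_mul, mul_one, Nat.cast_sub h]
    linarith

lemma lF_le {F : ℤ[X]} {K : ℕ} (hF : ∀ k ∈ Icc 1 K, 3 ≤ F.eval (k : ℤ)) : 0 ≤ lF F K ∧ lF F K ≤ K := by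
  have h0 : lF F 0 = 0 := by
    unfold lF
    simp
  have h1 := lF_diff hF (Nat.zero_le K)
  rw [h0] at h1
  push_cast at h1
  constructor
  · exact h1.1
  · linarith [h1.2]

/-- from the grid to all `y` -/
lemma interp {F : ℤ[X]} (S ε₁ V : ℝ) (hS0 : 0 ≤ S)
    (hSV : S ≤ V) {K K' y : ℕ} (hF : ∀ k ∈ Icc 1 K', 3 ≤ F.eval (k : ℤ)) (h1 : K ≤ y) (h2 : y ≤ K')
    (e1 : |pv F K - S * lF F K| ≤ ε₁)
    (e2 : |pv F K' - S * lF F K'| ≤ ε₁) :
    |pv F y - S * lF F y| ≤ ε₁ + V * ((K' : ℝ) - K) := by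
  have p1 := pv_mono F h1
  have p2 := pv_mono F h2
  have l1 := lF_diff (fun k hk => hF k (by rw [mem_Icc] at hk ⊢; omega)) h1
  have l2 := lF_diff hF h2
  have l3 := lF_diff hF (h1.trans h2)
  have e1' := abs_le.1 e1
  have e2' := abs_le.1 e2
  have hKK : (0 : ℝ) ≤ (K' : ℝ) - K := by
    have : (K : ℝ) ≤ K' := by exact_mod_cast h1.trans h2
    linarith
  have hd : S * (lF F K' - lF F K) ≤ V * ((K' : ℝ) - K) := by
    have h3 : lF F K' - lF F K ≤ (K' : ℝ) - K := by linarith [l3.2]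
    have h4 : 0 ≤ lF F K' - lF F K := by linarith [l3.1]
    exact mul_le_mul hSV h3 h4 (hS0.trans hSV)
  have m1 : S * lF F K ≤ S * lF F y := mul_le_mul_of_nonneg_left l1.1 hS0
  have m2 : S * lF F y ≤ S * lF F K' := mul_le_mul_of_nonneg_left l2.1 hS0
  rw [abs_le]
  constructor <;> nlinarith [e1'.1, e1'.2, e2'.1, e2'.2]

/-- the sum of `|g_i| y^(i - 1)` over `i ≥ 1` -/
noncomputable def slope (g : ℤ[X]) (y : ℕ) : ℝ := ∑ i ∈ range g.natDegree, |(g.coeff (i + 1) : ℝ)| * (y : ℝ) ^ i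

lemma slope_nonneg (g : ℤ[X]) (y : ℕ) : 0 ≤ slope g y :=
  sum_nonneg fun i _ => by positivity

lemma slope_mono (g : ℤ[X]) {y y' : ℕ} (h : y ≤ y') : slope g y ≤ slope g y' := by
  unfold slope
  refine sum_le_sum fun i _ => ?_
  have : (y : ℝ) ≤ y' := by exact_mod_cast h
  gcongr

lemma eval_slope (g : ℤ[X]) (h0 : g.coeff 0 = 0) (k : ℕ) :
    ((g.eval (k : ℤ) : ℤ) : ℝ) = ∑ i ∈ range g.natDegree, (g.coeff (i + 1) : ℝ) * (k : ℝ) ^ (i + 1) := by
  rw [eval_eq_sum_range, sum_range_succ', h0]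
  push_cast
  simp

/-- differences of powers -/
lemma pow_diff (k h K : ℝ) (hk : 0 ≤ k) (hh : 0 ≤ h) (hK : k + h ≤ K) (i : ℕ) :
    0 ≤ (k + h) ^ (i + 1) - k ^ (i + 1) ∧ (k + h) ^ (i + 1) - k ^ (i + 1) ≤ (i + 1) * h * K ^ i := by
  have hK0 : 0 ≤ K := by linarith
  induction i with
  | zero => simp [hh]
  | succ i ih =>
    obtain ⟨a1, a2⟩ := ih
    have e : (k + h) ^ (i + 1 + 1) - k ^ (i + 1 + 1) =
        k * ((k + h) ^ (i + 1) - k ^ (i + 1)) + h * (k + h) ^ (i + 1) := by ring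
    have hp : (k + h) ^ (i + 1) ≤ K ^ (i + 1) := pow_le_pow_left₀ (by linarith) hK _
    have hp0 : 0 ≤ (k + h) ^ (i + 1) := pow_nonneg (by linarith) _
    rw [e]
    constructor
    · positivity
    · calc k * ((k + h) ^ (i + 1) - k ^ (i + 1)) + h * (k + h) ^ (i + 1)
          ≤ K * ((i + 1) * h * K ^ i) + h * K ^ (i + 1) := by
            apply add_le_add
            · exact mul_le_mul (by linarith) a2 a1 hK0
            · exact mul_le_mul_of_nonneg_left hp hh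
        _ = _ := by push_cast; ring

/-- second differences of powers -/
lemma pow_diff2 (k h K : ℝ) (hk : 0 ≤ k) (hh : 0 ≤ h) (hK : k + 2 * h ≤ K) (hK0 : 0 < K) (i : ℕ) :
    0 ≤ (k + 2 * h) ^ (i + 1) - 2 * (k + h) ^ (i + 1) + k ^ (i + 1) ∧
    (k + 2 * h) ^ (i + 1) - 2 * (k + h) ^ (i + 1) + k ^ (i + 1) ≤ ((i + 1) ^ 2 * h ^ 2 * K ^ i) / K := by
  induction i with
  | zero =>
    constructor
    · apply le_of_eq; ring
    · have : (k + 2 * h) ^ (0 + 1) - 2 * (k + h) ^ (0 + 1) + k ^ (0 + 1) = 0 := by ring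
      rw [this]
      positivity
  | succ i ih =>
    obtain ⟨a1, a2⟩ := ih
    have hd := pow_diff (k + h) h K (by linarith) hh (by linarith) i
    have e2 : k + h + h = k + 2 * h := by ring
    rw [e2] at hd
    have e : (k + 2 * h) ^ (i + 1 + 1) - 2 * (k + h) ^ (i + 1 + 1) + k ^ (i + 1 + 1) =
        k * ((k + 2 * h) ^ (i + 1) - 2 * (k + h) ^ (i + 1) + k ^ (i + 1)) +
        2 * h * ((k + 2 * h) ^ (i + 1) - (k + h) ^ (i + 1)) := by ring
    rw [e]
    have hd1 := hd.1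
    constructor
    · positivity
    · calc k * ((k + 2 * h) ^ (i + 1) - 2 * (k + h) ^ (i + 1) + k ^ (i + 1)) +
            2 * h * ((k + 2 * h) ^ (i + 1) - (k + h) ^ (i + 1))
          ≤ K * (((i + 1) ^ 2 * h ^ 2 * K ^ i) / K) + 2 * h * ((i + 1) * h * K ^ i) := by
            apply add_le_add
            · exact mul_le_mul (by linarith) a2 a1 hK0.le
            · exact mul_le_mul_of_nonneg_left hd.2 (by positivity)
        _ = ((i : ℝ) + 1) * (i + 3) * h ^ 2 * K ^ i := by field_simp; ring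
        _ ≤ ((i : ℝ) + 1 + 1) ^ 2 * h ^ 2 * K ^ i := by
            apply mul_le_mul_of_nonneg_right _ (by positivity)
            apply mul_le_mul_of_nonneg_right _ (by positivity)
            nlinarith
        _ = _ := by
            push_cast
            field_simp
            ring

/-- first differences of `g` -/
lemma diff_le (g : ℤ[X]) (h0 : g.coeff 0 = 0) (K k h : ℕ) (hk : k + h ≤ K) :
    |((g.eval ((k + h : ℕ) : ℤ) : ℤ) : ℝ) - ((g.eval (k : ℤ) : ℤ) : ℝ)| ≤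
      h * (g.natDegree * slope g K) := by
  rw [eval_slope g h0, eval_slope g h0, ← sum_sub_distrib]
  refine (abs_sum_le_sum_abs _ _).trans ?_
  unfold slope
  rw [mul_sum, mul_sum]
  refine sum_le_sum fun i hi => ?_
  rw [mem_range] at hi
  rw [← mul_sub, abs_mul]
  have h1 := pow_diff (k : ℝ) (h : ℝ) (K : ℝ) (Nat.cast_nonneg _) (Nat.cast_nonneg _)
    (by exact_mod_cast hk) i
  rw [Nat.cast_add, abs_of_nonneg h1.1]
  have h2 : (i : ℝ) + 1 ≤ g.natDegree := by exact_mod_cast hi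
  calc |(g.coeff (i + 1) : ℝ)| * (((k : ℝ) + h) ^ (i + 1) - (k : ℝ) ^ (i + 1))
      ≤ |(g.coeff (i + 1) : ℝ)| * ((i + 1) * h * (K : ℝ) ^ i) :=
        mul_le_mul_of_nonneg_left h1.2 (abs_nonneg _)
    _ ≤ |(g.coeff (i + 1) : ℝ)| * (g.natDegree * h * (K : ℝ) ^ i) := by gcongr
    _ = _ := by ring

/-- second differences of `g` -/
lemma diff2_le (g : ℤ[X]) (h0 : g.coeff 0 = 0) (K k h : ℕ) (hK : 1 ≤ K) (hk : k + 2 * h ≤ K) :
    |((g.eval ((k + 2 * h : ℕ) : ℤ) : ℤ) : ℝ) - 2 * ((g.eval ((k + h : ℕ) : ℤ) : ℤ) : ℝ) +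
      ((g.eval (k : ℤ) : ℤ) : ℝ)| ≤ ((g.natDegree : ℝ) ^ 2 * slope g K / K) * (h : ℝ) ^ 2 := by
  have hK0 : (0 : ℝ) < K := by exact_mod_cast hK
  rw [eval_slope g h0, eval_slope g h0, eval_slope g h0, mul_sum, ← sum_sub_distrib, ← sum_add_distrib]
  refine (abs_sum_le_sum_abs _ _).trans ?_
  unfold slope
  rw [mul_sum, sum_div, sum_mul]
  refine sum_le_sum fun i hi => ?_
  rw [mem_range] at hi
  have h1 := pow_diff2 (k : ℝ) (h : ℝ) (K : ℝ) (Nat.cast_nonneg _) (Nat.cast_nonneg _)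
    (by exact_mod_cast hk) hK0 i
  have e1 : (g.coeff (i + 1) : ℝ) * ((k + 2 * h : ℕ) : ℝ) ^ (i + 1) -
      2 * ((g.coeff (i + 1) : ℝ) * ((k + h : ℕ) : ℝ) ^ (i + 1)) +
      (g.coeff (i + 1) : ℝ) * (k : ℝ) ^ (i + 1) =
      (g.coeff (i + 1) : ℝ) * (((k : ℝ) + 2 * h) ^ (i + 1) - 2 * ((k : ℝ) + h) ^ (i + 1) +
        (k : ℝ) ^ (i + 1)) := by
    push_cast; ring
  rw [e1, abs_mul, abs_of_nonneg h1.1]
  have h2 : (i : ℝ) + 1 ≤ g.natDegree := by exact_mod_cast hi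
  calc |(g.coeff (i + 1) : ℝ)| * (((k : ℝ) + 2 * h) ^ (i + 1) - 2 * ((k : ℝ) + h) ^ (i + 1) +
        (k : ℝ) ^ (i + 1))
      ≤ |(g.coeff (i + 1) : ℝ)| * ((((i : ℝ) + 1) ^ 2 * h ^ 2 * (K : ℝ) ^ i) / K) :=
        mul_le_mul_of_nonneg_left h1.2 (abs_nonneg _)
    _ ≤ |(g.coeff (i + 1) : ℝ)| * (((g.natDegree : ℝ) ^ 2 * h ^ 2 * (K : ℝ) ^ i) / K) := by gcongr
    _ = _ := by ring

/-- the polynomial `g + s X` has small positive slope -/
lemma slow_add (g : ℤ[X]) (h0 : g.coeff 0 = 0) (J K s : ℕ) (hJ : g.natDegree ≤ J) (hK : 1 ≤ K)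
    (hs : J * slope g K ≤ s) : Slow (g + C (s : ℤ) * X) K (2 * s) J where
  z := by
    rw [eval_add, eval_mul, eval_C, eval_X, mul_zero, add_zero, ← coeff_zero_eq_eval_zero]
    exact h0
  s0 := by positivity
  d1 := by
    intro k h hk
    have h1 := abs_le.1 (diff_le g h0 K k h hk)
    have hh0 : (0 : ℝ) ≤ h := Nat.cast_nonneg _
    have hsl := slope_nonneg g K
    have hJ' : (g.natDegree : ℝ) ≤ J := by exact_mod_cast hJ
    have h2 : h * (g.natDegree * slope g K) ≤ h * (s : ℝ) := by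
      apply mul_le_mul_of_nonneg_left _ hh0
      refine le_trans ?_ hs
      exact mul_le_mul_of_nonneg_right hJ' hsl
    simp only [eval_add, eval_mul, eval_C, eval_X]
    push_cast at h1 ⊢
    constructor <;> nlinarith [h1.1, h1.2]
  d2 := by
    intro k h hk
    have h1 := diff2_le g h0 K k h hK hk
    have hsl := slope_nonneg g K
    have hJ' : (g.natDegree : ℝ) ≤ J := by exact_mod_cast hJ
    have hK0 : (0 : ℝ) < K := by exact_mod_cast hK
    simp only [eval_add, eval_mul, eval_C, eval_X]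
    refine le_trans (le_of_eq ?_) (h1.trans ?_)
    · congr 1
      push_cast
      ring
    · apply mul_le_mul_of_nonneg_right _ (by positivity)
      apply div_le_div_of_nonneg_right _ hK0.le
      have hJ0 : (0 : ℝ) ≤ J := Nat.cast_nonneg _
      calc (g.natDegree : ℝ) ^ 2 * slope g K ≤ (J : ℝ) ^ 2 * slope g K := by gcongr
        _ = J * (J * slope g K) := by ring
        _ ≤ J * s := by gcongr
        _ ≤ J * (2 * s) := by
          apply mul_le_mul_of_nonneg_left _ hJ0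
          have : (0:ℝ) ≤ s := Nat.cast_nonneg _
          linarith

end Pool.Agent.helper24_TG
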