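import Pool.Agent.helper24_TG.An0

set_option autoImplicit false

/-!
The formula with the product over the primes `p ≤ z`, in the mean over a box.
-/

namespace Pool.Agent.helper24_TG

open Finset Polynomial Filter
open Pool.Agent.H300R2.BH (FF FF_eval SS rho pv lF)
open Pool.Agent.H373R2.T7 (Vz Vz_pos Vz_inv_small)
open Pool.Agent.H442R2.EHI (evt_log_pow evt_log_ge)

lemma FF_shift (g : ℤ[X]) (s c b : ℕ) : FF (g + C (s : ℤ) * X) 1 1 c b = FF g 1 1 c (b + s) := by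
  unfold Pool.Agent.H300R2.BH.FF
  have e : (C (1 * ((b + s : ℕ) : ℤ)) : ℤ[X]) = C (1 * (b : ℤ)) + C (s : ℤ) := by
    rw [← C_add]
    congr 1
    push_cast
    ring
  rw [e]
  ring

theorem boxK (J : ℕ) (hJ : 1 ≤ J) (A U : ℕ) : ∃ E1 : ℕ, ∀ E : ℕ, E1 ≤ E → ∃ B H₀ : ℕ,
    ∀ H : ℕ, H₀ ≤ H → ∀ z : ℕ,
    Real.log H ^ E ≤ z → (z : ℝ) ≤ Real.log H ^ (E + 1) → ∀ (g : ℤ[X]) (D K s : ℕ),
    g.natDegree ≤ J → g.coeff 0 = 0 →
    (H : ℝ) ≤ D * Real.log H ^ A → D ≤ H → Real.log H ^ B ≤ K → K * Real.log H ^ B ≤ H →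
    J * slope g K ≤ s → s * Real.log H ^ B ≤ H →
    ∑ c ∈ Ioc 0 H, ∑ b ∈ Ioc D (2 * D), |pv (FF g 1 1 c (b + s)) K -
      SS z (FF g 1 1 c (b + s)) * lF (FF g 1 1 c (b + s)) K| ≤ H * D * K / Real.log H ^ U := by
  obtain ⟨E1', hE1⟩ := bhT J hJ J (Nat.cast_nonneg _) (1 / 2) (by norm_num) (A + 1) U
  refine ⟨E1' + 1, fun E hE => ?_⟩
  obtain ⟨B1, x0, hb⟩ := hE1 (E + 1) (by omega)
  have hev : ∀ᶠ H : ℕ in atTop, x0 ≤ H ∧ 3 ≤ H ∧ 100 ≤ Real.log H ∧ 2 ^ E1' ≤ Real.log H ∧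
      2 ^ B1 ≤ Real.log H := by
    filter_upwards [eventually_ge_atTop x0, eventually_ge_atTop 3, evt_log_ge 100,
      evt_log_ge (2 ^ E1'), evt_log_ge (2 ^ B1)] with H g1 g2 g3 g4 g5
    exact ⟨g1, g2, g3, g4, g5⟩
  obtain ⟨H₀, hH₀⟩ := eventually_atTop.mp hev
  refine ⟨B1 + A + 3, H₀, fun H hH z hz1 hz2 g D K s hgJ hg0 hHD hDH hK hKB hs hsB => ?_⟩
  obtain ⟨hx0, hH3, hL, hLE, hLB⟩ := hH₀ H hH
  set L := Real.log H with hLdef
  have hL0 : 0 < L := by linarith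
  have hL1 : 1 ≤ L := by linarith
  have hLp0 : ∀ n : ℕ, 0 < L ^ n := fun n => by positivity
  have hLp : ∀ n : ℕ, 1 ≤ L ^ n := fun n => one_le_pow₀ hL1
  have hLmono : ∀ m n : ℕ, m ≤ n → L ^ m ≤ L ^ n := fun m n h => pow_le_pow_right₀ hL1 h
  have hHr : (3:ℝ) ≤ H := by exact_mod_cast hH3
  have hH0 : (0:ℝ) < H := by linarith
  have hK1r : (1:ℝ) ≤ K := (hLp _).trans hK
  have hK0 : (0:ℝ) < K := by linarith
  have hK1 : 1 ≤ K := by exact_mod_cast hK1r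
  have hs0 : (0:ℝ) ≤ s := Nat.cast_nonneg _
  have hDr : (D:ℝ) ≤ H := by exact_mod_cast hDH
  have hD0 : (0:ℝ) < D := by
    by_contra hcon
    push Not at hcon
    have : (D : ℝ) * L ^ A ≤ 0 := mul_nonpos_of_nonpos_of_nonneg hcon (hLp0 A).le
    linarith
  have h5L : (5:ℝ) ≤ L ^ (B1 + A + 3) := by
    calc (5:ℝ) ≤ L := by linarith
      _ = L ^ 1 := (pow_one L).symm
      _ ≤ _ := hLmono _ _ (by omega)
  have h5K : (5:ℝ) * K ≤ H := by
    refine le_trans ?_ hKB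
    rw [mul_comm]
    exact mul_le_mul_of_nonneg_left h5L hK0.le
  have hsH : (s:ℝ) ≤ H := by
    refine le_trans ?_ hsB
    exact le_mul_of_one_le_right hs0 (hLp _)
  -- `x`
  obtain ⟨x, hx⟩ : ∃ x, x = 5 * H * K := ⟨_, rfl⟩
  have hxr : (x:ℝ) = 5 * H * K := by rw [hx]; push_cast; ring
  have hHx : H ≤ x := by rw [hx]; nlinarith
  have hxH2 : (x:ℝ) ≤ (H:ℝ) ^ 2 := by rw [hxr]; nlinarith
  have hx0' : (0:ℝ) < x := by
    have : (H:ℝ) ≤ x := by exact_mod_cast hHx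
    linarith
  have hlx1 : L ≤ Real.log x := Real.log_le_log hH0 (by exact_mod_cast hHx)
  have hlx2 : Real.log x ≤ 2 * L := by
    have := Real.log_le_log hx0' hxH2
    rwa [Real.log_pow] at this
  have hlx0 : 0 < Real.log x := by linarith
  have hT : Real.log x ^ B1 ≤ L ^ (B1 + 1) := by
    calc Real.log x ^ B1 ≤ (2 * L) ^ B1 := by gcongr
      _ = 2 ^ B1 * L ^ B1 := by rw [mul_pow]
      _ ≤ L * L ^ B1 := by gcongr
      _ = L ^ (B1 + 1) := by ring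
  have hT0 : 0 < Real.log x ^ B1 := by positivity
  -- a generic bound
  have gen : ∀ w : ℝ, 0 ≤ w → w * L ^ (B1 + A + 3) ≤ H → 2 * w * Real.log x ^ B1 ≤ H ∧
      2 * w * Real.log x ^ B1 ≤ D := by
    intro w hw hwH
    have h1 : 2 * w * (L ^ (B1 + 1) * L ^ A) ≤ H := by
      have h2 : L ^ (B1 + A + 3) = L ^ (B1 + 1) * L ^ A * L ^ 2 := by ring
      rw [h2] at hwH
      have h3 : (2:ℝ) ≤ L ^ 2 := by nlinarith
      refine le_trans ?_ hwH
      have h4 : 0 ≤ w * (L ^ (B1 + 1) * L ^ A) := by positivity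
      nlinarith
    constructor
    · refine le_trans ?_ h1
      apply mul_le_mul_of_nonneg_left _ (by positivity)
      refine hT.trans ?_
      exact le_mul_of_one_le_right (hLp0 _).le (hLp A)
    · have h5 : (2 * w * L ^ (B1 + 1)) * L ^ A ≤ D * L ^ A := by
        calc (2 * w * L ^ (B1 + 1)) * L ^ A = 2 * w * (L ^ (B1 + 1) * L ^ A) := by ring
          _ ≤ H := h1
          _ ≤ D * L ^ A := hHD
      have h6 := le_of_mul_le_mul_right h5 (hLp0 A)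
      refine le_trans ?_ h6
      gcongr
  have gK := gen K hK0.le hKB
  have gs := gen s hs0 hsB
  have hTK : Real.log x ^ B1 ≤ K := by
    refine hT.trans (le_trans (hLmono _ _ (by omega)) hK)
  have hbox : Box x K D H 0 (2 * s) (Real.log x ^ B1) := by
    refine ⟨?_, hTK, ?_, ?_, gs.1, gs.2, ?_, ?_⟩
    · rw [hxr]
      have h1 : (D:ℝ) * K ≤ H * K := by gcongr
      have h2 : (s:ℝ) * K ≤ H * K := by gcongr
      have h3 : (H:ℝ) ≤ H * K := le_mul_of_one_le_right hH0.le hK1r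
      push_cast
      nlinarith
    · have : (0:ℝ) ≤ K * Real.log x ^ B1 := by positivity
      linarith [gK.1]
    · have : (0:ℝ) ≤ K * Real.log x ^ B1 := by positivity
      linarith [gK.2]
    · calc (D:ℝ) * Real.log x ^ B1 ≤ H * K := by gcongr
        _ = _ := by ring
    · calc 2 * (s:ℝ) * D * Real.log x ^ B1 = (2 * s * Real.log x ^ B1) * D := by ring
        _ ≤ H * H := mul_le_mul gs.1 hDr hD0.le hH0.le
        _ = _ := by ring
  have hdeg : (g + C (s : ℤ) * X).natDegree ≤ J := by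
    refine (natDegree_add_le _ _).trans (max_le hgJ ?_)
    exact ((natDegree_C_mul_le _ _).trans natDegree_X_le).trans hJ
  have h := hb x (hx0.trans hHx) z ?_ ?_ K D H 0 (g + C (s : ℤ) * X) (2 * s) hdeg
    (slow_add g hg0 J K s hgJ hK1 hs) hbox ?_ ?_
  · rw [zero_add] at h
    simp only [FF_shift] at h
    refine le_trans h ?_
    apply div_le_div_of_nonneg_left (by positivity) (hLp0 U)
    gcongr
  · have h1 : (⌊Real.log x ^ E1'⌋₊ : ℝ) ≤ z := by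
      refine (Nat.floor_le (by positivity)).trans ?_
      calc Real.log x ^ E1' ≤ (2 * L) ^ E1' := by gcongr
        _ = 2 ^ E1' * L ^ E1' := by rw [mul_pow]
        _ ≤ L * L ^ E1' := by gcongr
        _ = L ^ (E1' + 1) := by ring
        _ ≤ L ^ E := hLmono _ _ hE
        _ ≤ z := hz1
    exact_mod_cast h1
  · refine hz2.trans ?_
    gcongr
  · calc (x:ℝ) = 5 * H * K := hxr
      _ ≤ 5 * (D * L ^ A) * K := by gcongr
      _ = D * K * (5 * L ^ A) := by ring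
      _ ≤ D * K * (L * L ^ A) := by gcongr; linarith
      _ = D * K * L ^ (A + 1) := by ring
      _ ≤ D * K * Real.log x ^ (A + 1) := by gcongr
  · calc (x:ℝ) ^ (1 / 2 : ℝ) ≤ ((H:ℝ) ^ 2) ^ (1 / 2 : ℝ) := by gcongr
      _ = H := by
        rw [← Real.sqrt_eq_rpow, Real.sqrt_sq hH0.le]

/-- few pairs are bad for one `K` and one box -/
lemma bad_one (g : ℤ[X]) (s D K H z U W : ℕ) (L : ℝ) (hL : 0 < L) (hK : 1 ≤ K)
    (h : ∑ c ∈ Ioc 0 H, ∑ b ∈ Ioc D (2 * D), |pv (FF g 1 1 c (b + s)) K -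
      SS z (FF g 1 1 c (b + s)) * lF (FF g 1 1 c (b + s)) K| ≤ H * D * K / L ^ (U + W)) :
    (((Ioc (D + s) (2 * D + s) ×ˢ Ioc 0 H).filter (fun bc : ℕ × ℕ => (K : ℝ) / L ^ W <
      |pv (FF g 1 1 bc.2 bc.1) K - SS z (FF g 1 1 bc.2 bc.1) * lF (FF g 1 1 bc.2 bc.1) K|)).card : ℝ) ≤
      H * D / L ^ U := by
  have hK0 : (0:ℝ) < K := by exact_mod_cast hK
  have hC0 : 0 < L ^ W := by positivity
  set G : ℕ × ℕ → ℝ := fun bc => |pv (FF g 1 1 bc.2 bc.1) K -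
    SS z (FF g 1 1 bc.2 bc.1) * lF (FF g 1 1 bc.2 bc.1) K| with hG
  have hsh : ∀ c : ℕ, ∑ b ∈ Ioc (D + s) (2 * D + s), G (b, c) = ∑ b ∈ Ioc D (2 * D), G (b + s, c) := by
    intro c
    rw [← Finset.map_add_right_Ioc, sum_map]
    rfl
  have h1 : ∑ bc ∈ Ioc (D + s) (2 * D + s) ×ˢ Ioc 0 H, G bc ≤ H * D * K / L ^ (U + W) := by
    rw [sum_product_right]
    refine le_trans (le_of_eq ?_) h
    exact sum_congr rfl fun c _ => hsh c
  have h2 : (((Ioc (D + s) (2 * D + s) ×ˢ Ioc 0 H).filter (fun bc : ℕ × ℕ =>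
      (K : ℝ) / L ^ W < G bc)).card : ℝ) *
      (K / L ^ W) ≤ ∑ bc ∈ Ioc (D + s) (2 * D + s) ×ˢ Ioc 0 H, G bc := by
    calc _ = ∑ bc ∈ (Ioc (D + s) (2 * D + s) ×ˢ Ioc 0 H).filter (fun bc : ℕ × ℕ =>
          (K : ℝ) / L ^ W < G bc), ((K : ℝ) / L ^ W) := by rw [sum_const, nsmul_eq_mul]
      _ ≤ ∑ bc ∈ (Ioc (D + s) (2 * D + s) ×ˢ Ioc 0 H).filter (fun bc : ℕ × ℕ =>
          (K : ℝ) / L ^ W < G bc), G bc :=
          sum_le_sum fun bc hbc => (mem_filter.1 hbc).2.le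
      _ ≤ _ := sum_le_sum_of_subset_of_nonneg (filter_subset _ _) fun _ _ _ => abs_nonneg _
  have h3 := h2.trans h1
  have h4 : (H : ℝ) * D * K / L ^ (U + W) = (H * D / L ^ U) * (K / L ^ W) := by
    rw [pow_add]; field_simp
  rw [h4] at h3
  exact le_of_mul_le_mul_right h3 (by positivity)

end Pool.Agent.helper24_TG
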