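import Pool.Agent.helper24_TG.AnB
import Pool.Agent.helper24_TP.An

set_option autoImplicit false

/-!
The formula with the product over the primes `p ≤ z`, for almost all pairs `(b, c)` and for all `y`.
-/

namespace Pool.Agent.helper24_TG

open Finset Polynomial Filter
open Pool.Agent.H300R2.BH (FF FF_eval SS rho pv lF)
open Pool.Agent.H373R2.T7 (Vz Vz_pos Vz_inv_small)
open Pool.Agent.H442R2.EHI (evt_log_pow evt_log_ge)
open Pool.Agent.helper24_TP (log_ge_one SS_bd grid log2_le)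

lemma slope_two (g : ℤ[X]) (r y : ℕ) (hr : g.natDegree ≤ r) : slope g (2 * y) ≤ 2 ^ r * slope g y := by
  unfold slope
  rw [mul_sum]
  refine sum_le_sum fun i hi => ?_
  rw [mem_range] at hi
  have h1 : (2:ℝ) ^ i ≤ 2 ^ r := pow_le_pow_right₀ (by norm_num) (by omega)
  push_cast
  rw [mul_pow]
  have h2 : 0 ≤ |(g.coeff (i + 1) : ℝ)| * (y : ℝ) ^ i := by positivity
  nlinarith

lemma eval_le_slope (g : ℤ[X]) (h0 : g.coeff 0 = 0) (k y : ℕ) (hk : k ≤ y) :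
    |((g.eval (k : ℤ) : ℤ) : ℝ)| ≤ k * slope g y := by
  rw [eval_slope g h0]
  refine (abs_sum_le_sum_abs _ _).trans ?_
  refine le_trans ?_ (mul_le_mul_of_nonneg_left (slope_mono g hk) (Nat.cast_nonneg _))
  unfold slope
  rw [mul_sum]
  refine sum_le_sum fun i _ => ?_
  rw [abs_mul, abs_of_nonneg (by positivity : (0:ℝ) ≤ (k : ℝ) ^ (i + 1))]
  apply le_of_eq
  ring

/-- the values are positive -/
lemma values (g : ℤ[X]) (h0 : g.coeff 0 = 0) (y : ℕ) (T : ℝ) (hT : slope g y ≤ T) (b c H : ℕ)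
    (hc : 1 ≤ c) (hb : 4 ≤ b) (hbT : 2 * T ≤ b) (hcH : c ≤ H) (hbH : b ≤ H) (hyH : y ≤ H) (k : ℕ)
    (hk : k ∈ Icc 1 y) : 3 ≤ (FF g 1 1 c b).eval (k : ℤ) ∧ (FF g 1 1 c b).eval (k : ℤ) ≤ 3 * (H : ℤ) ^ 2 := by
  rw [mem_Icc] at hk
  have h1 := abs_le.1 (eval_le_slope g h0 k y hk.2)
  have hk1 : (1:ℝ) ≤ k := by exact_mod_cast hk.1
  have hk0 : (0:ℝ) ≤ k := by linarith
  have h2 : (k:ℝ) * slope g y ≤ k * (b / 2) := by
    apply mul_le_mul_of_nonneg_left _ hk0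
    linarith
  have hc1 : (1:ℝ) ≤ c := by exact_mod_cast hc
  have hb4 : (4:ℝ) ≤ b := by exact_mod_cast hb
  have hcH' : (c:ℝ) ≤ H := by exact_mod_cast hcH
  have hbH' : (b:ℝ) ≤ H := by exact_mod_cast hbH
  have hkH : (k:ℝ) ≤ H := by
    have : k ≤ H := hk.2.trans hyH
    exact_mod_cast this
  have hF : (((FF g 1 1 c b).eval (k : ℤ) : ℤ) : ℝ) = c + ((g.eval (k : ℤ) : ℤ) : ℝ) + b * k := by
    rw [FF_eval]; push_cast; ring
  have hH1 : (1:ℝ) ≤ H := by linarith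
  constructor
  · have : (3:ℝ) ≤ (((FF g 1 1 c b).eval (k : ℤ) : ℤ) : ℝ) := by
      rw [hF]
      nlinarith [h1.1]
    exact_mod_cast this
  · have : (((FF g 1 1 c b).eval (k : ℤ) : ℤ) : ℝ) ≤ 3 * (H:ℝ) ^ 2 := by
      rw [hF]
      have h3 : (b:ℝ) * k ≤ H * H := mul_le_mul hbH' hkH hk0 (by linarith)
      have h4 : (k:ℝ) * (b / 2) ≤ H * H := by nlinarith
      have h5 : (H:ℝ) ≤ H * H := by nlinarith
      nlinarith [h1.2]
    exact_mod_cast this

theorem analytic (r : ℕ) (hr : 1 ≤ r) (A : ℕ) : ∃ E1 : ℕ, ∀ E : ℕ, E1 ≤ E → ∃ B H₀ : ℕ,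
    ∀ H : ℕ, H₀ ≤ H → ∀ z : ℕ,
    Real.log H ^ E ≤ z → (z : ℝ) ≤ Real.log H ^ (E + 1) → ∀ g : ℤ[X], g.natDegree ≤ r → g.coeff 0 = 0 →
    ∃ Ex : Finset (ℕ × ℕ), (Ex.card : ℝ) ≤ (H : ℝ) ^ 2 / Real.log H ^ A ∧
      ∀ b ∈ Icc 1 H, ∀ c ∈ Icc 1 H, (b, c) ∉ Ex →
        ∀ y : ℕ, slope g y * Real.log H ^ B ≤ H → y * Real.log H ^ B ≤ H →
          (∀ k ∈ Icc 1 y, 3 ≤ (FF g 1 1 c b).eval (k : ℤ) ∧ (FF g 1 1 c b).eval (k : ℤ) ≤ 3 * (H : ℤ) ^ 2) ∧
          |pv (FF g 1 1 c b) y - SS z (FF g 1 1 c b) * lF (FF g 1 1 c b) y| ≤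
            y / Real.log H ^ A + Real.log H ^ B := by
  classical
  obtain ⟨W, hW⟩ : ∃ W, W = A + 2 := ⟨_, rfl⟩
  obtain ⟨U, hU⟩ : ∃ U, U = 2 * A + 9 := ⟨_, rfl⟩
  obtain ⟨E1, hE1⟩ := boxK r hr (A + 3) (U + W)
  refine ⟨E1, fun E hE => ?_⟩
  obtain ⟨B1, H₁, hb⟩ := hE1 E hE
  obtain ⟨H₂, hV⟩ := Vz_inv_small (E + 1)
  obtain ⟨B2, hB2⟩ : ∃ B2, B2 = B1 + A + 4 := ⟨_, rfl⟩
  obtain ⟨B, hB⟩ : ∃ B, B = B1 + A + 10 := ⟨_, rfl⟩
  have hev : ∀ᶠ H : ℕ in atTop, H₁ ≤ H ∧ H₂ ≤ H ∧ 3 ≤ H ∧ 100 ≤ Real.log H ∧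
      Real.log H ^ (B + 2) ≤ (H : ℝ) ^ (1 : ℝ) ∧ 4 * r * 2 ^ r ≤ Real.log H := by
    filter_upwards [eventually_ge_atTop H₁, eventually_ge_atTop H₂, eventually_ge_atTop 3,
      evt_log_ge 100, evt_log_pow (B + 2) 1 (by norm_num), evt_log_ge (4 * r * 2 ^ r)]
      with H g1 g2 g3 g4 g5 g6
    exact ⟨g1, g2, g3, g4, g5, g6⟩
  obtain ⟨H₀, hH₀⟩ := eventually_atTop.mp hev
  refine ⟨B, H₀, fun H hH z hz1 hz2 g hgr hg0 => ?_⟩
  obtain ⟨hH1, hH2, hH3, hL, hLH, hLr⟩ := hH₀ H hH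
  have hb' := hb H hH1 z hz1 hz2 g
  rw [Real.rpow_one] at hLH
  set L := Real.log H with hLdef
  have hL0 : 0 < L := by linarith
  have hL1 : 1 ≤ L := by linarith
  have hLp0 : ∀ n : ℕ, 0 < L ^ n := fun n => by positivity
  have hLp : ∀ n : ℕ, 1 ≤ L ^ n := fun n => one_le_pow₀ hL1
  have hLmono : ∀ m n : ℕ, m ≤ n → L ^ m ≤ L ^ n := fun m n h => pow_le_pow_right₀ hL1 h
  have hHr : (3:ℝ) ≤ H := by exact_mod_cast hH3
  have hH0 : (0:ℝ) < H := by linarith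
  have hr0 : (0:ℝ) ≤ r := Nat.cast_nonneg _
  have h2r : (1:ℝ) ≤ 2 ^ r := one_le_pow₀ (by norm_num)
  have hz1' : 1 ≤ z := by
    have : (1 : ℝ) ≤ z := (hLp E).trans hz1
    exact_mod_cast this
  have hVL : (Vz z)⁻¹ ≤ L := hV H hH2 z hz1' hz2
  -- `D0`, `J`, `M`
  set D0 := ⌊(H:ℝ) / L ^ (A + 2)⌋₊ with hD0
  have hD0le : (D0:ℝ) ≤ H / L ^ (A + 2) := Nat.floor_le (by positivity)
  have hD0big : L ^ 2 ≤ D0 := by
    have h1 : (H:ℝ) / L ^ (A + 2) < D0 + 1 := Nat.lt_floor_add_one _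
    have h2 : L ^ 3 ≤ (H:ℝ) / L ^ (A + 2) := by
      rw [le_div_iff₀ (hLp0 _), ← pow_add]
      exact (hLmono _ _ (by omega)).trans hLH
    have h3 : L ^ 2 + 1 ≤ L ^ 3 := by
      have : L ^ 3 = L ^ 2 * L := by ring
      nlinarith [hLp 2]
    linarith
  have hD01 : 1 ≤ D0 := by
    have : (1:ℝ) ≤ D0 := (hLp 2).trans hD0big
    exact_mod_cast this
  have hD0r : (1:ℝ) ≤ D0 := by exact_mod_cast hD01
  have hD0ge' : (H:ℝ) ≤ 2 * (D0 * L ^ (A + 2)) := by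
    have h1 : (H:ℝ) / L ^ (A + 2) < D0 + 1 := Nat.lt_floor_add_one _
    have h2 : (H:ℝ) / L ^ (A + 2) ≤ 2 * D0 := by linarith
    rw [div_le_iff₀ (hLp0 _)] at h2
    linarith
  set Jl := Nat.log 2 H with hJl
  have hJle : (Jl:ℝ) ≤ 2 * L := log2_le H (by omega)
  set M := ⌈L ^ (A + 3)⌉₊ with hM
  have hMge : L ^ (A + 3) ≤ M := Nat.le_ceil _
  have hMle : (M:ℝ) ≤ 2 * L ^ (A + 3) := by
    have := Nat.ceil_lt_add_one (show 0 ≤ L ^ (A + 3) by positivity)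
    rw [← hM] at this
    linarith [hLp (A + 3)]
  have hM1 : 1 ≤ M := by
    have : (1:ℝ) ≤ M := (hLp _).trans hMge
    exact_mod_cast this
  -- the error
  set G : ℕ → ℕ × ℕ → ℝ := fun K bc =>
    |pv (FF g 1 1 bc.2 bc.1) K - SS z (FF g 1 1 bc.2 bc.1) * lF (FF g 1 1 bc.2 bc.1) K| with hG
  set σ : ℕ → ℕ := fun K => ⌈r * slope g K⌉₊ with hσ
  have hσ1 : ∀ K, r * slope g K ≤ σ K := fun K => Nat.le_ceil _
  have hσ2 : ∀ K, (σ K : ℝ) ≤ r * slope g K + 1 := by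
    intro K
    have := Nat.ceil_lt_add_one (show 0 ≤ r * slope g K from mul_nonneg hr0 (slope_nonneg g K))
    exact this.le
  set T : ℕ × ℕ × ℕ → Finset (ℕ × ℕ) := fun t =>
    ((Ioc (2 ^ t.2.2 * D0 + σ (t.1 * 2 ^ t.2.1)) (2 * (2 ^ t.2.2 * D0) + σ (t.1 * 2 ^ t.2.1)) ×ˢ
      Ioc 0 H).filter (fun bc : ℕ × ℕ =>
      (L ^ B1 ≤ ((t.1 * 2 ^ t.2.1 : ℕ) : ℝ) ∧ ((t.1 * 2 ^ t.2.1 : ℕ) : ℝ) * L ^ B1 ≤ H ∧
        (σ (t.1 * 2 ^ t.2.1) : ℝ) * L ^ B2 ≤ H ∧ 2 ^ t.2.2 * D0 ≤ H) ∧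
        ((t.1 * 2 ^ t.2.1 : ℕ) : ℝ) / L ^ W < G (t.1 * 2 ^ t.2.1) bc)) with hT
  set I := (Icc M (2 * M)) ×ˢ ((range (Jl + 1)) ×ˢ (range (Jl + 1))) with hI
  have hTc : ∀ t ∈ I, ((T t).card : ℝ) ≤ (H:ℝ) ^ 2 / L ^ U := by
    intro t ht
    by_cases hcond : (L ^ B1 ≤ ((t.1 * 2 ^ t.2.1 : ℕ) : ℝ) ∧ ((t.1 * 2 ^ t.2.1 : ℕ) : ℝ) * L ^ B1 ≤ H ∧
        (σ (t.1 * 2 ^ t.2.1) : ℝ) * L ^ B2 ≤ H ∧ 2 ^ t.2.2 * D0 ≤ H)
    · obtain ⟨c1, c2, c3, c4⟩ := hcond
      obtain ⟨D, hD⟩ : ∃ D, D = 2 ^ t.2.2 * D0 := ⟨_, rfl⟩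
      obtain ⟨K, hK⟩ : ∃ K, K = t.1 * 2 ^ t.2.1 := ⟨_, rfl⟩
      have hDD0 : D0 ≤ D := by
        rw [hD]
        exact Nat.le_mul_of_pos_left _ (by positivity)
      rw [← hK] at c1 c2 c3
      rw [← hD] at c4
      have hK1 : 1 ≤ K := by
        have : (1:ℝ) ≤ K := (hLp _).trans c1
        exact_mod_cast this
      have h1 := bad_one g (σ K) D K H z U W L hL0 hK1 (hb' D K (σ K) hgr hg0 (by
        refine hD0ge'.trans ?_
        have h2 : (D0:ℝ) ≤ D := by exact_mod_cast hDD0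
        calc 2 * ((D0:ℝ) * L ^ (A + 2)) = D0 * (2 * L ^ (A + 2)) := by ring
          _ ≤ D * (L * L ^ (A + 2)) := by gcongr; linarith
          _ = D * L ^ (A + 3) := by ring) c4 c1 c2 (hσ1 K) (by
        refine le_trans ?_ c3
        apply mul_le_mul_of_nonneg_left (hLmono _ _ (by omega)) (Nat.cast_nonneg _)))
      have hsub : T t ⊆ (Ioc (D + σ K) (2 * D + σ K) ×ˢ Ioc 0 H).filter (fun bc : ℕ × ℕ => (K : ℝ) / L ^ W <
          |pv (FF g 1 1 bc.2 bc.1) K - SS z (FF g 1 1 bc.2 bc.1) * lF (FF g 1 1 bc.2 bc.1) K|) := by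
        intro bc hbc
        rw [hT] at hbc
        simp only [mem_filter] at hbc ⊢
        rw [hD, hK]
        exact ⟨hbc.1, hbc.2.2⟩
      calc ((T t).card : ℝ) ≤ _ := by exact_mod_cast card_le_card hsub
        _ ≤ H * D / L ^ U := h1
        _ ≤ H * H / L ^ U := by
            have : (D:ℝ) ≤ H := by exact_mod_cast c4
            gcongr
        _ = _ := by ring
    · have : T t = ∅ := by
        rw [hT]
        simp only
        rw [filter_eq_empty_iff]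
        intro bc _ hbc
        exact hcond hbc.1
      rw [this, card_empty]
      push_cast
      positivity
  set Ex1 : Finset (ℕ × ℕ) := Icc 1 (2 * D0) ×ˢ Icc 1 H with hEx1
  set Ex2 : Finset (ℕ × ℕ) := I.biUnion T with hEx2
  refine ⟨Ex1 ∪ Ex2, ?_, ?_⟩
  · -- the size
    have h1 : (Ex1.card : ℝ) ≤ (H:ℝ) ^ 2 / L ^ (A + 1) := by
      rw [hEx1, card_product, Nat.card_Icc, Nat.card_Icc, Nat.add_sub_cancel, Nat.add_sub_cancel]
      push_cast
      calc 2 * (D0:ℝ) * H ≤ 2 * (H / L ^ (A + 2)) * H := by gcongr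
        _ = ((H:ℝ) ^ 2 / L ^ (A + 1)) * (2 / L) := by
          rw [show A + 2 = (A + 1) + 1 by ring, pow_succ L (A + 1)]
          field_simp
        _ ≤ ((H:ℝ) ^ 2 / L ^ (A + 1)) * 1 := by
          apply mul_le_mul_of_nonneg_left _ (by positivity)
          rw [div_le_one hL0]
          linarith
        _ = _ := mul_one _
    have hIc : (I.card : ℝ) ≤ L ^ (A + 7) := by
      rw [hI, card_product, card_product, Nat.card_Icc, card_range]
      have e1 : 2 * M + 1 - M = M + 1 := by omega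
      rw [e1]
      push_cast
      have h2 : (M:ℝ) + 1 ≤ 3 * L ^ (A + 3) := by linarith [hLp (A + 3)]
      have h3 : (Jl:ℝ) + 1 ≤ 3 * L := by linarith
      calc ((M:ℝ) + 1) * (((Jl:ℝ) + 1) * ((Jl:ℝ) + 1)) ≤ (3 * L ^ (A + 3)) * ((3 * L) * (3 * L)) := by
            gcongr
        _ = 27 * (L ^ (A + 3) * L ^ 2) := by ring
        _ ≤ L ^ 2 * (L ^ (A + 3) * L ^ 2) := by
            gcongr
            nlinarith
        _ = L ^ (A + 7) := by ring
    have h2 : (Ex2.card : ℝ) ≤ (H:ℝ) ^ 2 / L ^ (A + 1) := by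
      calc (Ex2.card : ℝ) ≤ ∑ t ∈ I, ((T t).card : ℝ) := by
            rw [hEx2]
            exact_mod_cast card_biUnion_le
        _ ≤ ∑ t ∈ I, (H:ℝ) ^ 2 / L ^ U := sum_le_sum hTc
        _ = I.card * ((H:ℝ) ^ 2 / L ^ U) := by rw [sum_const, nsmul_eq_mul]
        _ ≤ L ^ (A + 7) * ((H:ℝ) ^ 2 / L ^ U) := by gcongr
        _ = (H:ℝ) ^ 2 / L ^ (A + 2) := by
            rw [hU, show 2 * A + 9 = (A + 7) + (A + 2) by ring, pow_add L (A + 7)]
            field_simp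
        _ ≤ _ := by
            apply div_le_div_of_nonneg_left (by positivity) (hLp0 _) (hLmono _ _ (by omega))
    calc ((Ex1 ∪ Ex2).card : ℝ) ≤ (Ex1.card : ℝ) + Ex2.card := by exact_mod_cast card_union_le _ _
      _ ≤ (H:ℝ) ^ 2 / L ^ (A + 1) + (H:ℝ) ^ 2 / L ^ (A + 1) := add_le_add h1 h2
      _ = ((H:ℝ) ^ 2 / L ^ A) * (2 / L) := by rw [pow_succ L A]; field_simp; norm_num
      _ ≤ ((H:ℝ) ^ 2 / L ^ A) * 1 := by
          apply mul_le_mul_of_nonneg_left _ (by positivity)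
          rw [div_le_one hL0]
          linarith
      _ = _ := mul_one _
  · intro b hb1 c hc1 hbc y hys hy
    rw [mem_union, not_or] at hbc
    obtain ⟨n1, n2⟩ := hbc
    rw [mem_Icc] at hb1 hc1
    have hbD : 2 * D0 < b := by
      by_contra hcon
      push Not at hcon
      apply n1
      rw [hEx1, mem_product, mem_Icc, mem_Icc]
      exact ⟨⟨hb1.1, hcon⟩, hc1⟩
    have hbDr : 2 * (D0:ℝ) ≤ b := by exact_mod_cast hbD.le
    have hb4 : 4 ≤ b := by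
      have : (4:ℝ) ≤ b := by nlinarith
      exact_mod_cast this
    have hy0 : (0:ℝ) ≤ y := Nat.cast_nonneg _
    have hy2H : 2 * y ≤ H := by
      have h1 : (2:ℝ) * y ≤ H := by
        refine le_trans ?_ hy
        rw [mul_comm]
        apply mul_le_mul_of_nonneg_left _ hy0
        calc (2:ℝ) ≤ L := by linarith
          _ = L ^ 1 := (pow_one L).symm
          _ ≤ _ := hLmono _ _ (by omega)
      exact_mod_cast h1
    -- the slope
    have hslope : (r * 2 ^ r) * slope g y * L ^ B2 ≤ H / 4 := by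
      have h1 : 4 * ((r * 2 ^ r) * slope g y * L ^ B2) ≤ slope g y * L ^ B := by
        have h2 : 4 * ((r:ℝ) * 2 ^ r) * L ^ B2 ≤ L ^ B := by
          calc 4 * ((r:ℝ) * 2 ^ r) * L ^ B2 = (4 * r * 2 ^ r) * L ^ B2 := by ring
            _ ≤ L * L ^ B2 := by gcongr
            _ = L ^ (B2 + 1) := by ring
            _ ≤ _ := hLmono _ _ (by omega)
        have h3 := mul_le_mul_of_nonneg_left h2 (slope_nonneg g y)
        calc 4 * ((r * 2 ^ r) * slope g y * L ^ B2) = slope g y * (4 * ((r:ℝ) * 2 ^ r) * L ^ B2) := by ring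
          _ ≤ _ := h3
      linarith
    have hσb : ∀ K : ℕ, K ≤ 2 * y → (σ K : ℝ) * L ^ B2 ≤ H / 2 := by
      intro K hK
      have h1 : slope g K ≤ 2 ^ r * slope g y := (slope_mono g hK).trans (slope_two g r y hgr)
      have h2 : (σ K : ℝ) ≤ r * (2 ^ r * slope g y) + 1 := by
        refine (hσ2 K).trans ?_
        have := mul_le_mul_of_nonneg_left h1 hr0
        linarith
      have h3 : L ^ B2 ≤ H / 4 := by
        have h4 : 4 * L ^ B2 ≤ H := by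
          refine le_trans ?_ hLH
          calc 4 * L ^ B2 ≤ L * L ^ B2 := by gcongr; linarith
            _ = L ^ (B2 + 1) := by ring
            _ ≤ _ := hLmono _ _ (by omega)
        linarith
      calc (σ K : ℝ) * L ^ B2 ≤ (r * (2 ^ r * slope g y) + 1) * L ^ B2 := by gcongr
        _ = (r * 2 ^ r) * slope g y * L ^ B2 + L ^ B2 := by ring
        _ ≤ _ := by linarith
    have hσD : ∀ K : ℕ, K ≤ 2 * y → σ K ≤ D0 := by
      intro K hK
      have h1 := hσb K hK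
      have h2 : (σ K : ℝ) * L ^ B2 ≤ D0 * L ^ B2 := by
        calc (σ K : ℝ) * L ^ B2 ≤ H / 2 := h1
          _ ≤ D0 * L ^ (A + 2) := by linarith
          _ ≤ D0 * L ^ B2 := mul_le_mul_of_nonneg_left (hLmono _ _ (by omega)) (by positivity)
      have h3 := le_of_mul_le_mul_right h2 (hLp0 _)
      exact_mod_cast h3
    have hval : ∀ k ∈ Icc 1 (2 * y), 3 ≤ (FF g 1 1 c b).eval (k : ℤ) ∧
        (FF g 1 1 c b).eval (k : ℤ) ≤ 3 * (H : ℤ) ^ 2 := by
      intro k hk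
      refine values g hg0 (2 * y) (2 ^ r * slope g y) (slope_two g r y hgr) b c H hc1.1 hb4 ?_ hc1.2 hb1.2 hy2H k hk
      have h1 : (2 ^ r * slope g y) ≤ D0 := by
        have h2 : (2 ^ r * slope g y) * L ^ B2 ≤ D0 * L ^ B2 := by
          calc (2 ^ r * slope g y) * L ^ B2 ≤ (r * 2 ^ r) * slope g y * L ^ B2 := by
                apply mul_le_mul_of_nonneg_right _ (hLp0 _).le
                apply mul_le_mul_of_nonneg_right _ (slope_nonneg g y)
                have : (1:ℝ) ≤ r := by exact_mod_cast hr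
                nlinarith
            _ ≤ H / 4 := hslope
            _ ≤ D0 * L ^ (A + 2) := by linarith
            _ ≤ D0 * L ^ B2 := mul_le_mul_of_nonneg_left (hLmono _ _ (by omega)) (by positivity)
        exact le_of_mul_le_mul_right h2 (hLp0 _)
      linarith
    have hF : ∀ k ∈ Icc 1 (2 * y), 3 ≤ (FF g 1 1 c b).eval (k : ℤ) := fun k hk => (hval k hk).1
    refine ⟨fun k hk => hval k (by rw [mem_Icc] at hk ⊢; omega), ?_⟩
    have hFy : ∀ k ∈ Icc 1 y, 3 ≤ (FF g 1 1 c b).eval (k : ℤ) := fun k hk =>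
      hF k (by rw [mem_Icc] at hk ⊢; omega)
    set F := FF g 1 1 c b with hFdef
    obtain ⟨S0, S1⟩ := SS_bd z F
    have hSL : SS z F ≤ L := S1.trans hVL
    by_cases hyB : (y:ℝ) ≤ L ^ (B - 2)
    · -- small `y`
      have p1 := pv_le F y
      have p2 := lF_le hFy
      have h1 : |pv F y - SS z F * lF F y| ≤ y + L * y := by
        have h2 : 0 ≤ SS z F * lF F y := mul_nonneg S0 p2.1
        have h3 : SS z F * lF F y ≤ L * y := mul_le_mul hSL p2.2 p2.1 hL0.le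
        have h4 : 0 ≤ L * y := by positivity
        rw [abs_le]
        constructor <;> linarith [p1.1, p1.2]
      refine h1.trans ?_
      have h5 : (y:ℝ) + L * y ≤ L ^ B := by
        calc (y:ℝ) + L * y ≤ L * y + L * y := by nlinarith
          _ = 2 * L * y := by ring
          _ ≤ L * L * L ^ (B - 2) := by
              gcongr
              linarith
          _ = L ^ B := by
              rw [show B = (B - 2) + 2 by omega, Nat.add_sub_cancel]; ring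
      have h6 : 0 ≤ (y:ℝ) / L ^ A := by positivity
      linarith
    · push Not at hyB
      have hMy : M ≤ y := by
        have h1 : (M:ℝ) ≤ y := by
          refine le_trans ?_ hyB.le
          calc (M:ℝ) ≤ 2 * L ^ (A + 3) := hMle
            _ ≤ L * L ^ (A + 3) := by gcongr; linarith
            _ = L ^ (A + 4) := by ring
            _ ≤ L ^ (B - 2) := hLmono _ _ (by omega)
        exact_mod_cast h1
      have hyH : y ≤ H := by omega
      obtain ⟨j, m, g1, g2, g3, g4, g5, g6⟩ := grid M y hM1 hMy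
      have hjJ : j ≤ Jl := g1.trans (Nat.log_mono_right hyH)
      have h2j : (2:ℝ) ^ j * M ≤ y := by exact_mod_cast g6
      have h2j0 : (0:ℝ) < 2 ^ j := by positivity
      -- the range of `b`
      have hrange : ∀ K : ℕ, K ≤ 2 * y → ∃ i, i ≤ Jl ∧ 2 ^ i * D0 + σ K < b ∧
          b ≤ 2 * (2 ^ i * D0) + σ K := by
        intro K hK
        have hs := hσD K hK
        obtain ⟨b', hb''⟩ : ∃ b', b = b' + σ K := ⟨b - σ K, by omega⟩
        have hb'D : D0 < b' := by omega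
        set i := Nat.log 2 ((b' - 1) / D0) with hidef
        have q1 : 1 ≤ (b' - 1) / D0 := (Nat.one_le_div_iff (by omega)).2 (by omega)
        have q2 : 2 ^ i ≤ (b' - 1) / D0 := Nat.pow_log_le_self 2 (by omega)
        have q3 : (b' - 1) / D0 < 2 ^ (i + 1) := Nat.lt_pow_succ_log_self (by norm_num) _
        have q4 : 2 ^ i * D0 ≤ b' - 1 := (Nat.le_div_iff_mul_le (by omega)).1 q2
        have q5 : b' - 1 < 2 ^ (i + 1) * D0 := (Nat.div_lt_iff_lt_mul (by omega)).1 q3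
        refine ⟨i, ?_, by omega, ?_⟩
        · apply Nat.log_mono_right
          exact (Nat.div_le_self _ _).trans (by omega)
        · have : 2 ^ (i + 1) * D0 = 2 * (2 ^ i * D0) := by ring
          omega
      have hgood : ∀ m' : ℕ, M ≤ m' → m' ≤ 2 * M → m' * 2 ^ j ≤ 2 * y → L ^ B1 ≤ ((m' * 2 ^ j : ℕ) : ℝ) →
          ((m' * 2 ^ j : ℕ) : ℝ) * L ^ B1 ≤ H →
          |pv F (m' * 2 ^ j) - SS z F * lF F (m' * 2 ^ j)| ≤ ((m' * 2 ^ j : ℕ) : ℝ) / L ^ W := by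
        intro m' k1 k2 k5 k3 k4
        obtain ⟨i, hi, hi1, hi2⟩ := hrange (m' * 2 ^ j) k5
        by_contra hcon
        push Not at hcon
        apply n2
        rw [hEx2, mem_biUnion]
        refine ⟨(m', j, i), ?_, ?_⟩
        · rw [hI, mem_product, mem_product, mem_Icc, mem_range, mem_range]
          exact ⟨⟨k1, k2⟩, by simp only; omega, by simp only; omega⟩
        · rw [hT]
          simp only [mem_filter, mem_product, mem_Ioc]
          refine ⟨⟨⟨hi1, hi2⟩, by omega, hc1.2⟩, ⟨k3, k4, ?_, by omega⟩, hcon⟩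
          have := hσb (m' * 2 ^ j) k5
          linarith
      -- sizes of the grid points
      have hKr : ((m * 2 ^ j : ℕ) : ℝ) ≤ y := by exact_mod_cast g4
      have hK'r : (y:ℝ) ≤ (((m + 1) * 2 ^ j : ℕ) : ℝ) := by exact_mod_cast g5
      have e1 : (((m + 1) * 2 ^ j : ℕ) : ℝ) = ((m * 2 ^ j : ℕ) : ℝ) + 2 ^ j := by push_cast; ring
      have hM1r : (1:ℝ) ≤ M := by exact_mod_cast hM1
      have h2jy : (2:ℝ) ^ j ≤ y := by nlinarith
      have h2jK : (2:ℝ) ^ j ≤ ((m * 2 ^ j : ℕ) : ℝ) := by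
        have : 1 ≤ m := by omega
        have h1 : 2 ^ j ≤ m * 2 ^ j := Nat.le_mul_of_pos_left _ (by omega)
        exact_mod_cast h1
      have hK'2y : (m + 1) * 2 ^ j ≤ 2 * y := by
        have h1 : (((m + 1) * 2 ^ j : ℕ) : ℝ) ≤ 2 * y := by linarith
        exact_mod_cast h1
      have hKlow : L ^ B1 ≤ ((m * 2 ^ j : ℕ) : ℝ) := by
        have h1 : (y:ℝ) ≤ 2 * ((m * 2 ^ j : ℕ) : ℝ) := by linarith
        have h2 : 2 * L ^ B1 ≤ L ^ (B - 2) := by
          calc 2 * L ^ B1 ≤ L * L ^ B1 := by gcongr; linarith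
            _ = L ^ (B1 + 1) := by ring
            _ ≤ _ := hLmono _ _ (by omega)
        linarith
      have hK'up : (((m + 1) * 2 ^ j : ℕ) : ℝ) * L ^ B1 ≤ H := by
        have h1 : (((m + 1) * 2 ^ j : ℕ) : ℝ) ≤ 2 * y := by linarith
        calc (((m + 1) * 2 ^ j : ℕ) : ℝ) * L ^ B1 ≤ (2 * y) * L ^ B1 := by gcongr
          _ = y * (2 * L ^ B1) := by ring
          _ ≤ y * (L * L ^ B1) := by gcongr; linarith
          _ = y * L ^ (B1 + 1) := by ring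
          _ ≤ y * L ^ B := by
              apply mul_le_mul_of_nonneg_left (hLmono _ _ (by omega)) (by positivity)
          _ ≤ H := hy
      have hKup : ((m * 2 ^ j : ℕ) : ℝ) * L ^ B1 ≤ H := by
        refine le_trans ?_ hK'up
        rw [e1]
        gcongr
        linarith
      have hK'low : L ^ B1 ≤ (((m + 1) * 2 ^ j : ℕ) : ℝ) := by rw [e1]; linarith
      have a1 := hgood m g2 (by omega) (by omega) hKlow hKup
      have a2 := hgood (m + 1) (by omega) g3 hK'2y hK'low hK'up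
      have hε : ((m * 2 ^ j : ℕ) : ℝ) / L ^ W ≤ 2 * y / L ^ W := by
        gcongr
        linarith
      have hε' : (((m + 1) * 2 ^ j : ℕ) : ℝ) / L ^ W ≤ 2 * y / L ^ W := by
        gcongr
        linarith
      have key := interp (SS z F) (2 * y / L ^ W) L S0 hSL (K' := (m + 1) * 2 ^ j) (fun k hk => hF k (by
        rw [mem_Icc] at hk ⊢; omega)) g4 g5 (a1.trans hε) (a2.trans hε')
      refine key.trans ?_
      have e2 : (((m + 1) * 2 ^ j : ℕ) : ℝ) - ((m * 2 ^ j : ℕ) : ℝ) = 2 ^ j := by rw [e1]; ring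
      rw [e2]
      have h7 : L * (2:ℝ) ^ j ≤ y / L ^ W := by
        rw [le_div_iff₀ (hLp0 _)]
        calc L * (2:ℝ) ^ j * L ^ W = 2 ^ j * L ^ (A + 3) := by rw [hW]; ring
          _ ≤ 2 ^ j * M := by gcongr
          _ ≤ y := h2j
      have h8 : 3 * (y:ℝ) / L ^ W ≤ y / L ^ A := by
        rw [hW, div_le_div_iff₀ (hLp0 _) (hLp0 _), pow_add]
        have h9 : (3:ℝ) ≤ L ^ 2 := by nlinarith
        calc 3 * (y:ℝ) * L ^ A = y * L ^ A * 3 := by ring
          _ ≤ y * L ^ A * L ^ 2 := by gcongr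
          _ = _ := by ring
      have h9 : 2 * (y:ℝ) / L ^ W + y / L ^ W = 3 * (y:ℝ) / L ^ W := by ring
      have h10 := hLp0 B
      linarith

end Pool.Agent.helper24_TG
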