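import Pool.Agent.helper24_TG.Core
import Pool.Agent.helper24_TP.Bh

set_option autoImplicit false

/-!
The Bateman-Horn asymptotic formula on average over `c` and `b` for the polynomials `c + b X + R`, where
`R` is a given polynomial with small slope and small second differences.
-/

namespace Pool.Agent.helper24_TG

open Finset Polynomial Filter
open Pool.Agent.H469R2.NK (e norm_e e_add conj_e e_zero)
open Pool.Agent.H442R2.EHI (norm_add_sq_le evt_log_pow evt_log_ge ff gg ff_fourier ff_sq ff_bound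
  ff_zero_of_gt)
open Pool.Agent.H300R2.BH (FourierHyp fz FF FF_eval SS GG GG_abs SS_abs pv lF)
open Pool.Agent.helper24_TP (bhR)

/-- slope at most `s` and second differences at most `C s / K` on `[0, K]` -/
structure Slow (R : ℤ[X]) (K : ℕ) (s C : ℝ) : Prop where
  z : R.eval 0 = 0
  s0 : 0 ≤ s
  d1 : ∀ k h : ℕ, k + h ≤ K → 0 ≤ ((R.eval ((k + h : ℕ) : ℤ) : ℤ) : ℝ) - ((R.eval (k : ℤ) : ℤ) : ℝ) ∧
    ((R.eval ((k + h : ℕ) : ℤ) : ℤ) : ℝ) - ((R.eval (k : ℤ) : ℤ) : ℝ) ≤ h * s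
  d2 : ∀ k h : ℕ, k + 2 * h ≤ K → |((R.eval ((k + 2 * h : ℕ) : ℤ) : ℤ) : ℝ) -
    2 * ((R.eval ((k + h : ℕ) : ℤ) : ℤ) : ℝ) + ((R.eval (k : ℤ) : ℤ) : ℝ)| ≤ (C * s / K) * (h : ℝ) ^ 2

lemma Slow.nonneg {R : ℤ[X]} {K : ℕ} {s C : ℝ} (h : Slow R K s C) {k : ℕ} (hk : k ≤ K) :
    0 ≤ R.eval (k : ℤ) := by
  have h1 := (h.d1 0 k (by omega)).1
  rw [Nat.zero_add] at h1
  have h2 : ((R.eval ((0 : ℕ) : ℤ) : ℤ) : ℝ) = 0 := by
    have := h.z
    simp only [Nat.cast_zero]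
    rw [this]; simp
  rw [h2, sub_zero] at h1
  exact_mod_cast h1

lemma Slow.le {R : ℤ[X]} {K : ℕ} {s C : ℝ} (h : Slow R K s C) {k : ℕ} (hk : k ≤ K) :
    ((R.eval (k : ℤ) : ℤ) : ℝ) ≤ K * s := by
  have h1 := (h.d1 0 k (by omega)).2
  rw [Nat.zero_add] at h1
  have h2 : ((R.eval ((0 : ℕ) : ℤ) : ℤ) : ℝ) = 0 := by
    have := h.z
    simp only [Nat.cast_zero]
    rw [this]; simp
  rw [h2, sub_zero] at h1
  refine h1.trans ?_
  apply mul_le_mul_of_nonneg_right _ h.s0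
  exact_mod_cast hk

/-- the conditions on the box for the family `c + b k + R(k)`, `k ≤ K`, `b ∈ (D, 2 D]`, `c ∈ (a0, a0 + A]` -/
structure Box (x K D A a0 : ℕ) (s T : ℝ) : Prop where
  val : (a0 : ℝ) + A + 2 * D * K + K * s ≤ x
  k0 : T ≤ K
  ka : K * T ≤ A
  kd : K * T ≤ D
  sa : s * T ≤ A
  sd : s * T ≤ D
  da : D * T ≤ (A : ℝ) * K
  aa : s * D * T ≤ (A : ℝ) ^ 2

lemma Box.mono {x K D A a0 : ℕ} {s T T' : ℝ} (hs : 0 ≤ s) (h : Box x K D A a0 s T) (hT : T' ≤ T) :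
    Box x K D A a0 s T' where
  val := h.val
  k0 := hT.trans h.k0
  ka := le_trans (by gcongr) h.ka
  kd := le_trans (by gcongr) h.kd
  sa := le_trans (by gcongr) h.sa
  sd := le_trans (by gcongr) h.sd
  da := le_trans (by gcongr) h.da
  aa := le_trans (by gcongr) h.aa

lemma Slow.conv {R : ℤ[X]} {K1 K D : ℕ} {s C : ℝ} (h : Slow R K s C) (hC : 0 ≤ C) (hK : 1 ≤ K)
    (h1 : 8 * s ≤ D) (h2 : 8 * (C * s) ≤ D) :
    Conv (fun k : ℕ => ((R.eval (k : ℤ) : ℤ) : ℝ)) K1 K D (C * s / K) where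
  r0 := by
    have := h.s0
    positivity
  r1 := by
    have hK0 : (0 : ℝ) < K := by exact_mod_cast hK
    rw [div_mul_cancel₀ _ hK0.ne']
    linarith
  d1 := by
    intro k t _ hk2
    obtain ⟨a1, a2⟩ := h.d1 k t hk2
    refine ⟨a1, a2.trans ?_⟩
    apply mul_le_mul_of_nonneg_left _ (Nat.cast_nonneg _)
    linarith
  d2 := by
    intro k t _ hk2
    exact h.d2 k t hk2

theorem bhT (J : ℕ) (hJ : 1 ≤ J) (C : ℝ) (hC : 0 ≤ C) (ε : ℝ) (hε : 0 < ε) (E0 U : ℕ) :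
    ∃ E1 : ℕ, ∀ E : ℕ, E1 ≤ E → ∃ B x0 : ℕ, ∀ x : ℕ, x0 ≤ x → ∀ z : ℕ,
    ⌊Real.log x ^ E1⌋₊ ≤ z → (z : ℝ) ≤ Real.log x ^ E → ∀ (K D A a0 : ℕ) (R : ℤ[X]) (s : ℝ),
    R.natDegree ≤ J → Slow R K s C →
    Box x K D A a0 s (Real.log x ^ B) → (x : ℝ) ≤ D * K * Real.log x ^ E0 → (x : ℝ) ^ ε ≤ A →
    ∑ a ∈ Ioc a0 (a0 + A), ∑ d ∈ Ioc D (2 * D),
      |pv (FF R 1 1 a d) K -
        SS z (FF R 1 1 a d) * lF (FF R 1 1 a d) K| ≤
      A * D * K / Real.log x ^ U := by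
  classical
  obtain ⟨E2, hE2⟩ : ∃ E2, E2 = U + 5 := ⟨_, rfl⟩
  obtain ⟨V, hV⟩ : ∃ V, V = E0 + E2 := ⟨_, rfl⟩
  obtain ⟨U', hU'⟩ : ∃ U', U' = 2 * U + E0 + 8 := ⟨_, rfl⟩
  obtain ⟨E1, hE1⟩ : ∃ E1, E1 = 8 * J + 2 * (U + 3) + 8 + E2 + U' + 3 := ⟨_, rfl⟩
  refine ⟨E1, fun E hE => ?_⟩
  obtain ⟨B2, x2, hR2⟩ := bhR 1 J le_rfl hJ ε hε U V E1 E (by omega) hE
  obtain ⟨x3, hff⟩ := Pool.Agent.H300R2.FB.ff_ok E1 (E0 + (6 * E1 + U' + 1) + 4)
  obtain ⟨B, hB⟩ : ∃ B, B = B2 + E2 + 11 * E1 + E0 + U' + 20 + 1 := ⟨_, rfl⟩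
  have hev : ∀ᶠ x : ℕ in atTop, x2 ≤ x ∧ x3 ≤ x ∧ 3 ≤ x ∧ 100000000 ≤ Real.log x ∧
      8 * (C + 1) ≤ Real.log x := by
    filter_upwards [eventually_ge_atTop x2, eventually_ge_atTop x3, eventually_ge_atTop 3,
      evt_log_ge 100000000, evt_log_ge (8 * (C + 1))] with x h1 h2 h3 h4 h5
    exact ⟨h1, h2, h3, h4, h5⟩
  obtain ⟨x0, hx0⟩ := eventually_atTop.mp hev
  refine ⟨B, x0, fun x hx z hzQ hzE K D A a0 R s hRJ hslow hbox hxDK hxA => ?_⟩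
  obtain ⟨hx2, hx3, hx3', hL, hLC⟩ := hx0 x hx
  set L := Real.log x with hLdef
  have hL0 : 0 < L := by linarith
  have hL1 : 1 ≤ L := by linarith
  have hLp0 : ∀ n : ℕ, 0 < L ^ n := fun n => by positivity
  have hLp : ∀ n : ℕ, 1 ≤ L ^ n := fun n => one_le_pow₀ hL1
  have hLmono : ∀ m n : ℕ, m ≤ n → L ^ m ≤ L ^ n := fun m n h => pow_le_pow_right₀ hL1 h
  have hxr : (3:ℝ) ≤ x := by exact_mod_cast hx3'
  have hx0' : (0:ℝ) < x := by linarith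
  have hLLB : L ≤ L ^ B := by
    calc L = L ^ 1 := (pow_one L).symm
      _ ≤ L ^ B := hLmono _ _ (by omega)
  have hval := hbox.val
  have hK1r : (1:ℝ) ≤ K := (hLp _).trans hbox.k0
  have hKpos : (0:ℝ) < K := by linarith
  have hK1n : 1 ≤ K := by exact_mod_cast hK1r
  have hD0 : (0:ℝ) < D := by
    have := hbox.kd
    have h2 : 0 < (K:ℝ) * L ^ B := by positivity
    linarith
  have hA0 : (0:ℝ) < A := by
    have := hbox.ka
    have h2 : 0 < (K:ℝ) * L ^ B := by positivity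
    linarith
  have hLBK : L ^ B ≤ K := hbox.k0
  have hLBD : L ^ B ≤ D := by
    refine le_trans ?_ hbox.kd
    exact le_mul_of_one_le_left (hLp0 B).le hK1r
  have hs0 : 0 ≤ s := hslow.s0
  have hLBC : 8 * (C + 1) ≤ L ^ B := hLC.trans hLLB
  have h8s : 8 * s ≤ D := by
    refine le_trans ?_ hbox.sd
    nlinarith
  have h8Cs : 8 * (C * s) ≤ D := by
    refine le_trans ?_ hbox.sd
    nlinarith
  have hDK : D * K ≤ x := by
    have h1 : (D : ℝ) * K ≤ x := by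
      have h2 : 0 ≤ (K : ℝ) * s := by positivity
      have h3 : (0 : ℝ) ≤ a0 := Nat.cast_nonneg _
      have h4 : (0 : ℝ) ≤ (D : ℝ) * K := by positivity
      linarith
    exact_mod_cast h1
  have hAx0 : a0 + A ≤ x := by
    have h1 : (a0 : ℝ) + A ≤ x := by
      have h2 : 0 ≤ (K : ℝ) * s := by positivity
      have h4 : (0 : ℝ) ≤ (D : ℝ) * K := by positivity
      linarith
    exact_mod_cast h1
  have hAx : A ≤ x := by omega
  -- `K1`
  set K1 := ⌊(K:ℝ) / L ^ (U + 4)⌋₊ with hK1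
  have hK1le : (K1:ℝ) ≤ K / L ^ (U + 4) := Nat.floor_le (by positivity)
  have hK1K : K1 ≤ K := by
    have : (K1:ℝ) ≤ K := hK1le.trans (div_le_self (by positivity) (hLp _))
    exact_mod_cast this
  have hKK1 : (K:ℝ) ≤ K1 * L ^ E2 := by
    have h1 : (K:ℝ) / L ^ (U + 4) < K1 + 1 := Nat.lt_floor_add_one _
    have h2 : L ≤ (K:ℝ) / L ^ (U + 4) := by
      rw [le_div_iff₀ (hLp0 _)]
      calc L * L ^ (U + 4) = L ^ (U + 5) := by ring
        _ ≤ _ := hLmono _ _ (by omega)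
        _ ≤ _ := hLBK
    have h3 : (K:ℝ) / L ^ (U + 4) ≤ K1 * L := by nlinarith
    calc (K:ℝ) = (K / L ^ (U + 4)) * L ^ (U + 4) := by field_simp
      _ ≤ (K1 * L) * L ^ (U + 4) := by gcongr
      _ = K1 * L ^ E2 := by rw [hE2]; ring
  obtain ⟨hfour, hsq⟩ := hff x hx3
  have heval : ∀ a d k : ℕ, (FF R 1 1 a d).eval (k : ℤ) =
      (a : ℤ) + R.eval (k : ℤ) + (d : ℤ) * k := by
    intro a d k
    rw [FF_eval]
    ring
  have hbox' : Box x K D A a0 s (L ^ (11 * E1 + E0 + U' + 20)) :=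
    hbox.mono hs0 (hLmono _ _ (by omega))
  have hub : ∀ a ∈ Ioc a0 (a0 + A), ∀ d ∈ Ioc D (2 * D), ∀ k ∈ Icc 1 K,
      (a : ℤ) + R.eval (k : ℤ) + (d : ℤ) * k ≤ x := by
    intro a ha d hd k hk
    rw [mem_Ioc] at ha hd
    rw [mem_Icc] at hk
    have h1 := hslow.le hk.2
    have h2 : (d : ℝ) * k ≤ 2 * D * K := by
      have a1 : (d : ℝ) ≤ 2 * D := by exact_mod_cast hd.2
      have a2 : (k : ℝ) ≤ K := by exact_mod_cast hk.2
      gcongr
    have h3 : (a : ℝ) ≤ a0 + A := by exact_mod_cast ha.2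
    have h4 : (a : ℝ) + ((R.eval (k : ℤ) : ℤ) : ℝ) + (d : ℝ) * k ≤ x := by linarith
    exact_mod_cast h4
  have hTT : C * L ^ (11 * E1 + E0 + U' + 20) ≤ L ^ B := by
    have h3 : C ≤ L := by linarith
    calc C * L ^ (11 * E1 + E0 + U' + 20) ≤ L * L ^ (11 * E1 + E0 + U' + 20) := by gcongr
      _ = L ^ (11 * E1 + E0 + U' + 20 + 1) := by ring
      _ ≤ L ^ B := hLmono _ _ (by omega)
  have hcore := core E0 E1 E2 U' (by omega) x hL (ff x ⌊L ^ E1⌋₊) (fun n hn => ff_zero_of_gt hn)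
    hfour hsq D K K1 A a0 R (C * s / K) (hslow.conv hC hK1n h8s h8Cs) (by
      intro k hk
      rw [mem_Ioc] at hk
      rw [abs_of_nonneg (hslow.nonneg hk.2)]
      have h1 := hslow.le hk.2
      have h3 : (0 : ℝ) ≤ a0 := Nat.cast_nonneg _
      have h4 : (0 : ℝ) ≤ (D : ℝ) * K := by positivity
      have h2 : ((R.eval (k : ℤ) : ℤ) : ℝ) ≤ x := by linarith
      exact_mod_cast h2) hDK hxDK hK1K hKK1 hAx0 hbox'.k0 hbox'.ka
    hbox'.kd (by
      rw [div_mul_cancel₀ _ hKpos.ne']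
      calc C * s * L ^ (11 * E1 + E0 + U' + 20) = s * (C * L ^ (11 * E1 + E0 + U' + 20)) := by ring
        _ ≤ s * L ^ B := mul_le_mul_of_nonneg_left hTT hs0
        _ ≤ A := hbox.sa) (by
      rw [div_mul_cancel₀ _ hKpos.ne']
      calc C * s * L ^ (11 * E1 + E0 + U' + 20) = s * (C * L ^ (11 * E1 + E0 + U' + 20)) := by ring
        _ ≤ s * L ^ B := mul_le_mul_of_nonneg_left hTT hs0
        _ ≤ D := hbox.sd) hbox'.da (by
      rw [div_mul_cancel₀ _ hKpos.ne']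
      calc C * s * D * L ^ (11 * E1 + E0 + U' + 20) = s * D * (C * L ^ (11 * E1 + E0 + U' + 20)) := by ring
        _ ≤ s * D * L ^ B := mul_le_mul_of_nonneg_left hTT (by positivity)
        _ ≤ (A : ℝ) ^ 2 := hbox.aa)
  have hper : ∑ a ∈ Ioc a0 (a0 + A), ∑ d ∈ Ioc D (2 * D),
      |pv (FF R 1 1 a d) K -
        SS z (FF R 1 1 a d) * lF (FF R 1 1 a d) K| ≤
      A * D * K / L ^ (U + 1) +
      ∑ a ∈ Ioc a0 (a0 + A), ∑ d ∈ Ioc D (2 * D),
        ‖∑ k ∈ Ioc K1 K, fz (ff x ⌊L ^ E1⌋₊) ((FF R 1 1 a d).eval (k : ℤ))‖ := by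
    refine hR2 x hx2 z hzQ hzE K D A a0 R 1 (5 * D)
      hRJ (Or.inl rfl) ((hLmono _ _ (by omega)).trans hLBK)
      hxA hAx ((hLmono _ _ (by omega)).trans hLBD) (by positivity) ?_ ?_ ?_ ?_
    · have h1 : (D:ℝ) * K ≤ x := by exact_mod_cast hDK
      calc (K:ℝ) * (5 * D) = 5 * (D * K) := by ring
        _ ≤ L ^ V * x := by
          apply mul_le_mul _ h1 (by positivity) (hLp0 _).le
          calc (5:ℝ) ≤ L := by linarith
            _ = L ^ 1 := (pow_one L).symm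
            _ ≤ L ^ V := hLmono _ _ (by omega)
        _ = _ := by ring
    · intro a ha d hd k hk
      rw [heval]
      exact hub a ha d hd k hk
    · intro a ha d hd k hk
      rw [heval]
      rw [mem_Ioc] at ha hd hk
      have hk' : (K1:ℝ) ≤ k := by exact_mod_cast hk.1.le
      have hd' : (D:ℝ) ≤ d := by exact_mod_cast hd.1.le
      rw [div_le_iff₀ (hLp0 _)]
      have h1 : (D:ℝ) * K1 ≤ d * k := by gcongr
      have h2 : (0:ℝ) ≤ ((R.eval (k : ℤ) : ℤ) : ℝ) := by exact_mod_cast hslow.nonneg hk.2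
      have h3 : (0:ℝ) ≤ (a:ℝ) := Nat.cast_nonneg _
      calc (x:ℝ) ≤ D * K * L ^ E0 := hxDK
        _ ≤ D * (K1 * L ^ E2) * L ^ E0 := by gcongr
        _ = (D * K1) * L ^ V := by rw [hV, pow_add]; ring
        _ ≤ _ := by
          apply mul_le_mul_of_nonneg_right _ (hLp0 _).le
          push_cast
          linarith
    · intro a ha d hd k hk hk1
      rw [heval, heval]
      rw [mem_Ioc] at ha hd
      rw [mem_Icc] at hk hk1
      have hd' : (d:ℝ) ≤ 2 * D := by exact_mod_cast hd.2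
      obtain ⟨g1, g2⟩ := hslow.d1 k 1 hk1.2
      have e1 : (((a : ℤ) + R.eval ((k + 1 : ℕ) : ℤ) + (d : ℤ) * ((k + 1 : ℕ) : ℤ) : ℤ) : ℝ) -
          (((a : ℤ) + R.eval (k : ℤ) + (d : ℤ) * (k : ℤ) : ℤ) : ℝ) =
          (((R.eval ((k + 1 : ℕ) : ℤ) : ℤ) : ℝ) - ((R.eval (k : ℤ) : ℤ) : ℝ)) + d := by
        push_cast; ring
      rw [e1, abs_of_nonneg (by positivity)]
      rw [Nat.cast_one, one_mul] at g2
      linarith
  refine hper.trans ?_
  -- Cauchy-Schwarz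
  set G : ℕ × ℕ → ℝ := fun p =>
    ‖∑ k ∈ Ioc K1 K, fz (ff x ⌊L ^ E1⌋₊) ((FF R 1 1 p.1 p.2).eval (k : ℤ))‖ with hG
  set T := (Ioc a0 (a0 + A)) ×ˢ (Ioc D (2 * D)) with hT
  have hTc : (T.card : ℝ) = A * D := by
    rw [hT, card_product, Nat.card_Ioc, Nat.card_Ioc, show a0 + A - a0 = A by omega,
      show 2 * D - D = D by omega]
    push_cast
    ring
  have hS1 : ∑ a ∈ Ioc a0 (a0 + A), ∑ d ∈ Ioc D (2 * D),
        ‖∑ k ∈ Ioc K1 K, fz (ff x ⌊L ^ E1⌋₊) ((FF R 1 1 a d).eval (k : ℤ))‖ =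
      ∑ p ∈ T, G p := by
    rw [hT, sum_product]
  have hS2 : ∑ a ∈ Ioc a0 (a0 + A), ∑ d ∈ Ioc D (2 * D),
        ‖∑ k ∈ Ioc K1 K, fz (ff x ⌊L ^ E1⌋₊) ((FF R 1 1 a d).eval (k : ℤ))‖ ^ 2 =
      ∑ p ∈ T, G p ^ 2 := by
    rw [hT, sum_product]
  rw [hS2] at hcore
  rw [hS1]
  have hL1sum : ∑ p ∈ T, G p ≤ (A * D * K) / L ^ (U + 2) := by
    have h2 := sq_sum_le_card_mul_sum_sq (s := T) (f := G)
    rw [hTc] at h2
    apply le_of_sq_le_sq _ (by positivity)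
    refine h2.trans ?_
    calc (A * D : ℝ) * _ ≤ (A * D) * (A * x * K / L ^ U') := by gcongr
      _ ≤ (A * D) * (A * (D * K * L ^ E0) * K / L ^ U') := by gcongr
      _ = (A * D * K) ^ 2 / L ^ (2 * U + 8) := by
          rw [hU', show 2 * U + E0 + 8 = (2 * U + 8) + E0 by ring, pow_add L _ E0]
          field_simp
      _ ≤ (A * D * K) ^ 2 / L ^ (2 * (U + 2)) := by
          gcongr
          · omega
      _ = _ := by rw [div_pow, ← pow_mul, mul_comm 2 (U + 2)]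
  calc A * D * K / L ^ (U + 1) + ∑ p ∈ T, G p
      ≤ A * D * K / L ^ (U + 1) + (A * D * K) / L ^ (U + 2) := by gcongr
    _ = (A * D * K / L ^ U) * (1 / L + 1 / L ^ 2) := by
        rw [pow_succ, pow_add]
        field_simp
    _ ≤ (A * D * K / L ^ U) * 1 := by
        apply mul_le_mul_of_nonneg_left _ (by positivity)
        have h1 : 1 / L ≤ 1 / 100000000 := one_div_le_one_div_of_le (by norm_num) hL
        have h2 : 1 / L ^ 2 ≤ 1 / 1000 := by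
          apply one_div_le_one_div_of_le (by norm_num)
          nlinarith
        linarith
    _ = _ := mul_one _

end Pool.Agent.helper24_TG
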