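import Pool.Agent.helper24_TG.MajAll
import Pool.Agent.H747R2.BH_MinorP
import Pool.Agent.H442R2.EHI.Dio

set_option autoImplicit false

/-!
The second moment over the polynomials `a + R(k) + d k`, `R` with small second differences.
-/

namespace Pool.Agent.helper24_TG

open Pool.Agent.helper24_TP

open Finset Polynomial
open Pool.Agent.H469R2.NK (e norm_e e_add conj_e e_zero)
open Pool.Agent.H442R2.EHI (sum_e_range e_add_int Maj maj_rep Pairs card_pairs poly twist nint nu dioph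
  norm_add_sq_le)
open Pool.Agent.H747R2.BH (minorP)
open Pool.Agent.H300R2.BH (FourierHyp major_decomp chf fz FF FF_eval ch_parseval ch_inv)

lemma pair_nu (K K1 : ℕ) (Δ α : ℝ) :
    (((Ioc K1 K ×ˢ Ioc K1 K).filter (fun kk : ℕ × ℕ =>
      nint ((((kk.1 : ℤ) - (kk.2 : ℤ) : ℤ) : ℝ) * α) ≤ Δ)).card : ℝ) ≤ K * nu K Δ α := by
  classical
  have h1 : ((Ioc K1 K ×ˢ Ioc K1 K).filter (fun kk : ℕ × ℕ =>
      nint ((((kk.1 : ℤ) - (kk.2 : ℤ) : ℤ) : ℝ) * α) ≤ Δ)).card ≤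
      (Ioc K1 K ×ˢ (Icc (-(K : ℤ)) K).filter (fun g : ℤ => nint (g * α) ≤ Δ)).card := by
    apply card_le_card_of_injOn (fun kk => (kk.1, (kk.1 : ℤ) - (kk.2 : ℤ)))
    · intro kk hkk
      simp only [coe_filter, mem_product, mem_Ioc, Set.mem_ofPred_eq] at hkk
      simp only [coe_product, Set.mem_prod, mem_coe, mem_Ioc, mem_filter, mem_Icc]
      refine ⟨hkk.1.1, ⟨?_, ?_⟩, hkk.2⟩ <;> omega
    · intro a _ b _ hab
      simp only [Prod.mk.injEq] at hab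
      obtain ⟨h1, h2⟩ := hab
      ext
      · exact h1
      · rw [h1] at h2; omega
  have h2 : (Ioc K1 K ×ˢ (Icc (-(K : ℤ)) K).filter (fun g : ℤ => nint (g * α) ≤ Δ)).card ≤
      K * nu K Δ α := by
    rw [card_product, Nat.card_Ioc]
    unfold nu
    exact Nat.mul_le_mul_right _ (by omega)
  exact_mod_cast h1.trans h2

lemma main_cond (E0 E1 U : ℕ) {L ρ K D A Q : ℝ} (hL : 100000000 ≤ L) (hρ0 : 0 ≤ ρ) (hK0 : 0 < K)
    (hD0 : 0 < D) (hA0 : 0 < A) (hQr : 1 ≤ Q) (hQle : Q ≤ L ^ E1) (hK1r : 1 ≤ K)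
    (c1 : L ^ (11 * E1 + E0 + U + 20) ≤ K)
    (c4 : ρ * K * L ^ (11 * E1 + E0 + U + 20) ≤ A)
    (c5 : ρ * K * L ^ (11 * E1 + E0 + U + 20) ≤ D)
    (c6 : D * L ^ (11 * E1 + E0 + U + 20) ≤ A * K)
    (c7 : ρ * K * D * L ^ (11 * E1 + E0 + U + 20) ≤ A ^ 2) :
    (K ^ 2 * (ρ * ((1 / (2 * D) + K / (2 * A)) * Q / K)) + 1) *
      ((1 / (2 * D) + K / (2 * A)) * Q / K * D + 1) *
      L ^ (3 * E1 + E0 + ((6 * E1 + U + 1) + 1) + 5) ≤ K := by
  obtain ⟨B, hB⟩ : ∃ B, B = 11 * E1 + E0 + U + 20 := ⟨_, rfl⟩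
  rw [← hB] at c1 c4 c5 c6 c7
  obtain ⟨F, hF⟩ : ∃ F, F = 3 * E1 + E0 + ((6 * E1 + U + 1) + 1) + 5 := ⟨_, rfl⟩
  rw [← hF]
  obtain ⟨δ, hδ⟩ : ∃ δ, δ = (1 / (2 * D) + K / (2 * A)) * Q / K := ⟨_, rfl⟩
  rw [← hδ]
  have hL0 : 0 < L := by linarith
  have hL1 : 1 ≤ L := by linarith
  have hLp0 : ∀ n : ℕ, 0 < L ^ n := fun n => by positivity
  have hLp : ∀ n : ℕ, 1 ≤ L ^ n := fun n => one_le_pow₀ hL1
  have hLmono : ∀ {m n : ℕ}, m ≤ n → L ^ m ≤ L ^ n := fun h => pow_le_pow_right₀ hL1 h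
  have hQ0 : (0:ℝ) ≤ Q := by linarith
  have hδ0 : 0 ≤ δ := by rw [hδ]; positivity
  -- first factor
  have a1 : K ^ 2 * (ρ * δ) ≤ 1 + ρ * K ^ 2 * Q / A := by
    have e1 : K ^ 2 * (ρ * δ) = ρ * K * Q / (2 * D) + ρ * K ^ 2 * Q / (2 * A) := by
      rw [hδ]; field_simp
    have e2 : ρ * K * Q / (2 * D) ≤ 1 := by
      rw [div_le_one (by positivity)]
      have : ρ * K * Q ≤ ρ * K * L ^ B := by
        have : (Q:ℝ) ≤ L ^ B := hQle.trans (hLmono (by omega))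
        gcongr
      linarith
    have e3 : ρ * K ^ 2 * Q / (2 * A) ≤ ρ * K ^ 2 * Q / A := by
      apply div_le_div_of_nonneg_left (by positivity) hA0
      linarith
    linarith
  have a2 : δ * D ≤ Q + Q * D / A := by
    have e1 : δ * D = Q / (2 * K) + Q * D / (2 * A) := by
      rw [hδ]; field_simp
    have e2 : (Q:ℝ) / (2 * K) ≤ Q := by
      apply div_le_self hQ0
      linarith
    have e3 : (Q:ℝ) * D / (2 * A) ≤ Q * D / A := by
      apply div_le_div_of_nonneg_left (by positivity) hA0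
      linarith
    linarith
  have a3 : K ^ 2 * (ρ * δ) + 1 ≤ Q * (2 + ρ * K ^ 2 / A) := by
    have : ρ * K ^ 2 * Q / A = Q * (ρ * K ^ 2 / A) := by ring
    nlinarith
  have a4 : δ * D + 1 ≤ Q * (2 + D / A) := by
    have : (Q:ℝ) * D / A = Q * (D / A) := by ring
    nlinarith
  have a5 : (K ^ 2 * (ρ * δ) + 1) * (δ * D + 1) ≤
      (Q * (2 + ρ * K ^ 2 / A)) * (Q * (2 + D / A)) := by
    apply mul_le_mul a3 a4 (by positivity) (by positivity)
  have a6 : (2 + ρ * K ^ 2 / A) * (2 + D / A) * L ^ (F + 2 * E1) ≤ K := by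
    have hBF : L ^ (F + 2 * E1) * L ≤ L ^ B := by
      rw [← pow_succ]
      exact hLmono (by omega)
    have hLF : L ^ (F + 2 * E1) ≤ L ^ B / L := by
      rw [le_div_iff₀ hL0]; exact hBF
    have hLBL : L ^ B / L ≤ L ^ B / 100000000 := by
      apply div_le_div_of_nonneg_left (hLp0 B).le (by norm_num) hL
    obtain ⟨Z, hZ⟩ : ∃ Z, Z = L ^ (F + 2 * E1) := ⟨_, rfl⟩
    rw [← hZ] at hLF ⊢
    have hZ0 : 0 < Z := by rw [hZ]; exact hLp0 _
    have hZB : 16 * Z ≤ L ^ B := by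
      have := hLF.trans hLBL
      linarith [hLp0 B]
    have b1 : 4 * Z ≤ K / 4 := by linarith
    have b2 : 2 * (ρ * K ^ 2 / A) * Z ≤ K / 4 := by
      have : (ρ * K ^ 2 / A) * (16 * Z) ≤ K := by
        calc (ρ * K ^ 2 / A) * (16 * Z) ≤ (ρ * K ^ 2 / A) * L ^ B := by gcongr
          _ = (ρ * K * L ^ B) * K / A := by ring
          _ ≤ A * K / A := by gcongr
          _ = K := by field_simp
      have h0 : 0 ≤ (ρ * K ^ 2 / A) * Z := by positivity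
      linarith
    have b3 : 2 * (D / A) * Z ≤ K / 4 := by
      have : (D / A) * (16 * Z) ≤ K := by
        calc ((D:ℝ) / A) * (16 * Z) ≤ (D / A) * L ^ B := by gcongr
          _ = (D * L ^ B) / A := by ring
          _ ≤ (A * K) / A := by gcongr
          _ = K := by field_simp
      have h0 : 0 ≤ (D / A) * Z := by positivity
      linarith
    have b4 : (ρ * K ^ 2 / A) * (D / A) * Z ≤ K / 4 := by
      have : (ρ * K ^ 2 / A) * (D / A) * (16 * Z) ≤ K := by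
        calc (ρ * K ^ 2 / A) * (D / A) * (16 * Z) ≤ (ρ * K ^ 2 / A) * (D / A) * L ^ B := by
              gcongr
          _ = (ρ * K * D * L ^ B) * K / A ^ 2 := by field_simp
          _ ≤ A ^ 2 * K / A ^ 2 := by gcongr
          _ = K := by field_simp
      have h0 : 0 ≤ (ρ * K ^ 2 / A) * (D / A) * Z := by positivity
      linarith
    have b5 : (2 + ρ * K ^ 2 / A) * (2 + D / A) * Z =
        4 * Z + 2 * (ρ * K ^ 2 / A) * Z + 2 * (D / A) * Z + (ρ * K ^ 2 / A) * (D / A) * Z := by ring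
    rw [b5]
    linarith
  have hpow : L ^ (F + 2 * E1) = L ^ E1 * L ^ E1 * L ^ F := by
    rw [← pow_add, ← pow_add]; congr 1; ring
  calc (K ^ 2 * (ρ * δ) + 1) * (δ * D + 1) * L ^ F
      ≤ (Q * (2 + ρ * K ^ 2 / A)) * (Q * (2 + D / A)) * L ^ F := by gcongr
    _ = (2 + ρ * K ^ 2 / A) * (2 + D / A) * (Q * Q * L ^ F) := by ring
    _ ≤ (2 + ρ * K ^ 2 / A) * (2 + D / A) * (L ^ E1 * L ^ E1 * L ^ F) := by gcongr
    _ = (2 + ρ * K ^ 2 / A) * (2 + D / A) * L ^ (F + 2 * E1) := by rw [hpow]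
    _ ≤ K := a6

theorem core (E0 E1 E2 U : ℕ) (hE1 : E2 + U + 3 ≤ E1) (x : ℕ) (hL : 100000000 ≤ Real.log x)
    (f : ℕ → ℂ) (hf : ∀ n, x < n → f n = 0)
    (hfour : FourierHyp f x E1 (E0 + (6 * E1 + U + 1) + 4))
    (hsq : ∑ n ∈ Icc 1 x, ‖f n‖ ^ 2 ≤ x * Real.log x ^ 2)
    (D K K1 A a0 : ℕ) (R : ℤ[X]) (ρ : ℝ)
    (hR : Conv (fun k : ℕ => ((R.eval (k : ℤ) : ℤ) : ℝ)) K1 K D ρ)
    (hRx : ∀ k ∈ Ioc K1 K, |R.eval (k : ℤ)| ≤ (x : ℤ))
    (hDK : D * K ≤ x) (hxDK : (x : ℝ) ≤ D * K * Real.log x ^ E0) (hK1 : K1 ≤ K)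
    (hKK1 : (K : ℝ) ≤ K1 * Real.log x ^ E2) (haA : a0 + A ≤ x)
    (c1 : Real.log x ^ (11 * E1 + E0 + U + 20) ≤ K)
    (c2 : K * Real.log x ^ (11 * E1 + E0 + U + 20) ≤ A)
    (c3 : K * Real.log x ^ (11 * E1 + E0 + U + 20) ≤ D)
    (c4 : ρ * K * Real.log x ^ (11 * E1 + E0 + U + 20) ≤ A)
    (c5 : ρ * K * Real.log x ^ (11 * E1 + E0 + U + 20) ≤ D)
    (c6 : D * Real.log x ^ (11 * E1 + E0 + U + 20) ≤ (A : ℝ) * K)
    (c7 : ρ * K * D * Real.log x ^ (11 * E1 + E0 + U + 20) ≤ (A : ℝ) ^ 2) :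
    ∑ a ∈ Ioc a0 (a0 + A), ∑ d ∈ Ioc D (2 * D),
      ‖∑ k ∈ Ioc K1 K, fz f ((FF R 1 1 a d).eval (k : ℤ))‖ ^ 2 ≤
      A * x * K / Real.log x ^ U := by
  classical
  set L := Real.log x with hLdef
  set B := 11 * E1 + E0 + U + 20 with hB
  have hL0 : 0 < L := by linarith
  have hL1 : 1 ≤ L := by linarith
  have hLp0 : ∀ n : ℕ, 0 < L ^ n := fun n => by positivity
  have hLp : ∀ n : ℕ, 1 ≤ L ^ n := fun n => one_le_pow₀ hL1
  have hLmono : ∀ {m n : ℕ}, m ≤ n → L ^ m ≤ L ^ n := fun h => pow_le_pow_right₀ hL1 h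
  have hρ0 : 0 ≤ ρ := hR.r0
  have hK1r : (1:ℝ) ≤ K := (hLp B).trans c1
  have hK1n : 1 ≤ K := by exact_mod_cast hK1r
  have hK0 : (0:ℝ) < K := by linarith
  have hK1pos : 1 ≤ K1 := by
    rcases Nat.eq_zero_or_pos K1 with h | h
    · rw [h] at hKK1
      simp at hKK1
      omega
    · exact h
  have hK1p : (0:ℝ) < K1 := by exact_mod_cast hK1pos
  have hKB : (K : ℝ) ≤ K * L ^ B := le_mul_of_one_le_right hK0.le (hLp B)
  have hA0 : (0:ℝ) < A := by linarith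
  have hD0 : (0:ℝ) < D := by linarith
  have hAx : A ≤ x := by omega
  have hKx : K ≤ x := by
    have h1 : (K : ℝ) ≤ A := hKB.trans c2
    have h2 : K ≤ A := by exact_mod_cast h1
    omega
  have hx1 : 1 ≤ x := by omega
  have hx0 : (0:ℝ) < x := by exact_mod_cast hx1
  have hLB4 : (100000000:ℝ) ≤ L ^ B := by
    calc (100000000:ℝ) ≤ L := hL
      _ = L ^ 1 := (pow_one L).symm
      _ ≤ L ^ B := hLmono (by omega)
  have hLBK : L ^ B ≤ K := c1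
  have hLBD : L ^ B ≤ D := by
    refine le_trans ?_ c3
    exact le_mul_of_one_le_left (hLp0 B).le hK1r
  have h2GA : 2 * K ≤ A := by
    have : (2:ℝ) * K ≤ A := by nlinarith
    exact_mod_cast this
  have hD4 : 4 ≤ D := by
    have : (4:ℝ) ≤ D := by linarith
    exact_mod_cast this
  have hKD : K ≤ D := by
    have : (K:ℝ) ≤ D := hKB.trans c3
    exact_mod_cast this
  -- `Q`, `δ`, `Δ`
  set Q := ⌊L ^ E1⌋₊ with hQ
  have hQle : (Q:ℝ) ≤ L ^ E1 := Nat.floor_le (by positivity)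
  have hQ1 : 1 ≤ Q := Nat.le_floor (by simpa using hLp E1)
  have hQr : (1:ℝ) ≤ Q := by exact_mod_cast hQ1
  have hQge : L ^ E1 / 2 ≤ Q := by
    have h1 : L ^ E1 < Q + 1 := Nat.lt_floor_add_one _
    linarith
  have hQK : Q ≤ K := by
    have : (Q:ℝ) ≤ K := hQle.trans ((hLmono (by omega)).trans hLBK)
    exact_mod_cast this
  set Δ : ℝ := 1 / (2 * (D : ℝ)) + (K : ℝ) / (2 * (A : ℝ)) with hΔdef
  have hΔ0 : 0 < Δ := by positivity
  have hΔle : Δ ≤ 1 / L ^ B := by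
    have h1 : 1 / (2 * (D:ℝ)) ≤ 1 / (2 * L ^ B) := by
      apply one_div_le_one_div_of_le (by positivity)
      linarith
    have h2 : (K : ℝ) / (2 * (A : ℝ)) ≤ 1 / (2 * L ^ B) := by
      rw [div_le_div_iff₀ (by positivity) (by positivity)]
      nlinarith
    calc Δ ≤ 1 / (2 * L ^ B) + 1 / (2 * L ^ B) := by rw [hΔdef]; linarith
      _ = 1 / L ^ B := by field_simp; norm_num
  have hΔQ2 : Δ * Q * Q ≤ 1 := by
    calc Δ * Q * Q ≤ 1 / L ^ B * L ^ E1 * L ^ E1 := by gcongr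
      _ = L ^ (E1 + E1) / L ^ B := by rw [pow_add]; ring
      _ ≤ 1 := by
        rw [div_le_one (hLp0 B)]
        exact hLmono (by omega)
  have hΔ8 : Δ * Q ≤ 1 / 8 := by
    calc Δ * Q ≤ 1 / L ^ B * L ^ E1 := by gcongr
      _ ≤ 1 / L ^ (E1 + 1) * L ^ E1 := by
        apply mul_le_mul_of_nonneg_right _ (hLp0 _).le
        exact one_div_le_one_div_of_le (hLp0 _) (hLmono (by omega))
      _ = 1 / L := by rw [pow_succ]; field_simp
      _ ≤ 1 / 8 := by apply one_div_le_one_div_of_le (by norm_num); linarith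
  set δ : ℝ := Δ * Q / K with hδ
  have hδ0 : 0 ≤ δ := by positivity
  have hδQK : δ * Q * K ≤ 1 := by
    calc δ * Q * K = Δ * Q * Q := by rw [hδ]; field_simp
      _ ≤ 1 := hΔQ2
  -- the main condition on the major arcs
  have hmain : ((K : ℝ) ^ 2 * (ρ * δ) + 1) * (δ * D + 1) *
      L ^ (3 * E1 + E0 + ((6 * E1 + U + 1) + 1) + 5) ≤ K :=
    main_cond E0 E1 U hL hρ0 hK0 hD0 hA0 hQr hQle hK1r c1 c4 c5 c6 c7
  -- decomposition
  set N := 16 * x + 1 with hN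
  have hNr : (0:ℝ) < N := by positivity
  set S := Classical.choose (major_decomp f x Q N (by omega) δ) with hS
  obtain ⟨hS1, -, -⟩ := Classical.choose_spec (major_decomp f x Q N (by omega) δ)
  rw [← hS] at hS1
  have hdec : ∀ a ∈ Ioc a0 (a0 + A), ∀ d ∈ Ioc D (2 * D), ∀ k ∈ Ioc K1 K,
      fz f ((FF R 1 1 a d).eval (k : ℤ)) =
      (∑ h ∈ (range N).filter (fun h : ℕ => ¬ Maj Q δ ((h : ℝ) / (N : ℝ))), chf f x N h *
        e (-((((FF R 1 1 a d).eval (k : ℤ) : ℤ) : ℝ) * h / (N : ℝ)))) +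
      ∑ p ∈ Pairs Q, ∑ h ∈ S p, chf f x N h *
        e (-((((FF R 1 1 a d).eval (k : ℤ) : ℤ) : ℝ) * h / (N : ℝ))) := by
    intro a ha d hd k hk
    have hRk := abs_le.mp (hRx k hk)
    rw [mem_Ioc] at ha hd hk
    have hdk : (d:ℤ) * (k:ℤ) ^ 1 ≤ 2 * x := by
      have h2 : d * k ^ 1 ≤ 2 * x := by
        rw [pow_one]
        calc d * k ≤ (2 * D) * K := Nat.mul_le_mul hd.2 hk.2
          _ = 2 * (D * K) := by ring
          _ ≤ 2 * x := Nat.mul_le_mul_left 2 hDK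
      exact_mod_cast h2
    have hdk0 : (0:ℤ) ≤ (d:ℤ) * (k:ℤ) ^ 1 := by positivity
    have hax : (a:ℤ) ≤ x := by exact_mod_cast (by omega : a ≤ x)
    have heval := FF_eval R 1 1 a d k
    have hb : ((x:ℤ) - N < (FF R 1 1 a d).eval (k : ℤ)) ∧ (FF R 1 1 a d).eval (k : ℤ) ≤ N := by
      rw [heval]
      have : (a : ℤ) + R.eval (k : ℤ) + 1 * d * (k : ℤ) ^ 1 =
            a + R.eval (k : ℤ) + d * (k : ℤ) ^ 1 := by ring
      rw [this]; omega
    rw [← ch_inv f x N hf (by omega) _ hb.1 hb.2]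
    rw [← hS1, ← sum_filter_add_sum_filter_not (range N) (fun h : ℕ => Maj Q δ ((h : ℝ) / (N : ℝ)))]
    rw [add_comm]
  -- minor arcs
  set Rc : ℝ := K * (100 * K / Q) with hRc
  have hRc0 : 0 ≤ Rc := by positivity
  set c : ℕ → ℂ := fun h => if Maj Q δ ((h : ℝ) / (N : ℝ)) then 0 else chf f x N h with hc
  have hDKr : (D:ℝ) * K ≤ x := by exact_mod_cast hDK
  have hmin := minorP N D A K K1 (Ioc K1 K) (fun k => k) (fun k hk => by
      rw [mem_Ioc] at hk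
      exact ⟨hk.1.le, hk.2⟩) hK1pos hK1 hD4
    (by rw [hN]; nlinarith) (by omega) h2GA a0 1 (Or.inl rfl) c
    (fun k h => e (-(((R.eval (k : ℤ) : ℤ) : ℝ) * h / N))) (fun k h => by rw [norm_e]) Rc (by
      intro h _ hch
      by_cases hm : Maj Q δ ((h : ℝ) / (N : ℝ))
      · simp [hc, hm] at hch
      · refine (pair_nu K K1 Δ ((h : ℝ) / N)).trans ?_
        rw [hRc]
        apply mul_le_mul_of_nonneg_left _ hK0.le
        apply dioph K Q hQ1 hQK Δ hΔ0 hΔ8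
        intro q hq b
        by_contra hlt
        push Not at hlt
        exact hm ⟨q, hq, b, hlt⟩)
  have h2 : ∀ (a d k : ℕ), ∑ h ∈ range N, c h * e (-(((R.eval (k : ℤ) : ℤ) : ℝ) * h / N)) *
      e (-(((a : ℝ) + (1 : ℤ) * d * (k : ℝ)) * h / N)) =
      ∑ h ∈ (range N).filter (fun h : ℕ => ¬ Maj Q δ ((h : ℝ) / (N : ℝ))),
        chf f x N h * e (-((((FF R 1 1 a d).eval (k : ℤ) : ℤ) : ℝ) * h / N)) := by
    intro a d k
    rw [sum_filter]
    refine sum_congr rfl fun h _ => ?_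
    rw [hc]
    by_cases hm : Maj Q δ ((h : ℝ) / (N : ℝ))
    · simp [hm]
    · simp only [hm, if_false, not_false_eq_true, if_true]
      rw [mul_assoc, ← e_add, FF_eval]
      congr 2
      push_cast
      ring
  simp only [h2] at hmin
  have h3 : ∑ h ∈ range N, ‖c h‖ ^ 2 ≤ ∑ h ∈ range N, ‖chf f x N h‖ ^ 2 := by
    refine sum_le_sum fun h _ => ?_
    rw [hc]
    by_cases hm : Maj Q δ ((h : ℝ) / (N : ℝ))
    · simp only [hm, if_true]; simp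
    · simp only [hm, if_false]; exact le_rfl
  have h4 := ch_parseval f x N (by omega)
  have hbound1 : 100 * (A:ℝ) * N * (Rc / K1) * ∑ h ∈ range N, ‖c h‖ ^ 2 ≤ A * x * K / (4 * L ^ U) := by
    have hQ0 : (0:ℝ) < Q := by linarith
    have hRG : Rc / K1 ≤ 200 * K / L ^ (U + 3) := by
      have e1 : Rc / K1 = 100 * K * (K / K1) / Q := by rw [hRc]; field_simp
      have e2 : (K:ℝ) / K1 ≤ L ^ E2 := by
        rw [div_le_iff₀ hK1p]; linarith
      rw [e1, div_le_div_iff₀ hQ0 (hLp0 _)]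
      calc 100 * (K:ℝ) * (K / K1) * L ^ (U + 3) ≤ 100 * K * L ^ E2 * L ^ (U + 3) := by gcongr
        _ = 100 * K * L ^ (E2 + U + 3) := by rw [add_assoc, pow_add]; ring
        _ ≤ 100 * K * L ^ E1 := by gcongr
        _ ≤ 200 * K * Q := by nlinarith
    calc 100 * (A:ℝ) * N * (Rc / K1) * ∑ h ∈ range N, ‖c h‖ ^ 2
        ≤ 100 * (A:ℝ) * N * (Rc / K1) * ∑ h ∈ range N, ‖chf f x N h‖ ^ 2 := by gcongr
      _ = 100 * A * (Rc / K1) * (N * ∑ h ∈ range N, ‖chf f x N h‖ ^ 2) := by ring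
      _ ≤ 100 * A * (200 * K / L ^ (U + 3)) * (x * L ^ 2) := by
          rw [h4]; gcongr
      _ = (A * x * K / L ^ U) * (20000 / L) := by
          rw [pow_add]; field_simp; norm_num
      _ ≤ (A * x * K / L ^ U) * (1 / 4) := by
          apply mul_le_mul_of_nonneg_left _ (by positivity)
          rw [div_le_div_iff₀ (by positivity) (by norm_num)]
          nlinarith
      _ = _ := by field_simp
  have hmaj' : ∀ a ∈ Ioc a0 (a0 + A), ∑ d ∈ Ioc D (2 * D), ‖∑ k ∈ Ioc K1 K,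
      ∑ p ∈ Pairs Q, ∑ h ∈ S p, chf f x N h *
        e (-((((FF R 1 1 a d).eval (k : ℤ) : ℤ) : ℝ) * h / (N : ℝ)))‖ ^ 2 ≤
      (Q : ℝ) ^ 6 * (x * K / L ^ (6 * E1 + U + 1)) := by
    intro a _
    exact major_all E0 E1 (6 * E1 + U + 1) hR hL hK1n hKx hx1 (by omega) hDK hKD hxDK Q hQle hδ0
      hδQK hmain f hfour hsq a
  have hbound2 : (A:ℝ) * ((Q : ℝ) ^ 6 * (x * K / L ^ (6 * E1 + U + 1))) ≤
      A * x * K / (4 * L ^ U) := by
    have hQ6 : (Q:ℝ) ^ 6 ≤ L ^ (6 * E1) := by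
      calc (Q:ℝ) ^ 6 ≤ (L ^ E1) ^ 6 := by gcongr
        _ = L ^ (6 * E1) := by rw [← pow_mul]; congr 1; ring
    calc (A:ℝ) * ((Q : ℝ) ^ 6 * (x * K / L ^ (6 * E1 + U + 1)))
        ≤ A * (L ^ (6 * E1) * (x * K / L ^ (6 * E1 + U + 1))) := by gcongr
      _ = A * x * K / (L ^ U * L) := by
          rw [show 6 * E1 + U + 1 = 6 * E1 + (U + 1) by ring, pow_add L (6 * E1), pow_succ]
          field_simp
      _ ≤ A * x * K / (4 * L ^ U) := by
          rw [div_le_div_iff₀ (by positivity) (by positivity)]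
          have : 0 ≤ (A:ℝ) * x * K * L ^ U := by positivity
          nlinarith
  calc ∑ a ∈ Ioc a0 (a0 + A), ∑ d ∈ Ioc D (2 * D), ‖∑ k ∈ Ioc K1 K,
        fz f ((FF R 1 1 a d).eval (k : ℤ))‖ ^ 2
      ≤ ∑ a ∈ Ioc a0 (a0 + A), ∑ d ∈ Ioc D (2 * D), (2 * ‖∑ k ∈ Ioc K1 K,
        ∑ h ∈ (range N).filter (fun h : ℕ => ¬ Maj Q δ ((h : ℝ) / (N : ℝ))), chf f x N h *
        e (-((((FF R 1 1 a d).eval (k : ℤ) : ℤ) : ℝ) * h / (N : ℝ)))‖ ^ 2 + 2 * ‖∑ k ∈ Ioc K1 K,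
        ∑ p ∈ Pairs Q, ∑ h ∈ S p, chf f x N h *
        e (-((((FF R 1 1 a d).eval (k : ℤ) : ℤ) : ℝ) * h / (N : ℝ)))‖ ^ 2) := by
        refine sum_le_sum fun a ha => sum_le_sum fun d hd => ?_
        rw [sum_congr rfl (hdec a ha d hd), sum_add_distrib]
        exact norm_add_sq_le _ _
    _ = 2 * ∑ a ∈ Ioc a0 (a0 + A), ∑ d ∈ Ioc D (2 * D), ‖∑ k ∈ Ioc K1 K,
        ∑ h ∈ (range N).filter (fun h : ℕ => ¬ Maj Q δ ((h : ℝ) / (N : ℝ))), chf f x N h *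
        e (-((((FF R 1 1 a d).eval (k : ℤ) : ℤ) : ℝ) * h / (N : ℝ)))‖ ^ 2 +
        2 * ∑ a ∈ Ioc a0 (a0 + A), ∑ d ∈ Ioc D (2 * D), ‖∑ k ∈ Ioc K1 K,
        ∑ p ∈ Pairs Q, ∑ h ∈ S p, chf f x N h *
        e (-((((FF R 1 1 a d).eval (k : ℤ) : ℤ) : ℝ) * h / (N : ℝ)))‖ ^ 2 := by
        simp only [sum_add_distrib, mul_sum]
    _ ≤ 2 * (A * x * K / (4 * L ^ U)) + 2 * (A * x * K / (4 * L ^ U)) := by
        gcongr
        · exact hmin.trans hbound1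
        · refine (sum_le_sum hmaj').trans ?_
          rw [sum_const, Nat.card_Ioc, nsmul_eq_mul]
          simpa using hbound2
    _ = A * x * K / L ^ U := by field_simp; ring

end Pool.Agent.helper24_TG
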