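import Pool.Agent.helper24_TG.AnC
import Pool.Agent.H300R2.BH.BHcor
import Pool.Agent.H300R2.BH.Pub

set_option autoImplicit false

/-!
The asymptotic formula with relative error for almost all pairs `(b, c)`.
-/

namespace Pool.Agent.helper24_TG

open Finset Polynomial Filter Topology
open Pool.Agent.H300R2.BH (FF FF_eval SS rho pv lF SS_lower rho_ne_iff)
open Pool.Agent.H373R2.T7 (Vz Vz_pos Vz_inv_small)
open Pool.Agent.H442R2.EHI (evt_log_pow evt_log_ge)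

lemma FF_natDegree (g : ℤ[X]) (r b c : ℕ) (hr : 1 ≤ r) (hg : g.natDegree ≤ r) :
    (FF g 1 1 c b).natDegree ≤ r := by
  unfold Pool.Agent.H300R2.BH.FF
  refine (natDegree_add_le _ _).trans (max_le ?_ ?_)
  · refine (natDegree_add_le _ _).trans (max_le ?_ hg)
    rw [natDegree_C]
    omega
  · rw [pow_one]
    exact ((natDegree_C_mul_le _ _).trans natDegree_X_le).trans hr

theorem final (r : ℕ) (hr : 1 ≤ r) (A : ℕ) : ∃ E₀ : ℕ, ∀ E : ℕ, E₀ ≤ E → ∃ B H₀ : ℕ,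
    ∀ H : ℕ, H₀ ≤ H → ∀ g : ℤ[X], g.natDegree ≤ r → g.coeff 0 = 0 →
    ∃ Bad : Finset (ℕ × ℕ), (Bad.card : ℝ) ≤ (H : ℝ) ^ 2 / Real.log H ^ A ∧
      ∀ b ∈ Icc 1 H, ∀ c ∈ Icc 1 H, (b, c) ∉ Bad →
        (∀ p : ℕ, p.Prime → ∃ n : ℤ, ¬ (p : ℤ) ∣ (FF g 1 1 c b).eval n) →
        ∀ y : ℕ, Real.log H ^ B ≤ y → y * Real.log H ^ B ≤ H → slope g y * Real.log H ^ B ≤ H →
          (∀ k ∈ Icc 1 y, 3 ≤ (FF g 1 1 c b).eval (k : ℤ)) ∧
          |pv (FF g 1 1 c b) y - SS ⌊Real.log H ^ E⌋₊ (FF g 1 1 c b) *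
            ∑ k ∈ Icc 1 y, 1 / Real.log (((FF g 1 1 c b).eval (k : ℤ) : ℤ) : ℝ)| ≤
          SS ⌊Real.log H ^ E⌋₊ (FF g 1 1 c b) *
            (∑ k ∈ Icc 1 y, 1 / Real.log (((FF g 1 1 c b).eval (k : ℤ) : ℤ) : ℝ)) / Real.log H ^ A := by
  obtain ⟨c0, hc0, hlow⟩ := SS_lower r hr
  obtain ⟨A', hA'⟩ : ∃ A', A' = A + 2 * r + 4 := ⟨_, rfl⟩
  obtain ⟨E1, hE1⟩ := analytic r hr A'
  refine ⟨E1 + 2, fun E hE => ?_⟩
  obtain ⟨B0, H₁, hB⟩ := hE1 (E - 1) (by omega)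
  have hev : ∀ᶠ H : ℕ in atTop, H₁ ≤ H ∧ 3 ≤ H ∧ 100 ≤ Real.log H ∧ 1 / c0 ≤ Real.log H ∧
      Real.log H ^ E ≤ (H : ℝ) ^ (1 : ℝ) := by
    filter_upwards [eventually_ge_atTop H₁, eventually_ge_atTop 3,
      evt_log_ge 100, evt_log_ge (1 / c0), evt_log_pow E 1 (by norm_num)] with H g1 g2 g3 g4 g5
    exact ⟨g1, g2, g3, g4, g5⟩
  obtain ⟨H₀, hH₀⟩ := eventually_atTop.mp hev
  refine ⟨B0 + A + 2 * r + 4, H₀, fun H hH g hgr hg0 => ?_⟩
  obtain ⟨hH1, hH3, hL, hLc, hLE⟩ := hH₀ H hH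
  rw [Real.rpow_one] at hLE
  set L := Real.log H with hLdef
  have hL0 : 0 < L := by linarith
  have hL1 : 1 ≤ L := by linarith
  have hLp0 : ∀ n : ℕ, 0 < L ^ n := fun n => by positivity
  have hLp : ∀ n : ℕ, 1 ≤ L ^ n := fun n => one_le_pow₀ hL1
  have hLmono : ∀ m n : ℕ, m ≤ n → L ^ m ≤ L ^ n := fun m n h => pow_le_pow_right₀ hL1 h
  have hHr : (3:ℝ) ≤ H := by exact_mod_cast hH3
  have hH0 : (0:ℝ) < H := by linarith
  set z := ⌊L ^ E⌋₊ with hz
  have hzle : (z:ℝ) ≤ L ^ E := Nat.floor_le (by positivity)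
  have hzge : L ^ (E - 1) ≤ z := by
    have h1 : L ^ E < z + 1 := Nat.lt_floor_add_one _
    have h2 : L ^ E = L ^ (E - 1) * L := by
      rw [← pow_succ]; congr 1; omega
    have h3 := hLp (E - 1)
    nlinarith
  have hz3 : 3 ≤ z := by
    have h1 : (3:ℝ) ≤ z := by
      refine le_trans ?_ hzge
      calc (3:ℝ) ≤ L := by linarith
        _ = L ^ 1 := (pow_one L).symm
        _ ≤ _ := hLmono _ _ (by omega)
    exact_mod_cast h1
  have hlz : Real.log z ≤ L := by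
    apply Real.log_le_log (by exact_mod_cast (by omega : 0 < z))
    exact hzle.trans hLE
  have hlz1 : 0 < Real.log z := Real.log_pos (by exact_mod_cast (by omega : 1 < z))
  obtain ⟨Ex, hEx1, hEx2⟩ := hB H hH1 z hzge (by
    rw [Nat.sub_add_cancel (by omega : 1 ≤ E)]
    exact hzle) g hgr hg0
  refine ⟨Ex, hEx1.trans ?_, ?_⟩
  · apply div_le_div_of_nonneg_left (by positivity) (hLp0 _) (hLmono _ _ (by omega))
  intro b hb c hc hbc hfix y hyL hyB hys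
  obtain ⟨f1, f2⟩ := hEx2 b hb c hc hbc y (by
      refine le_trans ?_ hys
      apply mul_le_mul_of_nonneg_left (hLmono _ _ (by omega)) (slope_nonneg g y)) (by
      refine le_trans ?_ hyB
      apply mul_le_mul_of_nonneg_left (hLmono _ _ (by omega)) (Nat.cast_nonneg _))
  set F := FF g 1 1 c b with hF
  have hval : ∀ k ∈ Icc 1 y, 3 ≤ F.eval (k : ℤ) := fun k hk => (f1 k hk).1
  refine ⟨hval, ?_⟩
  rw [lF_eq hval] at f2
  set S1 := ∑ k ∈ Icc 1 y, 1 / Real.log ((F.eval (k : ℤ) : ℤ) : ℝ) with hS1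
  have hy0 : (0:ℝ) < y := lt_of_lt_of_le (hLp0 _) hyL
  -- the lower bound for the product
  have hS : 1 / L ^ (2 * r + 1) ≤ SS z F := by
    have h1 := hlow z hz3 F (FF_natDegree g r b c hr hgr) (fun p hp _ => (rho_ne_iff F p hp).mpr (hfix p hp))
    refine le_trans ?_ h1
    have h2 : c0 / L ^ (2 * r) ≤ c0 / Real.log z ^ (2 * r) := by
      apply div_le_div_of_nonneg_left hc0.le (by positivity)
      gcongr
    refine le_trans ?_ h2
    rw [div_le_div_iff₀ (hLp0 _) (hLp0 _), pow_succ]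
    have h3 : 1 ≤ c0 * L := by
      rw [div_le_iff₀ hc0] at hLc
      linarith
    have h4 := hLp0 (2 * r)
    nlinarith
  have hS0 : 0 < SS z F := lt_of_lt_of_le (by positivity) hS
  -- the lower bound for the sum
  have hS1low : (y:ℝ) / (4 * L) ≤ S1 := by
    calc (y : ℝ) / (4 * L) = ∑ k ∈ Icc 1 y, 1 / (4 * L) := by
          rw [sum_const, Nat.card_Icc, nsmul_eq_mul, Nat.add_sub_cancel]; ring
      _ ≤ _ := by
          apply sum_le_sum
          intro k hk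
          obtain ⟨g1, g2⟩ := f1 k hk
          have g1' : (3:ℝ) ≤ ((F.eval (k : ℤ) : ℤ) : ℝ) := by exact_mod_cast g1
          have g2' : ((F.eval (k : ℤ) : ℤ) : ℝ) ≤ 3 * (H:ℝ) ^ 2 := by exact_mod_cast g2
          have h1 : 0 < Real.log ((F.eval (k : ℤ) : ℤ) : ℝ) := Real.log_pos (by linarith)
          apply one_div_le_one_div_of_le h1
          have h2 : ((F.eval (k : ℤ) : ℤ) : ℝ) ≤ (H : ℝ) ^ 4 := by
            refine g2'.trans ?_
            have : (3:ℝ) ≤ (H:ℝ) ^ 2 := by nlinarith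
            calc 3 * (H:ℝ) ^ 2 ≤ (H:ℝ) ^ 2 * (H:ℝ) ^ 2 := by gcongr
              _ = _ := by ring
          have h3 := Real.log_le_log (by linarith) h2
          rw [Real.log_pow] at h3
          exact_mod_cast h3
  have hS10 : 0 < S1 := lt_of_lt_of_le (by positivity) hS1low
  refine f2.trans ?_
  -- the target
  have hT : (y:ℝ) / (4 * L ^ (A + 2 * r + 2)) ≤ SS z F * S1 / L ^ A := by
    rw [le_div_iff₀ (hLp0 A)]
    calc (y:ℝ) / (4 * L ^ (A + 2 * r + 2)) * L ^ A = (1 / L ^ (2 * r + 1)) * (y / (4 * L)) := by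
          rw [show A + 2 * r + 2 = A + (2 * r + 1) + 1 by ring, pow_succ L (A + (2 * r + 1)), pow_add L A]
          field_simp
      _ ≤ SS z F * S1 := mul_le_mul hS hS1low (by positivity) hS0.le
  refine le_trans ?_ hT
  have h1 : (y:ℝ) / L ^ A' ≤ y / (8 * L ^ (A + 2 * r + 2)) := by
    apply div_le_div_of_nonneg_left hy0.le (by positivity)
    rw [hA', show A + 2 * r + 4 = (A + 2 * r + 2) + 2 by ring, pow_add L (A + 2 * r + 2)]
    have : (8:ℝ) ≤ L ^ 2 := by nlinarith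
    nlinarith [hLp0 (A + 2 * r + 2)]
  have h2 : L ^ B0 ≤ y / (8 * L ^ (A + 2 * r + 2)) := by
    rw [le_div_iff₀ (by positivity)]
    calc L ^ B0 * (8 * L ^ (A + 2 * r + 2)) ≤ L ^ B0 * (L ^ 2 * L ^ (A + 2 * r + 2)) := by
          gcongr
          nlinarith
      _ = L ^ (B0 + A + 2 * r + 4) := by ring
      _ ≤ y := hyL
  have e : (y:ℝ) / (4 * L ^ (A + 2 * r + 2)) =
      y / (8 * L ^ (A + 2 * r + 2)) + y / (8 * L ^ (A + 2 * r + 2)) := by
    field_simp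
    norm_num
  rw [e]
  exact add_le_add h1 h2

end Pool.Agent.helper24_TG
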