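import Pool.Agent.helper24_TP.MinSum

set_option autoImplicit false

/-!
Exponential sums with the phases `γ (d k + R(k))` over a residue class, for a function `R` with small
slope and small second differences: a bound of the kind of Kusmin and Landau for small `γ`, and a bound
by blocks on which the phase is nearly linear for all `γ`.
-/

namespace Pool.Agent.helper24_TG

open Finset
open Pool.Agent.H469R2.NK (e norm_e e_add conj_e e_zero norm_sum_neg)
open Pool.Agent.H442R2.EHI (nint e_int e_add_int e_pow)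
open Pool.Agent.helper24_TP (mn mn_nonneg nint_nonneg nint_le_half nint_neg norm_one_sub_e geom_le norm_e_sub
  abel_le)

/-- slope and second differences of `R` on `(K1, K]` -/
structure Conv (R : ℕ → ℝ) (K1 K : ℕ) (D ρ : ℝ) : Prop where
  r0 : 0 ≤ ρ
  r1 : ρ * K ≤ D / 8
  d1 : ∀ k h : ℕ, K1 < k → k + h ≤ K → 0 ≤ R (k + h) - R k ∧ R (k + h) - R k ≤ h * (D / 8)
  d2 : ∀ k h : ℕ, K1 < k → k + 2 * h ≤ K → |R (k + 2 * h) - 2 * R (k + h) + R k| ≤ ρ * (h : ℝ) ^ 2

/-- a bound of the kind of Kusmin and Landau, in terms of the variation of the differences -/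
lemma kl_var (x : ℕ → ℝ) (m : ℕ) {θ : ℝ} (hθ : 0 < θ) (h1 : ∀ n < m, θ ≤ x (n + 1) - x n)
    (h2 : ∀ n < m, x (n + 1) - x n ≤ 1 - θ) (V : ℝ)
    (h3 : ∑ n ∈ range (m - 1), |(x (n + 2) - x (n + 1)) - (x (n + 1) - x n)| ≤ V) :
    ‖∑ n ∈ range m, e (x n)‖ ≤ 1 / (2 * θ) + 1 / (4 * θ) + 7 * V / (16 * θ ^ 2) := by
  classical
  have hV0 : 0 ≤ V := (sum_nonneg fun _ _ => abs_nonneg _).trans h3
  rcases Nat.eq_zero_or_pos m with h0 | h0
  · subst h0
    simp only [range_zero, sum_empty, norm_zero]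
    positivity
  set w : ℕ → ℂ := fun n => (1 - e (x (n + 1) - x n))⁻¹ with hw
  have hnint : ∀ n < m, θ ≤ nint (x (n + 1) - x n) := by
    intro n hn
    have a1 := h1 n hn
    have a2 := h2 n hn
    set y := x (n + 1) - x n with hy
    unfold Pool.Agent.H442R2.EHI.nint
    rcases le_or_gt y (1 / 2) with hy2 | hy2
    · have : round y = 0 ∨ y = 1 / 2 := by
        rcases hy2.lt_or_eq with h | h
        · left
          rw [round_eq_zero_iff]
          constructor <;> [linarith; exact h]
        · right; exact h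
      rcases this with h | h
      · rw [h]
        simp only [Int.cast_zero, sub_zero]
        exact a1.trans (le_abs_self _)
      · have h5 : |y - round y| = 1 / 2 := by
          rw [h]
          have : round (1 / 2 : ℝ) = 1 := by
            rw [round_eq]
            norm_num
          rw [this]
          norm_num
        rw [h5]
        linarith
    · have : round y = 1 := by
        rw [round_eq]
        rw [Int.floor_eq_iff]
        constructor <;> push_cast <;> linarith
      rw [this]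
      rw [abs_sub_comm, Int.cast_one, abs_of_nonneg (by linarith)]
      linarith
  have hden : ∀ n < m, 4 * θ ≤ ‖1 - e (x (n + 1) - x n)‖ := by
    intro n hn
    have a1 := hnint n hn
    have a2 := norm_one_sub_e (x (n + 1) - x n)
    linarith
  have hne : ∀ n < m, (1 - e (x (n + 1) - x n)) ≠ 0 := by
    intro n hn h
    have := hden n hn
    rw [h, norm_zero] at this
    linarith
  have hwn : ∀ n < m, ‖w n‖ ≤ 1 / (4 * θ) := by
    intro n hn
    rw [hw]
    simp only
    rw [norm_inv, ← one_div]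
    exact one_div_le_one_div_of_le (by positivity) (hden n hn)
  have hterm : ∀ n ∈ range m, e (x n) = (e (x n) - e (x (n + 1))) * w n := by
    intro n hn
    rw [mem_range] at hn
    have e1 : e (x (n + 1)) = e (x n) * e (x (n + 1) - x n) := by
      rw [← e_add]; congr 1; ring
    rw [e1, hw]
    simp only
    have := hne n hn
    field_simp
  have hwd : ∀ n ∈ range (m - 1), ‖w (n + 1) - w n‖ ≤
      7 * |(x (n + 2) - x (n + 1)) - (x (n + 1) - x n)| / (16 * θ ^ 2) := by
    intro n hn
    rw [mem_range] at hn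
    have b1 := hne n (by omega)
    have b2 := hne (n + 1) (by omega)
    have c1 := hden n (by omega)
    have c2 := hden (n + 1) (by omega)
    have e1 : w (n + 1) - w n = (e (x (n + 1 + 1) - x (n + 1)) - e (x (n + 1) - x n)) /
        ((1 - e (x (n + 1 + 1) - x (n + 1))) * (1 - e (x (n + 1) - x n))) := by
      rw [hw]
      simp only
      field_simp
      ring
    rw [e1, norm_div, norm_mul]
    have d1 := norm_e_sub (x (n + 1 + 1) - x (n + 1)) (x (n + 1) - x n)
    apply div_le_div₀ (by positivity) d1 (by positivity)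
    calc 16 * θ ^ 2 = (4 * θ) * (4 * θ) := by ring
      _ ≤ _ := mul_le_mul c2 c1 (by positivity) (norm_nonneg _)
  obtain ⟨m', rfl⟩ : ∃ m', m = m' + 1 := ⟨m - 1, by omega⟩
  rw [Nat.add_sub_cancel] at hwd h3
  -- summation by parts
  have hparts : ∀ k : ℕ, k ≤ m' → ∑ n ∈ range (k + 1), (e (x n) - e (x (n + 1))) * w n =
      e (x 0) * w 0 - e (x (k + 1)) * w k + ∑ n ∈ range k, e (x (n + 1)) * (w (n + 1) - w n) := by
    intro k
    induction k with
    | zero => intro _; simp; ring
    | succ k ih =>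
      intro hk
      rw [sum_range_succ, ih (by omega), sum_range_succ _ k]
      ring
  rw [sum_congr rfl hterm, hparts m' le_rfl]
  have hlast : ‖∑ n ∈ range m', e (x (n + 1)) * (w (n + 1) - w n)‖ ≤ 7 * V / (16 * θ ^ 2) := by
    calc ‖∑ n ∈ range m', e (x (n + 1)) * (w (n + 1) - w n)‖
        ≤ ∑ n ∈ range m', ‖w (n + 1) - w n‖ := by
          refine (norm_sum_le _ _).trans (le_of_eq ?_)
          refine sum_congr rfl fun n _ => ?_
          rw [norm_mul, norm_e, one_mul]
      _ ≤ ∑ n ∈ range m', 7 * |(x (n + 2) - x (n + 1)) - (x (n + 1) - x n)| / (16 * θ ^ 2) :=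
          sum_le_sum hwd
      _ = 7 * (∑ n ∈ range m', |(x (n + 2) - x (n + 1)) - (x (n + 1) - x n)|) / (16 * θ ^ 2) := by
          rw [mul_sum, sum_div]
      _ ≤ _ := by gcongr
  have g1 : ‖e (x 0) * w 0‖ ≤ 1 / (4 * θ) := by
    rw [norm_mul, norm_e, one_mul]; exact hwn 0 (by omega)
  have g2 : ‖e (x (m' + 1)) * w m'‖ ≤ 1 / (4 * θ) := by
    rw [norm_mul, norm_e, one_mul]; exact hwn m' (by omega)
  have g3 := norm_add_le (e (x 0) * w 0 - e (x (m' + 1)) * w m')
    (∑ n ∈ range m', e (x (n + 1)) * (w (n + 1) - w n))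
  have g4 := norm_sub_le (e (x 0) * w 0) (e (x (m' + 1)) * w m')
  have g5 : 1 / (2 * θ) = 1 / (4 * θ) + 1 / (4 * θ) := by field_simp; norm_num
  have g6 : 0 ≤ 1 / (4 * θ) := by positivity
  linarith

/-- the class as a progression -/
lemma prog (K1 K q r : ℕ) (hq : 1 ≤ q) : ∃ k0 m : ℕ, K1 < k0 ∧ (∀ n < m, k0 + q * n ≤ K) ∧
    (∀ F : ℕ → ℂ, ∑ k ∈ (Ioc K1 K).filter (fun k => k % q = r), F k = ∑ n ∈ range m, F (k0 + q * n)) := by
  classical
  set T := (Ioc K1 K).filter (fun k => k % q = r) with hT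
  rcases T.eq_empty_or_nonempty with h | h
  · refine ⟨K1 + 1, 0, by omega, fun n hn => by omega, fun F => ?_⟩
    rw [h]
    simp
  · set k0 := T.min' h with hk0
    have hk0T : k0 ∈ T := T.min'_mem h
    have h1 := mem_Ioc.1 (mem_filter.1 hk0T).1
    have h2 := (mem_filter.1 hk0T).2
    refine ⟨k0, (K - k0) / q + 1, h1.1, ?_, ?_⟩
    · intro n hn
      have h3 : n ≤ (K - k0) / q := by omega
      have h4 : q * n ≤ K - k0 := by
        calc q * n ≤ q * ((K - k0) / q) := Nat.mul_le_mul_left _ h3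
          _ ≤ K - k0 := Nat.mul_div_le _ _
      omega
    · intro F
      symm
      apply sum_bij (fun n _ => k0 + q * n)
      · intro n hn
        rw [mem_range] at hn
        rw [hT, mem_filter, mem_Ioc]
        have h3 : n ≤ (K - k0) / q := by omega
        have h4 : q * n ≤ K - k0 := by
          calc q * n ≤ q * ((K - k0) / q) := Nat.mul_le_mul_left _ h3
            _ ≤ K - k0 := Nat.mul_div_le _ _
        refine ⟨⟨by omega, by omega⟩, ?_⟩
        rw [Nat.add_mul_mod_self_left]
        exact h2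
      · intro n _ n' _ hnn
        have h3 : q * n = q * n' := by omega
        exact Nat.eq_of_mul_eq_mul_left (by omega) h3
      · intro k hk
        have h3 := mem_Ioc.1 (mem_filter.1 hk).1
        have h4 := (mem_filter.1 hk).2
        have h5 : k0 ≤ k := T.min'_le k hk
        have h6 : q ∣ k - k0 := (Nat.modEq_iff_dvd' h5).1 (by unfold Nat.ModEq; rw [h2, h4])
        obtain ⟨t, ht⟩ := h6
        refine ⟨t, ?_, by omega⟩
        rw [mem_range]
        have h7 : t ≤ (K - k0) / q := by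
          rw [Nat.le_div_iff_mul_le (by omega)]
          rw [mul_comm]
          omega
        omega
      · intro n _
        rfl

/-- small frequencies -/
lemma kl_bound {R : ℕ → ℝ} {K1 K : ℕ} {D ρ : ℝ} (hR : Conv R K1 K D ρ) (hD : 0 < D) (q : ℕ) (hq : 1 ≤ q)
    (k0 m : ℕ) (hk0 : K1 < k0) (hm : ∀ n < m, k0 + q * n ≤ K) (d : ℝ) (hd1 : D ≤ d) (hd2 : d ≤ 2 * D)
    (γ : ℝ) (hγ : γ ≠ 0) (hγ1 : 16 * |γ| * q * D ≤ 1) :
    ‖∑ n ∈ range m, e (-(γ * (d * ((k0 + q * n : ℕ) : ℝ) + R (k0 + q * n))))‖ ≤ 3 / (|γ| * q * D) := by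
  have hq0 : (1 : ℝ) ≤ q := by exact_mod_cast hq
  have hγ0 : 0 < |γ| := abs_pos.2 hγ
  set θ : ℝ := |γ| * q * D with hθ
  have hθ0 : 0 < θ := by positivity
  have hθ1 : θ ≤ 1 / 16 := by
    have : 16 * θ ≤ 1 := by
      calc 16 * θ = 16 * |γ| * q * D := by rw [hθ]; ring
        _ ≤ 1 := hγ1
    linarith
  set x : ℕ → ℝ := fun n => |γ| * (d * ((k0 + q * n : ℕ) : ℝ) + R (k0 + q * n)) with hx
  have hnorm : ‖∑ n ∈ range m, e (-(γ * (d * ((k0 + q * n : ℕ) : ℝ) + R (k0 + q * n))))‖ =
      ‖∑ n ∈ range m, e (x n)‖ := by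
    rcases lt_or_gt_of_ne hγ with h | h
    · congr 1
      refine sum_congr rfl fun n _ => ?_
      rw [hx]
      simp only
      rw [abs_of_neg h]
      congr 1
      ring
    · rw [← norm_sum_neg]
      congr 1
      refine sum_congr rfl fun n _ => ?_
      rw [hx]
      simp only
      rw [abs_of_pos h, neg_neg]
  rw [hnorm]
  rcases Nat.eq_zero_or_pos m with h0 | h0
  · subst h0
    simp only [range_zero, sum_empty, norm_zero]
    positivity
  obtain ⟨m', rfl⟩ : ∃ m', m = m' + 1 := ⟨m - 1, by omega⟩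
  have hdiff : ∀ n : ℕ, x (n + 1) - x n = |γ| * (d * q + (R (k0 + q * n + q) - R (k0 + q * n))) := by
    intro n
    rw [hx]
    simp only
    have e1 : k0 + q * (n + 1) = k0 + q * n + q := by ring
    rw [e1]
    push_cast
    ring
  have hb : ∀ n < m', θ ≤ x (n + 1) - x n ∧ x (n + 1) - x n ≤ 1 - θ := by
    intro n hn
    have h1 := hm (n + 1) (by omega)
    have e1 : k0 + q * (n + 1) = k0 + q * n + q := by ring
    rw [e1] at h1
    obtain ⟨h2, h3⟩ := hR.d1 (k0 + q * n) q (by omega) h1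
    rw [hdiff]
    constructor
    · rw [hθ]
      calc |γ| * q * D = |γ| * (D * q) := by ring
        _ ≤ |γ| * (d * q + (R (k0 + q * n + q) - R (k0 + q * n))) := by
          apply mul_le_mul_of_nonneg_left _ hγ0.le
          nlinarith
    · have h4 : |γ| * (d * q + (R (k0 + q * n + q) - R (k0 + q * n))) ≤ |γ| * (2 * D * q + q * (D / 8)) := by
        apply mul_le_mul_of_nonneg_left _ hγ0.le
        nlinarith
      have h5 : |γ| * (2 * D * q + q * (D / 8)) = 17 / 8 * θ := by rw [hθ]; ring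
      linarith
  have hvar : ∑ n ∈ range (m' - 1), |(x (n + 2) - x (n + 1)) - (x (n + 1) - x n)| ≤ θ / 8 := by
    have hqm : (q : ℝ) * ((m' - 1 : ℕ) : ℝ) ≤ K := by
      rcases Nat.eq_zero_or_pos m' with h0 | h0
      · subst h0
        simp
      · have h1 := hm m' (by omega)
        have h2 : q * (m' - 1) ≤ K := by
          have : q * (m' - 1) ≤ q * m' := Nat.mul_le_mul_left _ (by omega)
          omega
        exact_mod_cast h2
    have hone : ∀ n ∈ range (m' - 1), |(x (n + 2) - x (n + 1)) - (x (n + 1) - x n)| ≤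
        |γ| * (ρ * (q : ℝ) ^ 2) := by
      intro n hn
      rw [mem_range] at hn
      rw [show x (n + 2) - x (n + 1) = x ((n + 1) + 1) - x (n + 1) from rfl, hdiff, hdiff]
      have h2 := hm (n + 2) (by omega)
      have e1 : k0 + q * (n + 2) = k0 + q * n + 2 * q := by ring
      rw [e1] at h2
      have h3 := hR.d2 (k0 + q * n) q (by omega) h2
      have e2 : k0 + q * (n + 1) = k0 + q * n + q := by ring
      have e3 : k0 + q * n + q + q = k0 + q * n + 2 * q := by ring
      rw [e2, e3, ← mul_sub, abs_mul, abs_abs]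
      apply mul_le_mul_of_nonneg_left _ hγ0.le
      refine le_trans (le_of_eq ?_) h3
      congr 1
      ring
    refine (sum_le_sum hone).trans ?_
    rw [sum_const, card_range, nsmul_eq_mul]
    calc ((m' - 1 : ℕ) : ℝ) * (|γ| * (ρ * (q : ℝ) ^ 2)) = |γ| * q * (ρ * (q * ((m' - 1 : ℕ) : ℝ))) := by ring
      _ ≤ |γ| * q * (ρ * K) := by
          apply mul_le_mul_of_nonneg_left _ (by positivity)
          exact mul_le_mul_of_nonneg_left hqm hR.r0
      _ ≤ |γ| * q * (D / 8) := by
          apply mul_le_mul_of_nonneg_left hR.r1 (by positivity)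
      _ = θ / 8 := by rw [hθ]; ring
  have h1 := kl_var x m' hθ0 (fun n hn => (hb n hn).1) (fun n hn => (hb n hn).2) (θ / 8) hvar
  rw [sum_range_succ]
  refine (norm_add_le _ _).trans ?_
  rw [norm_e]
  have h2 : 1 ≤ 1 / θ := by
    rw [le_div_iff₀ hθ0]
    linarith
  have h3 : 1 / (2 * θ) + 1 / (4 * θ) + 7 * (θ / 8) / (16 * θ ^ 2) = (103 / 128) * (1 / θ) := by
    field_simp
    norm_num
  have h4 : 3 / θ = 3 * (1 / θ) := by ring
  rw [h3] at h1
  rw [h4]
  linarith

/-- splitting into blocks -/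
lemma blocks (u : ℕ → ℂ) (m M : ℕ) (hM : 1 ≤ M) :
    ‖∑ n ∈ range m, u n‖ ≤ ∑ i ∈ range (m / M + 1), ‖∑ j ∈ range (min M (m - M * i)), u (M * i + j)‖ := by
  classical
  set f : ℕ → ℂ := fun n => if n < m then u n else 0 with hf
  have h1 : ∀ nb : ℕ, ∑ n ∈ range (M * nb), f n = ∑ i ∈ range nb, ∑ j ∈ range M, f (M * i + j) := by
    intro nb
    induction nb with
    | zero => simp
    | succ nb ih => rw [Nat.mul_succ, Finset.sum_range_add, ih, sum_range_succ]
  have h2 : m ≤ M * (m / M + 1) := by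
    have := Nat.div_add_mod m M
    have := Nat.mod_lt m (show 0 < M by omega)
    rw [Nat.mul_add, Nat.mul_one]
    omega
  have h3 : ∑ n ∈ range m, u n = ∑ n ∈ range (M * (m / M + 1)), f n := by
    rw [hf, ← sum_filter]
    have : (range (M * (m / M + 1))).filter (fun n => n < m) = range m := by
      ext n
      simp only [mem_filter, mem_range]
      omega
    rw [this]
  have h4 : ∀ i : ℕ, ∑ j ∈ range M, f (M * i + j) = ∑ j ∈ range (min M (m - M * i)), u (M * i + j) := by
    intro i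
    rw [hf, ← sum_filter]
    have : (range M).filter (fun j => M * i + j < m) = range (min M (m - M * i)) := by
      ext j
      simp only [mem_filter, mem_range]
      omega
    rw [this]
  rw [h3, h1]
  refine (norm_sum_le _ _).trans (le_of_eq ?_)
  exact sum_congr rfl fun i _ => by rw [h4]

/-- the drift of the differences -/
lemma drift {R : ℕ → ℝ} {K1 K : ℕ} {D ρ : ℝ} (hR : Conv R K1 K D ρ) (q k : ℕ) (hk : K1 < k) (j : ℕ)
    (hj : k + q * (j + 1) ≤ K) :
    |R (k + q * (j + 1)) - R (k + q * j) - (R (k + q) - R k)| ≤ j * (ρ * (q : ℝ) ^ 2) := by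
  induction j with
  | zero => simp
  | succ j ih =>
    have h0 : k + q * (j + 1 + 1) = k + q * j + 2 * q := by ring
    have h1 : k + q * (j + 1) = k + q * j + q := by ring
    rw [h0] at hj
    have h2 := abs_le.1 (ih (by rw [h1]; omega))
    have h4 := abs_le.1 (hR.d2 (k + q * j) q (by omega) hj)
    rw [h1] at h2
    rw [h0, h1]
    push_cast
    rw [abs_le]
    constructor
    · linarith [h2.1, h4.1]
    · linarith [h2.2, h4.2]

/-- one block -/
lemma block_bound {R : ℕ → ℝ} {K1 K : ℕ} {D ρ : ℝ} (hR : Conv R K1 K D ρ) (q k : ℕ)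
    (hk : K1 < k) (n M : ℕ) (hM : 1 ≤ M) (hn : n ≤ M) (hnK : ∀ j < n, k + q * j ≤ K) (d γ : ℝ)
    (hγ : |γ| * (ρ * (q : ℝ) ^ 2) * (M : ℝ) ^ 2 ≤ 1) :
    ‖∑ j ∈ range n, e (-(γ * (d * ((k + q * j : ℕ) : ℝ) + R (k + q * j))))‖ ≤
      8 * mn M (γ * (q * d + (if k + q ≤ K then R (k + q) - R k else 0))) := by
  classical
  have hmn1 : ∀ x : ℝ, 1 ≤ mn M x := by
    intro x
    unfold mn
    have h1 := nint_le_half x
    have h2 := nint_nonneg x
    have hM1 : (1 : ℝ) ≤ M := by exact_mod_cast hM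
    split_ifs with h
    · exact hM1
    · push Not at h
      have hpos : 0 < nint x := by
        by_contra hcon
        push Not at hcon
        have : nint x = 0 := le_antisymm hcon h2
        rw [this] at h
        simp at h
        linarith
      rw [le_div_iff₀ (by positivity)]
      linarith
  by_cases hn1 : n ≤ 1
  · have h1 : ‖∑ j ∈ range n, e (-(γ * (d * ((k + q * j : ℕ) : ℝ) + R (k + q * j))))‖ ≤ 1 := by
      refine (norm_sum_le _ _).trans ?_
      simp only [norm_e, sum_const, card_range, nsmul_eq_mul, mul_one]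
      exact_mod_cast hn1
    have h2 := hmn1 (γ * (q * d + (if k + q ≤ K then R (k + q) - R k else 0)))
    linarith
  push Not at hn1
  have hkq : k + q ≤ K := by
    have := hnK 1 hn1
    rwa [mul_one] at this
  rw [if_pos hkq]
  set Δ := R (k + q) - R k with hΔ
  set ξ : ℝ := γ * (q * d + Δ) with hξ
  -- the error
  set E : ℕ → ℝ := fun j => -(γ * (R (k + q * (min j (n - 1))) - R k - ((min j (n - 1) : ℕ) : ℝ) * Δ)) with hE
  have hterm : ∀ j ∈ range n, e (-(γ * (d * ((k + q * j : ℕ) : ℝ) + R (k + q * j)))) =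
      e (-(γ * (d * k + R k))) * (e (-ξ * j) * e (E j)) := by
    intro j hj
    rw [mem_range] at hj
    rw [← e_add, ← e_add]
    congr 1
    rw [hE]
    simp only
    rw [min_eq_left (by omega), hξ]
    push_cast
    ring
  rw [sum_congr rfl hterm, ← mul_sum, norm_mul, norm_e, one_mul]
  have hq0 : (0 : ℝ) ≤ q := Nat.cast_nonneg _
  have hρ0 : 0 ≤ ρ * (q : ℝ) ^ 2 := mul_nonneg hR.r0 (by positivity)
  have hinc : ∀ j ∈ range n, ‖e (E (j + 1)) - e (E j)‖ ≤ 7 * (|γ| * (ρ * (q : ℝ) ^ 2) * M) := by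
    intro j hj
    rw [mem_range] at hj
    refine (norm_e_sub _ _).trans ?_
    apply mul_le_mul_of_nonneg_left _ (by norm_num)
    by_cases hj1 : j + 1 ≤ n - 1
    · rw [hE]
      simp only
      rw [min_eq_left hj1, min_eq_left (by omega : j ≤ n - 1)]
      have e1 : -(γ * (R (k + q * (j + 1)) - R k - ((j + 1 : ℕ) : ℝ) * Δ)) -
          -(γ * (R (k + q * j) - R k - (j : ℝ) * Δ)) =
          -(γ * (R (k + q * (j + 1)) - R (k + q * j) - (R (k + q) - R k))) := by
        rw [hΔ]
        push_cast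
        ring
      rw [e1, abs_neg, abs_mul]
      have h2 := drift hR q k hk j (hnK (j + 1) (by omega))
      have h3 : (j : ℝ) ≤ M := by exact_mod_cast (by omega : j ≤ M)
      calc |γ| * |R (k + q * (j + 1)) - R (k + q * j) - (R (k + q) - R k)|
          ≤ |γ| * (j * (ρ * (q : ℝ) ^ 2)) := mul_le_mul_of_nonneg_left h2 (abs_nonneg _)
        _ ≤ |γ| * (M * (ρ * (q : ℝ) ^ 2)) := by
            apply mul_le_mul_of_nonneg_left _ (abs_nonneg _)
            exact mul_le_mul_of_nonneg_right h3 hρ0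
        _ = _ := by ring
    · rw [hE]
      simp only
      rw [min_eq_right (by omega : n - 1 ≤ j + 1), min_eq_right (by omega : n - 1 ≤ j)]
      rw [sub_self, abs_zero]
      have : (0 : ℝ) ≤ M := Nat.cast_nonneg _
      have := abs_nonneg γ
      positivity
  have hV : ∑ j ∈ range n, ‖e (E (j + 1)) - e (E j)‖ ≤ 7 := by
    refine (sum_le_sum hinc).trans ?_
    rw [sum_const, card_range, nsmul_eq_mul]
    have h3 : (n : ℝ) ≤ M := by exact_mod_cast hn
    have h4 : 0 ≤ |γ| * (ρ * (q : ℝ) ^ 2) * M := by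
      have := abs_nonneg γ
      have : (0 : ℝ) ≤ M := Nat.cast_nonneg _
      positivity
    calc (n : ℝ) * (7 * (|γ| * (ρ * (q : ℝ) ^ 2) * M)) ≤ M * (7 * (|γ| * (ρ * (q : ℝ) ^ 2) * M)) := by
          apply mul_le_mul_of_nonneg_right h3
          positivity
      _ = 7 * (|γ| * (ρ * (q : ℝ) ^ 2) * (M : ℝ) ^ 2) := by ring
      _ ≤ 7 := by linarith
  have hmneg : mn M (-ξ) = mn M ξ := by
    unfold mn
    rw [nint_neg]
  have h := abel_le (fun j => e (-ξ * j)) (fun j => e (E j)) n (mn M ξ) 7 (mn_nonneg _ _) (by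
    intro k' hk'
    rw [← hmneg]
    exact geom_le (-ξ) k' M (by omega)) (fun m => (norm_e _).le) hV
  linarith

end Pool.Agent.helper24_TG
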