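import Pool.Agent.helper24_TG.Rows
import Pool.Agent.helper24_TP.Freq

set_option autoImplicit false

/-!
The major arcs, for one fraction and one residue class: the polynomials `a + d k + R(k)`.
-/

namespace Pool.Agent.helper24_TG

open Pool.Agent.helper24_TP

open Finset
open Pool.Agent.H469R2.NK (e norm_e e_add conj_e e_zero)
open Pool.Agent.H442R2.EHI (nint poly)

lemma sq3 (a b c : ℂ) : ‖a + b + c‖ ^ 2 ≤ 3 * (‖a‖ ^ 2 + ‖b‖ ^ 2 + ‖c‖ ^ 2) := by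
  have h1 : ‖a + b + c‖ ≤ ‖a‖ + ‖b‖ + ‖c‖ :=
    (norm_add_le _ _).trans (add_le_add (norm_add_le _ _) le_rfl)
  have h2 : ‖a + b + c‖ ^ 2 ≤ (‖a‖ + ‖b‖ + ‖c‖) ^ 2 := pow_le_pow_left₀ (norm_nonneg _) h1 2
  nlinarith [sq_nonneg (‖a‖ - ‖b‖), sq_nonneg (‖b‖ - ‖c‖), sq_nonneg (‖a‖ - ‖c‖)]

lemma kS_triv (R : ℕ → ℝ) (k0 q m : ℕ) (d γ : ℝ) : ‖kS R k0 q m d γ‖ ≤ m := by
  unfold kS
  refine (norm_sum_le _ _).trans ?_
  simp only [norm_e, sum_const, card_range, nsmul_eq_mul, mul_one]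
  exact le_rfl

/-- the tiny frequencies -/
lemma part1 {N x D K m : ℕ} {L : ℝ} {E3 : ℕ} (hL : 1 ≤ L) (hx : 1 ≤ x) (hNx : x ≤ N) (hN17 : N ≤ 17 * x)
    (hDK : D * K ≤ x) (hm : m ≤ K) (R : ℕ → ℝ) (k0 q : ℕ) (θ : ℝ) (S : Finset ℤ) (c : ℤ → ℂ)
    (hS : ∀ h ∈ S, |((h : ℝ) + θ) / N| ≤ L ^ E3 / x)
    (hc : ∀ h ∈ S, (N : ℝ) * ‖c h‖ ≤ x / L ^ (2 * E3)) :
    ∑ d ∈ Ioc D (2 * D), ‖∑ h ∈ S, c h * kS R k0 q m d (((h : ℝ) + θ) / N)‖ ^ 2 ≤
      1296 * (x * K / L ^ (2 * E3)) := by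
  have hL0 : 0 < L := by linarith
  have hLp : ∀ n : ℕ, 1 ≤ L ^ n := fun n => one_le_pow₀ hL
  have hLp0 : ∀ n : ℕ, 0 < L ^ n := fun n => by positivity
  have hx0 : (0 : ℝ) < x := by exact_mod_cast hx
  have hN0 : (0 : ℝ) < N := by
    have : (x : ℝ) ≤ N := by exact_mod_cast hNx
    linarith
  have hNr : (N : ℝ) ≤ 17 * x := by exact_mod_cast hN17
  have hxN : (x : ℝ) ≤ N := by exact_mod_cast hNx
  have hcard : (S.card : ℝ) ≤ 35 * L ^ E3 := by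
    have h1 := cnt_small S θ (N * (L ^ E3 / x)) (by positivity) (fun h hh => by
      have h2 := hS h hh
      rw [abs_div, abs_of_pos hN0, div_le_iff₀ hN0] at h2
      linarith)
    have h3 : (N : ℝ) * (L ^ E3 / x) ≤ 17 * L ^ E3 := by
      rw [mul_div_assoc', div_le_iff₀ hx0]
      calc (N : ℝ) * L ^ E3 ≤ 17 * x * L ^ E3 := mul_le_mul_of_nonneg_right hNr (hLp0 _).le
        _ = _ := by ring
    have := hLp E3
    linarith
  have hcn : ∀ h ∈ S, ‖c h‖ ≤ 1 / L ^ (2 * E3) := by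
    intro h hh
    have h1 := hc h hh
    have h2 : (x : ℝ) * ‖c h‖ ≤ x / L ^ (2 * E3) :=
      le_trans (mul_le_mul_of_nonneg_right hxN (norm_nonneg _)) h1
    rw [div_eq_mul_one_div] at h2
    exact le_of_mul_le_mul_left h2 hx0
  have hmK : (m : ℝ) ≤ K := by exact_mod_cast hm
  have hone : ∀ d ∈ Ioc D (2 * D), ‖∑ h ∈ S, c h * kS R k0 q m d (((h : ℝ) + θ) / N)‖ ^ 2 ≤
      1296 * ((K : ℝ) ^ 2 / L ^ (2 * E3)) := by
    intro d _
    have h1 : ‖∑ h ∈ S, c h * kS R k0 q m d (((h : ℝ) + θ) / N)‖ ≤ 35 * (K / L ^ E3) := by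
      calc ‖∑ h ∈ S, c h * kS R k0 q m d (((h : ℝ) + θ) / N)‖
          ≤ ∑ h ∈ S, 1 / L ^ (2 * E3) * K := by
            refine (norm_sum_le _ _).trans (sum_le_sum fun h hh => ?_)
            rw [norm_mul]
            exact mul_le_mul (hcn h hh) ((kS_triv _ _ _ _ _ _).trans hmK) (norm_nonneg _) (by positivity)
        _ = S.card * (1 / L ^ (2 * E3) * K) := by rw [sum_const, nsmul_eq_mul]
        _ ≤ 35 * L ^ E3 * (1 / L ^ (2 * E3) * K) := mul_le_mul_of_nonneg_right hcard (by positivity)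
        _ = 35 * (K / L ^ E3) := by
            rw [show 2 * E3 = E3 + E3 by ring, pow_add]
            field_simp
    calc _ ≤ (35 * (K / L ^ E3)) ^ 2 := pow_le_pow_left₀ (norm_nonneg _) h1 2
      _ = 1225 * ((K : ℝ) ^ 2 / L ^ (2 * E3)) := by
          rw [show 2 * E3 = E3 * 2 by ring, pow_mul, mul_pow, div_pow]
          norm_num
      _ ≤ _ := by
          apply mul_le_mul_of_nonneg_right (by norm_num)
          positivity
  refine (sum_le_sum hone).trans ?_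
  rw [sum_const, Nat.card_Ioc, nsmul_eq_mul, show 2 * D - D = D by omega]
  have hDK' : (D : ℝ) * K ≤ x := by exact_mod_cast hDK
  calc (D : ℝ) * (1296 * ((K : ℝ) ^ 2 / L ^ (2 * E3))) = 1296 * ((D * K) * K / L ^ (2 * E3)) := by ring
    _ ≤ 1296 * (x * K / L ^ (2 * E3)) := by
        gcongr

/-- small frequencies -/
lemma part2 {R : ℕ → ℝ} {K1 K D : ℕ} {ρ : ℝ} (hR : Conv R K1 K D ρ) {N x m : ℕ} {L : ℝ} {E0 E3 : ℕ}
    (hL : 1 ≤ L) (hx : 1 ≤ x) (hNx : x ≤ N) (hD : 1 ≤ D)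
    (hxDK : (x : ℝ) ≤ D * K * L ^ E0) (k0 q : ℕ) (hq : 1 ≤ q) (hk0 : K1 < k0)
    (hm : ∀ n < m, k0 + q * n ≤ K) (θ : ℝ) (S : Finset ℤ) (c : ℤ → ℂ)
    (hV : (N : ℝ) * ∑ h ∈ S, ‖c h‖ ^ 2 ≤ x * L ^ 2)
    (hS : ∀ h ∈ S, L ^ E3 / x < |((h : ℝ) + θ) / N|)
    (hS2 : ∀ h ∈ S, 16 * |((h : ℝ) + θ) / N| * q * D ≤ 1) :
    ∑ d ∈ Ioc D (2 * D), ‖∑ h ∈ S, c h * kS R k0 q m d (((h : ℝ) + θ) / N)‖ ^ 2 ≤
      72 * (x * K * L ^ (E0 + 2) / L ^ E3) := by
  have hL0 : 0 < L := by linarith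
  have hLp : ∀ n : ℕ, 1 ≤ L ^ n := fun n => one_le_pow₀ hL
  have hLp0 : ∀ n : ℕ, 0 < L ^ n := fun n => by positivity
  have hx0 : (0 : ℝ) < x := by exact_mod_cast hx
  have hxN : (x : ℝ) ≤ N := by exact_mod_cast hNx
  have hN0 : (0 : ℝ) < N := by linarith
  have hD0 : (0 : ℝ) < D := by exact_mod_cast hD
  have hq0 : (1 : ℝ) ≤ q := by exact_mod_cast hq
  have hY : 1 ≤ (N : ℝ) * (L ^ E3 / x) := by
    rw [mul_div_assoc', le_div_iff₀ hx0]
    have := mul_le_mul hxN (hLp E3) zero_le_one hN0.le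
    linarith
  have habs : ∀ h : ℤ, |((h : ℝ) + θ) / N| = |(h : ℝ) + θ| / N := fun h => by
    rw [abs_div, abs_of_pos hN0]
  have htail := inv_sq_tail S θ (N * (L ^ E3 / x)) hY (fun h hh => by
    have h1 := hS h hh
    rw [habs, lt_div_iff₀ hN0] at h1
    linarith)
  have hks : ∀ d ∈ Ioc D (2 * D), ∀ h ∈ S, ‖kS R k0 q m d (((h : ℝ) + θ) / N)‖ ^ 2 ≤
      9 * N ^ 2 / D ^ 2 * (1 / ((h : ℝ) + θ) ^ 2) := by
    intro d hd h hh
    rw [mem_Ioc] at hd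
    have g1 := hS h hh
    have g0 : 0 < |((h : ℝ) + θ) / N| := lt_of_le_of_lt (by positivity) g1
    have hne : ((h : ℝ) + θ) / N ≠ 0 := abs_pos.1 g0
    have hne' : (h : ℝ) + θ ≠ 0 := by
      intro h0
      rw [h0, zero_div] at hne
      exact hne rfl
    have h1 := kl_bound hR hD0 q hq k0 m hk0 hm d (by exact_mod_cast hd.1.le) (by exact_mod_cast hd.2)
      (((h : ℝ) + θ) / N) hne (hS2 h hh)
    have h2 : 3 / (|((h : ℝ) + θ) / N| * q * D) ≤ 3 / (|((h : ℝ) + θ) / N| * D) := by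
      apply div_le_div_of_nonneg_left (by norm_num) (by positivity)
      nlinarith [mul_pos g0 hD0]
    calc ‖kS R k0 q m d (((h : ℝ) + θ) / N)‖ ^ 2 ≤ (3 / (|((h : ℝ) + θ) / N| * D)) ^ 2 :=
          pow_le_pow_left₀ (norm_nonneg _) (h1.trans h2) 2
      _ = 9 * N ^ 2 / D ^ 2 * (1 / ((h : ℝ) + θ) ^ 2) := by
          rw [habs, ← sq_abs ((h : ℝ) + θ)]
          have : |(h : ℝ) + θ| ≠ 0 := abs_ne_zero.2 hne'
          field_simp
          norm_num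
  have hc2 : ∑ h ∈ S, ‖c h‖ ^ 2 ≤ x * L ^ 2 / N := by
    rw [le_div_iff₀ hN0]
    linarith
  have hone : ∀ d ∈ Ioc D (2 * D), ‖∑ h ∈ S, c h * kS R k0 q m d (((h : ℝ) + θ) / N)‖ ^ 2 ≤
      72 * (x ^ 2 * L ^ 2 / (D ^ 2 * L ^ E3)) := by
    intro d hd
    have h1 : ‖∑ h ∈ S, c h * kS R k0 q m d (((h : ℝ) + θ) / N)‖ ≤
        ∑ h ∈ S, ‖c h‖ * ‖kS R k0 q m d (((h : ℝ) + θ) / N)‖ := by
      refine (norm_sum_le _ _).trans (le_of_eq (sum_congr rfl fun h _ => norm_mul _ _))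
    have h2 := sum_mul_sq_le_sq_mul_sq S (fun h => ‖c h‖) (fun h => ‖kS R k0 q m d (((h : ℝ) + θ) / N)‖)
    calc _ ≤ (∑ h ∈ S, ‖c h‖ * ‖kS R k0 q m d (((h : ℝ) + θ) / N)‖) ^ 2 :=
          pow_le_pow_left₀ (norm_nonneg _) h1 2
      _ ≤ (∑ h ∈ S, ‖c h‖ ^ 2) * ∑ h ∈ S, ‖kS R k0 q m d (((h : ℝ) + θ) / N)‖ ^ 2 := h2
      _ ≤ (x * L ^ 2 / N) * ∑ h ∈ S, 9 * N ^ 2 / D ^ 2 * (1 / ((h : ℝ) + θ) ^ 2) := by
          apply mul_le_mul hc2 (sum_le_sum fun h hh => hks d hd h hh)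
          · exact sum_nonneg fun h _ => by positivity
          · positivity
      _ ≤ (x * L ^ 2 / N) * (9 * N ^ 2 / D ^ 2 * (8 / (N * (L ^ E3 / x)))) := by
          rw [← mul_sum]
          gcongr
      _ = _ := by
          field_simp
          norm_num
  refine (sum_le_sum hone).trans ?_
  rw [sum_const, Nat.card_Ioc, nsmul_eq_mul, show 2 * D - D = D by omega]
  calc (D : ℝ) * (72 * (x ^ 2 * L ^ 2 / (D ^ 2 * L ^ E3))) = 72 * (x * L ^ 2 / (D * L ^ E3)) * x := by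
        field_simp
    _ ≤ 72 * (x * L ^ 2 / (D * L ^ E3)) * (D * K * L ^ E0) := by gcongr
    _ = _ := by
        rw [pow_add]
        field_simp

/-- the other frequencies -/
lemma part3 {R : ℕ → ℝ} {K1 K D : ℕ} {ρ δ : ℝ} (hR : Conv R K1 K D ρ) {N x m : ℕ} {L : ℝ} {E0 E1 U : ℕ}
    (hL : 100000000 ≤ L) (hK : 1 ≤ K) (hKL : Real.log K ≤ L) (hx : 1 ≤ x) (hNx : 16 * x ≤ N)
    (hN17 : N ≤ 17 * x) (hD : 1 ≤ D)
    (hDK : D * K ≤ x) (hKD : K ≤ D) (hxDK : (x : ℝ) ≤ D * K * L ^ E0) (k0 q : ℕ) (hq : 1 ≤ q)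
    (hqL : (q : ℝ) ≤ L ^ E1) (hδ0 : 0 ≤ δ) (hδq : δ * q * K ≤ 1)
    (hmain : ((K : ℝ) ^ 2 * (ρ * δ) + 1) * (δ * D + 1) * L ^ (3 * E1 + E0 + U + 5) ≤ K)
    (hk0 : K1 < k0)
    (hm : ∀ n < m, k0 + q * n ≤ K) (hmK : m ≤ K) (θ : ℝ) (S : Finset ℤ) (c : ℤ → ℂ)
    (hV : (N : ℝ) * ∑ h ∈ S, ‖c h‖ ^ 2 ≤ x * L ^ 2)
    (hS : ∀ h ∈ S, |((h : ℝ) + θ) / N| ≤ δ)
    (hS2 : ∀ h ∈ S, 1 < 16 * |((h : ℝ) + θ) / N| * q * D) :
    ∑ d ∈ Ioc D (2 * D), ‖∑ h ∈ S, c h * kS R k0 q m d (((h : ℝ) + θ) / N)‖ ^ 2 ≤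
      x * K / L ^ U := by
  have hL0 : 0 < L := by linarith
  have hL1 : 1 ≤ L := by linarith
  have hLp : ∀ n : ℕ, 1 ≤ L ^ n := fun n => one_le_pow₀ hL1
  have hLp0 : ∀ n : ℕ, 0 < L ^ n := fun n => by positivity
  have hx0 : (0 : ℝ) < x := by exact_mod_cast hx
  have hxN : 16 * (x : ℝ) ≤ N := by exact_mod_cast hNx
  have hN17' : (N : ℝ) ≤ 17 * x := by exact_mod_cast hN17
  have hN0 : (0 : ℝ) < N := by linarith
  have hD0 : (0 : ℝ) < D := by exact_mod_cast hD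
  have hK0 : (0 : ℝ) < K := by exact_mod_cast hK
  have hK1' : (1 : ℝ) ≤ K := by exact_mod_cast hK
  have hq1 : (1 : ℝ) ≤ q := by exact_mod_cast hq
  have hq0 : (0 : ℝ) < q := by linarith
  have hDK' : (D : ℝ) * K ≤ x := by exact_mod_cast hDK
  have hKD' : (K : ℝ) ≤ D := by exact_mod_cast hKD
  have hρ0 := hR.r0
  set Z : ℝ := (K : ℝ) ^ 2 * (ρ * δ) + 1 with hZ
  set Y : ℝ := δ * D + 1 with hY
  have hZ1 : 1 ≤ Z := by
    rw [hZ]
    have : 0 ≤ (K : ℝ) ^ 2 * (ρ * δ) := by positivity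
    linarith
  have hY1 : 1 ≤ Y := by
    rw [hY]
    have : 0 ≤ δ * D := by positivity
    linarith
  have hZK : Z * L ^ (3 * E1 + E0 + U + 5) ≤ K := by
    refine le_trans ?_ hmain
    apply mul_le_mul_of_nonneg_right _ (hLp0 _).le
    nlinarith
  have hLK : L ^ (3 * E1 + E0 + U + 5) ≤ K := by
    refine le_trans ?_ hZK
    exact le_mul_of_one_le_left (hLp0 _).le hZ1
  have hqK : (q : ℝ) ≤ K := by
    refine hqL.trans (le_trans ?_ hLK)
    exact pow_le_pow_right₀ hL1 (by omega)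
  -- the block length
  set w : ℝ := max (ρ * (q : ℝ) ^ 2 * δ) (1 / (K : ℝ) ^ 2) with hw
  have hw0 : 0 < w := lt_of_lt_of_le (by positivity) (le_max_right _ _)
  have hw1 : w ≤ 1 := by
    rw [hw]
    apply max_le
    · -- `K² ρ δ ≤ K / L^B`
      have h1 : (K : ℝ) ^ 2 * (ρ * δ) * L ^ (3 * E1 + E0 + U + 5) ≤ K := by
        refine le_trans ?_ hZK
        apply mul_le_mul_of_nonneg_right _ (hLp0 _).le
        rw [hZ]; linarith
      have h2 : (q : ℝ) ^ 2 ≤ L ^ (3 * E1 + E0 + U + 5) := by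
        calc (q : ℝ) ^ 2 ≤ (L ^ E1) ^ 2 := pow_le_pow_left₀ hq0.le hqL 2
          _ = L ^ (E1 * 2) := by rw [← pow_mul]
          _ ≤ _ := pow_le_pow_right₀ hL1 (by omega)
      have h3 : (K : ℝ) ^ 2 * (ρ * (q : ℝ) ^ 2 * δ) ≤ (K : ℝ) ^ 2 * 1 := by
        calc (K : ℝ) ^ 2 * (ρ * (q : ℝ) ^ 2 * δ) = (K : ℝ) ^ 2 * (ρ * δ) * (q : ℝ) ^ 2 := by ring
          _ ≤ (K : ℝ) ^ 2 * (ρ * δ) * L ^ (3 * E1 + E0 + U + 5) := by
              apply mul_le_mul_of_nonneg_left h2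
              positivity
          _ ≤ K := h1
          _ ≤ (K : ℝ) ^ 2 * 1 := by nlinarith
      exact le_of_mul_le_mul_left h3 (by positivity)
    · rw [div_le_one (by positivity)]
      exact one_le_pow₀ hK1'
  have hsw0 : 0 < Real.sqrt w := Real.sqrt_pos.2 hw0
  have hsw1 : Real.sqrt w ≤ 1 := by
    rw [Real.sqrt_le_one]
    exact hw1
  have hsq : Real.sqrt w ^ 2 = w := Real.sq_sqrt hw0.le
  set M : ℕ := ⌊1 / Real.sqrt w⌋₊ with hM
  have h1w : 1 ≤ 1 / Real.sqrt w := by rw [le_div_iff₀ hsw0]; linarith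
  have hM1 : 1 ≤ M := Nat.le_floor (by simpa using h1w)
  have hM1r : (1 : ℝ) ≤ M := by exact_mod_cast hM1
  have hMle : (M : ℝ) ≤ 1 / Real.sqrt w := Nat.floor_le (by positivity)
  have hMge : 1 / Real.sqrt w ≤ 2 * M := by
    have h1 := Nat.lt_floor_add_one (1 / Real.sqrt w)
    rw [← hM] at h1
    linarith
  have hMK : (M : ℝ) ≤ K := by
    refine hMle.trans ?_
    rw [div_le_iff₀ hsw0]
    have h1 : 1 / (K : ℝ) ≤ Real.sqrt w := by
      apply Real.le_sqrt_of_sq_le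
      rw [div_pow, one_pow]
      exact le_max_right _ _
    calc (1 : ℝ) = K * (1 / K) := by field_simp
      _ ≤ K * Real.sqrt w := mul_le_mul_of_nonneg_left h1 hK0.le
  have hM2 : (M : ℝ) ^ 2 * w ≤ 1 := by
    calc (M : ℝ) ^ 2 * w ≤ (1 / Real.sqrt w) ^ 2 * w := by
          apply mul_le_mul_of_nonneg_right _ hw0.le
          exact pow_le_pow_left₀ (by linarith) hMle 2
      _ = 1 := by
          rw [div_pow, hsq]
          field_simp
  have hblk : δ * (ρ * (q : ℝ) ^ 2) * (M : ℝ) ^ 2 ≤ 1 := by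
    calc δ * (ρ * (q : ℝ) ^ 2) * (M : ℝ) ^ 2 = (M : ℝ) ^ 2 * (ρ * (q : ℝ) ^ 2 * δ) := by ring
      _ ≤ (M : ℝ) ^ 2 * w := by
          apply mul_le_mul_of_nonneg_left (le_max_left _ _) (by positivity)
      _ ≤ 1 := hM2
  -- number of blocks
  set nb : ℝ := ((m / M + 1 : ℕ) : ℝ) with hnb
  have hnb0 : 0 ≤ nb := Nat.cast_nonneg _
  have hnbsq : nb ^ 2 ≤ 10 * (q : ℝ) ^ 2 * Z := by
    have h1 : nb ≤ 2 * (K * Real.sqrt w) + 1 := by
      rw [hnb]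
      push_cast
      have h2 : ((m / M : ℕ) : ℝ) ≤ (m : ℝ) / M := Nat.cast_div_le
      have h3 : (m : ℝ) ≤ K := by exact_mod_cast hmK
      have h4 : (m : ℝ) / M ≤ 2 * (K * Real.sqrt w) := by
        rw [div_le_iff₀ (by linarith)]
        have h5 : 1 ≤ Real.sqrt w * (2 * M) := by
          rw [div_le_iff₀ hsw0] at hMge
          linarith
        calc (m : ℝ) ≤ K := h3
          _ = K * 1 := (mul_one _).symm
          _ ≤ K * (Real.sqrt w * (2 * M)) := mul_le_mul_of_nonneg_left h5 hK0.le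
          _ = _ := by ring
      linarith
    have h2 : nb ^ 2 ≤ (2 * (K * Real.sqrt w) + 1) ^ 2 := pow_le_pow_left₀ hnb0 h1 2
    have h3 : (2 * (K * Real.sqrt w) + 1) ^ 2 ≤ 8 * ((K : ℝ) ^ 2 * w) + 2 := by
      have h4 : (K * Real.sqrt w) ^ 2 = (K : ℝ) ^ 2 * w := by rw [mul_pow, hsq]
      nlinarith [sq_nonneg (2 * (K * Real.sqrt w) - 1)]
    have h4 : (K : ℝ) ^ 2 * w ≤ (K : ℝ) ^ 2 * (ρ * (q : ℝ) ^ 2 * δ) + 1 := by
      have h5 : w ≤ ρ * (q : ℝ) ^ 2 * δ + 1 / (K : ℝ) ^ 2 := by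
        rw [hw]
        apply max_le
        · have : 0 ≤ 1 / (K : ℝ) ^ 2 := by positivity
          linarith
        · have : 0 ≤ ρ * (q : ℝ) ^ 2 * δ := by positivity
          linarith
      calc (K : ℝ) ^ 2 * w ≤ (K : ℝ) ^ 2 * (ρ * (q : ℝ) ^ 2 * δ + 1 / (K : ℝ) ^ 2) :=
            mul_le_mul_of_nonneg_left h5 (by positivity)
        _ = _ := by field_simp
    have h5 : (K : ℝ) ^ 2 * (ρ * (q : ℝ) ^ 2 * δ) + 1 ≤ (q : ℝ) ^ 2 * Z := by
      rw [hZ]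
      have : (1 : ℝ) ≤ (q : ℝ) ^ 2 := one_le_pow₀ hq1
      nlinarith
    have h6 : (1 : ℝ) ≤ (q : ℝ) ^ 2 * Z := one_le_mul_of_one_le_of_one_le (one_le_pow₀ hq1) hZ1
    nlinarith
  -- the logarithm
  set J : ℝ := (Nat.log 2 M : ℝ) + 1 with hJ
  have hJ1 : 1 ≤ J := by
    rw [hJ]
    have : (0 : ℝ) ≤ (Nat.log 2 M : ℝ) := Nat.cast_nonneg _
    linarith
  have hJL : J ≤ 2 * L := by
    have h1 : (2 : ℝ) ^ (Nat.log 2 M) ≤ M := by exact_mod_cast Nat.pow_log_le_self 2 (by omega)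
    have h2 := Real.log_le_log (by positivity) (h1.trans hMK)
    rw [Real.log_pow] at h2
    have h3 := Real.log_two_gt_d9
    have h4 : (0 : ℝ) ≤ (Nat.log 2 M : ℝ) := Nat.cast_nonneg _
    rw [hJ]
    nlinarith
  -- columns and rows
  have hcol : ∀ h ∈ S, ∑ d ∈ Ioc D (2 * D), ‖kS R k0 q m d (((h : ℝ) + θ) / N)‖ ≤ nb * (576 * (J * D)) := by
    intro h hh
    have g1 := hS h hh
    have g2 := hS2 h hh
    have hγ0 : ((h : ℝ) + θ) / N ≠ 0 := by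
      intro h0
      rw [h0] at g2
      simp at g2
      linarith
    have hγp : 0 < |((h : ℝ) + θ) / N| := abs_pos.2 hγ0
    refine (col_sum hR hq hk0 hm hM1 _ hγ0 (by
      refine le_trans ?_ hblk
      gcongr)).trans ?_
    rw [← hnb]
    apply mul_le_mul_of_nonneg_left _ hnb0
    set γ := |((h : ℝ) + θ) / N| with hγ
    have a1 : 1 / (γ * q) ≤ 16 * D := by
      rw [div_le_iff₀ (by positivity)]
      linarith
    have a2 : M * (γ * q) ≤ 1 := by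
      calc (M : ℝ) * (γ * q) ≤ K * (δ * q) := by gcongr
        _ = δ * q * K := by ring
        _ ≤ 1 := hδq
    have e1 : (γ * q * D + 2) * (2 * J / (γ * q) + 2 * M) =
        2 * J * D + 4 * J * (1 / (γ * q)) + 2 * (M * (γ * q)) * D + 4 * M := by
      field_simp
      ring
    rw [e1]
    have a3 : 4 * J * (1 / (γ * q)) ≤ 4 * J * (16 * D) := by gcongr
    have a4 : 2 * (M * (γ * q)) * D ≤ 2 * 1 * D := by gcongr
    have a5 : (M : ℝ) ≤ D := hMK.trans hKD'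
    have a6 : (D : ℝ) ≤ J * D := le_mul_of_one_le_left hD0.le hJ1
    have a7 : 8 * (2 * J * D + 4 * J * (1 / (γ * q)) + 2 * (M * (γ * q)) * D + 4 * M) ≤
        8 * (2 * (J * D) + 64 * (J * D) + 2 * (J * D) + 4 * (J * D)) := by
      apply mul_le_mul_of_nonneg_left _ (by norm_num)
      have b1 : 2 * J * D = 2 * (J * D) := by ring
      have b2 : 4 * J * (16 * (D : ℝ)) = 64 * (J * D) := by ring
      linarith
    linarith
  have hrow : ∀ d ∈ Ioc D (2 * D), ∑ h ∈ S, ‖kS R k0 q m d (((h : ℝ) + θ) / N)‖ ≤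
      nb * (1728 * (q * Y * (J * (K * L ^ E0)))) := by
    intro d hd
    rw [mem_Ioc] at hd
    refine (row_sum hR hD hq (by omega) hk0 hm hM1 d (by exact_mod_cast hd.1.le)
      (by exact_mod_cast hd.2) S θ δ hδ0 hS hblk).trans ?_
    rw [← hnb]
    apply mul_le_mul_of_nonneg_left _ hnb0
    have a1 : 3 * q * D / N * (2 * (δ * N) + 1) + 2 ≤ 6 * (q * Y) := by
      have b1 : 3 * (q : ℝ) * D / N ≤ 1 := by
        rw [div_le_one hN0]
        calc 3 * (q : ℝ) * D ≤ 3 * K * D := by gcongr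
          _ = 3 * (D * K) := by ring
          _ ≤ N := by linarith
      have b2 : 3 * (q : ℝ) * D / N * (2 * (δ * N) + 1) = 6 * (q * (δ * D)) + 3 * q * D / N := by
        field_simp
        ring
      rw [b2, hY]
      nlinarith
    have a2 : 2 * J * (N / (q * D)) + 2 * M ≤ 36 * (J * (K * L ^ E0)) := by
      have b1 : (N : ℝ) / (q * D) ≤ 17 * (K * L ^ E0) := by
        rw [div_le_iff₀ (by positivity)]
        calc (N : ℝ) ≤ 17 * x := hN17'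
          _ ≤ 17 * (D * K * L ^ E0) := by gcongr
          _ = 17 * (K * L ^ E0) * (1 * D) := by ring
          _ ≤ 17 * (K * L ^ E0) * (q * D) := by gcongr
      have b2 : 2 * J * (N / (q * D)) ≤ 2 * J * (17 * (K * L ^ E0)) := by gcongr
      have b3 : (M : ℝ) ≤ J * (K * L ^ E0) := by
        calc (M : ℝ) ≤ K := hMK
          _ = 1 * (K * 1) := by ring
          _ ≤ J * (K * L ^ E0) := by
              apply mul_le_mul hJ1 _ (by positivity) (by positivity)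
              exact mul_le_mul_of_nonneg_left (hLp E0) hK0.le
      linarith
    calc 8 * ((3 * q * D / N * (2 * (δ * N) + 1) + 2) * (2 * J * (N / (q * D)) + 2 * M))
        ≤ 8 * ((6 * (q * Y)) * (36 * (J * (K * L ^ E0)))) := by
          apply mul_le_mul_of_nonneg_left _ (by norm_num)
          apply mul_le_mul a1 a2 (by positivity) (by positivity)
      _ = _ := by ring
  have hsch := schur (Ioc D (2 * D)) S (fun d h => kS R k0 q m d (((h : ℝ) + θ) / N)) c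
    (nb * (1728 * (q * Y * (J * (K * L ^ E0))))) (nb * (576 * (J * D))) (by positivity) hrow hcol
  refine hsch.trans ?_
  have hc2 : ∑ h ∈ S, ‖c h‖ ^ 2 ≤ L ^ 2 := by
    have h1 : (x : ℝ) * ∑ h ∈ S, ‖c h‖ ^ 2 ≤ x * L ^ 2 := by
      refine le_trans ?_ hV
      apply mul_le_mul_of_nonneg_right _ (sum_nonneg fun h _ => by positivity)
      linarith
    exact le_of_mul_le_mul_left h1 hx0
  calc nb * (1728 * (q * Y * (J * (K * L ^ E0)))) * (nb * (576 * (J * D))) * ∑ h ∈ S, ‖c h‖ ^ 2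
      ≤ nb * (1728 * (q * Y * (J * (K * L ^ E0)))) * (nb * (576 * (J * D))) * L ^ 2 := by gcongr
    _ = 995328 * (nb ^ 2 * (q * Y * J ^ 2 * (D * K) * L ^ E0 * L ^ 2)) := by ring
    _ ≤ 995328 * ((10 * (q : ℝ) ^ 2 * Z) * (q * Y * (2 * L) ^ 2 * (D * K) * L ^ E0 * L ^ 2)) := by gcongr
    _ = 39813120 * ((q : ℝ) ^ 3 * (Z * Y) * (D * K) * (L ^ E0 * L ^ 4)) := by ring
    _ ≤ 39813120 * ((L ^ E1) ^ 3 * (Z * Y) * x * (L ^ E0 * L ^ 4)) := by gcongr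
    _ = x * (Z * Y * L ^ (3 * E1 + E0 + 4)) * 39813120 := by
        rw [← pow_mul, show 3 * E1 + E0 + 4 = E1 * 3 + E0 + 4 by ring, pow_add, pow_add]
        ring
    _ ≤ x * (Z * Y * L ^ (3 * E1 + E0 + 4)) * L := by
        gcongr
        linarith
    _ = x * (Z * Y * L ^ (3 * E1 + E0 + U + 5)) / L ^ U := by
        rw [show 3 * E1 + E0 + U + 5 = (3 * E1 + E0 + 4) + 1 + U by ring, pow_add L _ U,
          pow_succ L (3 * E1 + E0 + 4)]
        field_simp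
    _ ≤ x * K / L ^ U := by gcongr

/-- one fraction and one residue class -/
theorem one_c (E0 E1 U : ℕ) {R : ℕ → ℝ} {K1 K D : ℕ} {ρ δ : ℝ} (hR : Conv R K1 K D ρ) {x : ℕ} {L : ℝ}
    (hL : 100000000 ≤ L) (hK : 1 ≤ K) (hKL : Real.log K ≤ L) (hx : 1 ≤ x) (hD : 1 ≤ D)
    (hDK : D * K ≤ x) (hKD : K ≤ D) (hxDK : (x : ℝ) ≤ D * K * L ^ E0) (q r : ℕ) (hq : 1 ≤ q)
    (hqL : (q : ℝ) ≤ L ^ E1) (hδ0 : 0 ≤ δ) (hδq : δ * q * K ≤ 1)
    (hmain : ((K : ℝ) ^ 2 * (ρ * δ) + 1) * (δ * D + 1) * L ^ (3 * E1 + E0 + (U + 1) + 5) ≤ K)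
    (θ : ℝ) (S : Finset ℤ) (c : ℤ → ℂ)
    (hV : ((16 * x + 1 : ℕ) : ℝ) * ∑ h ∈ S, ‖c h‖ ^ 2 ≤ x * L ^ 2)
    (hS : ∀ h ∈ S, |((h : ℝ) + θ) / ((16 * x + 1 : ℕ) : ℝ)| ≤ δ)
    (hsm : ∀ h ∈ S, |((h : ℝ) + θ) / ((16 * x + 1 : ℕ) : ℝ)| ≤ L ^ (E0 + U + 4) / x →
      ((16 * x + 1 : ℕ) : ℝ) * ‖c h‖ ≤ x / L ^ (2 * (E0 + U + 4))) :
    ∑ d ∈ Ioc D (2 * D), ‖∑ k ∈ (Ioc K1 K).filter (fun k => k % q = r),
      poly (16 * x + 1) θ S c ((d : ℝ) * k + R k)‖ ^ 2 ≤ x * K / L ^ U := by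
  classical
  have hL0 : 0 < L := by linarith
  have hL1 : 1 ≤ L := by linarith
  have hLp : ∀ n : ℕ, 1 ≤ L ^ n := fun n => one_le_pow₀ hL1
  have hLp0 : ∀ n : ℕ, 0 < L ^ n := fun n => by positivity
  have hx0 : (0 : ℝ) < x := by exact_mod_cast hx
  have hK0 : (0 : ℝ) < K := by exact_mod_cast hK
  set E3 := E0 + U + 4 with hE3
  set N := 16 * x + 1 with hN
  have hN0 : (0 : ℝ) < N := by positivity
  obtain ⟨k0, m, hk0, hm, hsum⟩ := prog K1 K q r hq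
  have hmK : m ≤ K := by
    rcases Nat.eq_zero_or_pos m with h0 | h0
    · omega
    · have h1 := hm (m - 1) (by omega)
      have h2 : m - 1 ≤ q * (m - 1) := Nat.le_mul_of_pos_left _ (by omega)
      omega
  -- interchange
  have hswap : ∀ d : ℕ, ∑ k ∈ (Ioc K1 K).filter (fun k => k % q = r), poly N θ S c ((d : ℝ) * k + R k) =
      ∑ h ∈ S, c h * kS R k0 q m d (((h : ℝ) + θ) / N) := by
    intro d
    rw [hsum]
    unfold poly kS
    rw [sum_comm]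
    refine sum_congr rfl fun h _ => ?_
    rw [mul_sum]
    refine sum_congr rfl fun n _ => ?_
    congr 2
    ring
  simp only [hswap]
  set S1 := S.filter (fun h : ℤ => |((h : ℝ) + θ) / N| ≤ L ^ E3 / x) with hS1
  set S' := S.filter (fun h : ℤ => ¬ |((h : ℝ) + θ) / N| ≤ L ^ E3 / x) with hS'
  set S2 := S'.filter (fun h : ℤ => 16 * |((h : ℝ) + θ) / N| * q * D ≤ 1) with hS2
  set S3 := S'.filter (fun h : ℤ => ¬ 16 * |((h : ℝ) + θ) / N| * q * D ≤ 1) with hS3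
  have hsplit : ∀ F : ℤ → ℂ, ∑ h ∈ S, F h = ∑ h ∈ S1, F h + ∑ h ∈ S2, F h + ∑ h ∈ S3, F h := by
    intro F
    rw [hS1, add_assoc, hS2, hS3, sum_filter_add_sum_filter_not, hS', sum_filter_add_sum_filter_not]
  have hsub : ∀ T ⊆ S, (N : ℝ) * ∑ h ∈ T, ‖c h‖ ^ 2 ≤ x * L ^ 2 := by
    intro T hT
    refine le_trans ?_ hV
    apply mul_le_mul_of_nonneg_left _ hN0.le
    exact sum_le_sum_of_subset_of_nonneg hT fun _ _ _ => by positivity
  have hS'S : S' ⊆ S := filter_subset _ _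
  have p1 := part1 (N := N) (x := x) (D := D) (K := K) (m := m) (L := L) (E3 := E3) hL1 hx (by omega)
    (by omega) hDK hmK R k0 q θ S1 c (fun h hh => (mem_filter.1 hh).2)
    (fun h hh => hsm h (mem_filter.1 hh).1 (mem_filter.1 hh).2)
  have p2 := part2 (N := N) (x := x) (m := m) (L := L) (E0 := E0) (E3 := E3) hR hL1 hx (by omega) hD hxDK
    k0 q hq hk0 hm θ S2 c (hsub S2 ((filter_subset _ _).trans hS'S))
    (fun h hh => not_le.1 (mem_filter.1 (mem_filter.1 hh).1).2) (fun h hh => (mem_filter.1 hh).2)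
  have p3 := part3 (N := N) (x := x) (m := m) (L := L) (E0 := E0) (E1 := E1) (U := U + 1) (δ := δ) hR hL hK
    hKL hx (by omega) (by omega) hD hDK hKD hxDK k0 q hq hqL hδ0 hδq hmain hk0 hm hmK θ S3 c
    (hsub S3 ((filter_subset _ _).trans hS'S))
    (fun h hh => hS h (hS'S (mem_filter.1 hh).1)) (fun h hh => not_le.1 (mem_filter.1 hh).2)
  have hsq : ∀ d ∈ Ioc D (2 * D), ‖∑ h ∈ S, c h * kS R k0 q m d (((h : ℝ) + θ) / N)‖ ^ 2 ≤
      3 * (‖∑ h ∈ S1, c h * kS R k0 q m d (((h : ℝ) + θ) / N)‖ ^ 2 +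
      ‖∑ h ∈ S2, c h * kS R k0 q m d (((h : ℝ) + θ) / N)‖ ^ 2 +
      ‖∑ h ∈ S3, c h * kS R k0 q m d (((h : ℝ) + θ) / N)‖ ^ 2) := by
    intro d _
    rw [hsplit]
    exact sq3 _ _ _
  refine (sum_le_sum hsq).trans ?_
  rw [← mul_sum, sum_add_distrib, sum_add_distrib]
  have b1 : 1296 * (x * K / L ^ (2 * E3)) ≤ x * K / L ^ U / 9 := by
    have h1 : L ^ (U + 1) ≤ L ^ (2 * E3) := pow_le_pow_right₀ hL1 (by omega)
    calc 1296 * (x * K / L ^ (2 * E3)) ≤ 1296 * (x * K / L ^ (U + 1)) := by gcongr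
      _ = (x * K / L ^ U) * (1296 / L) := by rw [pow_succ]; field_simp
      _ ≤ (x * K / L ^ U) * (1 / 9) := by
          apply mul_le_mul_of_nonneg_left _ (by positivity)
          rw [div_le_div_iff₀ hL0 (by norm_num)]
          linarith
      _ = _ := by ring
  have b2 : 72 * (x * K * L ^ (E0 + 2) / L ^ E3) ≤ x * K / L ^ U / 9 := by
    calc 72 * (x * K * L ^ (E0 + 2) / L ^ E3) = (x * K / L ^ U) * (72 / L ^ 2) := by
          have e : L ^ E3 = L ^ (E0 + 2) * L ^ U * L ^ 2 := by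
            rw [← pow_add, ← pow_add, hE3]; congr 1; omega
          rw [e]
          have := hLp0 (E0 + 2)
          field_simp
      _ ≤ (x * K / L ^ U) * (1 / 9) := by
          apply mul_le_mul_of_nonneg_left _ (by positivity)
          rw [div_le_div_iff₀ (hLp0 2) (by norm_num)]
          nlinarith
      _ = _ := by ring
  have b3 : x * K / L ^ (U + 1) ≤ x * K / L ^ U / 9 := by
    calc x * K / L ^ (U + 1) = (x * K / L ^ U) * (1 / L) := by rw [pow_succ]; field_simp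
      _ ≤ (x * K / L ^ U) * (1 / 9) := by
          apply mul_le_mul_of_nonneg_left _ (by positivity)
          apply one_div_le_one_div_of_le (by norm_num)
          linarith
      _ = _ := by ring
  have hfin : 0 ≤ x * K / L ^ U := by positivity
  linarith

end Pool.Agent.helper24_TG
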