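import Pool.Agent.helper24_TG.KS

set_option autoImplicit false

/-!
Sums of the exponential sums over the slopes `d` and over the frequencies, and a bound for bilinear forms.
-/

namespace Pool.Agent.helper24_TG

open Pool.Agent.helper24_TP

open Finset
open Pool.Agent.H469R2.NK (e norm_e e_add conj_e e_zero norm_sum_neg)
open Pool.Agent.H442R2.EHI (nint e_int e_add_int e_pow)

/-- bound for a bilinear form from the row and column sums -/
lemma schur {ι κ : Type*} (I : Finset ι) (S : Finset κ) (F : ι → κ → ℂ) (c : κ → ℂ) (Rr Cc : ℝ)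
    (hRr : 0 ≤ Rr) (hR : ∀ i ∈ I, ∑ h ∈ S, ‖F i h‖ ≤ Rr) (hC : ∀ h ∈ S, ∑ i ∈ I, ‖F i h‖ ≤ Cc) :
    ∑ i ∈ I, ‖∑ h ∈ S, c h * F i h‖ ^ 2 ≤ Rr * Cc * ∑ h ∈ S, ‖c h‖ ^ 2 := by
  have h1 : ∀ i ∈ I, ‖∑ h ∈ S, c h * F i h‖ ^ 2 ≤ Rr * ∑ h ∈ S, ‖c h‖ ^ 2 * ‖F i h‖ := by
    intro i hi
    have h2 : ‖∑ h ∈ S, c h * F i h‖ ≤ ∑ h ∈ S, (‖c h‖ * Real.sqrt ‖F i h‖) * Real.sqrt ‖F i h‖ := by
      refine (norm_sum_le _ _).trans (le_of_eq (sum_congr rfl fun h _ => ?_))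
      rw [norm_mul, mul_assoc, Real.mul_self_sqrt (norm_nonneg _)]
    have h3 := sum_mul_sq_le_sq_mul_sq S (fun h => ‖c h‖ * Real.sqrt ‖F i h‖)
      (fun h => Real.sqrt ‖F i h‖)
    have h4 : ∀ h ∈ S, (‖c h‖ * Real.sqrt ‖F i h‖) ^ 2 = ‖c h‖ ^ 2 * ‖F i h‖ := by
      intro h _
      rw [mul_pow, Real.sq_sqrt (norm_nonneg _)]
    have h5 : ∀ h ∈ S, (Real.sqrt ‖F i h‖) ^ 2 = ‖F i h‖ := by
      intro h _
      rw [Real.sq_sqrt (norm_nonneg _)]
    rw [sum_congr rfl h4, sum_congr rfl h5] at h3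
    calc ‖∑ h ∈ S, c h * F i h‖ ^ 2 ≤ (∑ h ∈ S, (‖c h‖ * Real.sqrt ‖F i h‖) * Real.sqrt ‖F i h‖) ^ 2 :=
          pow_le_pow_left₀ (norm_nonneg _) h2 2
      _ ≤ (∑ h ∈ S, ‖c h‖ ^ 2 * ‖F i h‖) * ∑ h ∈ S, ‖F i h‖ := h3
      _ ≤ (∑ h ∈ S, ‖c h‖ ^ 2 * ‖F i h‖) * Rr := by
          apply mul_le_mul_of_nonneg_left (hR i hi)
          exact sum_nonneg fun h _ => by positivity
      _ = _ := by ring
  calc ∑ i ∈ I, ‖∑ h ∈ S, c h * F i h‖ ^ 2 ≤ ∑ i ∈ I, Rr * ∑ h ∈ S, ‖c h‖ ^ 2 * ‖F i h‖ := sum_le_sum h1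
    _ = Rr * ∑ h ∈ S, ‖c h‖ ^ 2 * ∑ i ∈ I, ‖F i h‖ := by
        rw [← mul_sum, sum_comm]
        congr 1
        refine sum_congr rfl fun h _ => ?_
        rw [mul_sum]
    _ ≤ Rr * ∑ h ∈ S, ‖c h‖ ^ 2 * Cc := by
        apply mul_le_mul_of_nonneg_left _ hRr
        exact sum_le_sum fun h hh => mul_le_mul_of_nonneg_left (hC h hh) (by positivity)
    _ = _ := by rw [← sum_mul]; ring

/-- the sum over `k = k0 + q n`, `n < m` -/
noncomputable def kS (R : ℕ → ℝ) (k0 q m : ℕ) (d γ : ℝ) : ℂ :=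
  ∑ n ∈ range m, e (-(γ * (d * ((k0 + q * n : ℕ) : ℝ) + R (k0 + q * n))))

open Classical in
/-- the slope of `R` at the beginning of the block `i` -/
noncomputable def dl (R : ℕ → ℝ) (K k0 q M i : ℕ) : ℝ :=
  if k0 + q * (M * i) + q ≤ K then R (k0 + q * (M * i) + q) - R (k0 + q * (M * i)) else 0

lemma dl_bd {R : ℕ → ℝ} {K1 K : ℕ} {D ρ : ℝ} (hR : Conv R K1 K D ρ) (hD : 0 ≤ D) {k0 q M i : ℕ}
    (hk0 : K1 < k0) : 0 ≤ dl R K k0 q M i ∧ dl R K k0 q M i ≤ q * (D / 8) := by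
  unfold dl
  split_ifs with h
  · exact hR.d1 (k0 + q * (M * i)) q (by omega) h
  · exact ⟨le_rfl, by positivity⟩

lemma kS_blocks {R : ℕ → ℝ} {K1 K : ℕ} {D ρ : ℝ} (hR : Conv R K1 K D ρ) {k0 q m M : ℕ}
    (hk0 : K1 < k0) (hm : ∀ n < m, k0 + q * n ≤ K) (hM : 1 ≤ M) (d γ : ℝ)
    (hγ : |γ| * (ρ * (q : ℝ) ^ 2) * (M : ℝ) ^ 2 ≤ 1) :
    ‖kS R k0 q m d γ‖ ≤ ∑ i ∈ range (m / M + 1), 8 * mn M (γ * (q * d + dl R K k0 q M i)) := by
  unfold kS
  refine (blocks _ m M hM).trans (sum_le_sum fun i _ => ?_)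
  have h1 := block_bound hR q (k0 + q * (M * i)) (by omega) (min M (m - M * i)) M hM (min_le_left _ _)
    (fun j hj => by
      have h2 : M * i + j < m := by
        have := lt_of_lt_of_le hj (min_le_right _ _)
        omega
      have h3 := hm _ h2
      have h4 : k0 + q * (M * i + j) = k0 + q * (M * i) + q * j := by ring
      omega) d γ hγ
  refine le_trans (le_of_eq ?_) (h1.trans (le_of_eq ?_))
  · congr 1
    refine sum_congr rfl fun j _ => ?_
    have h4 : k0 + q * (M * i + j) = k0 + q * (M * i) + q * j := by ring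
    rw [h4]
  · unfold dl
    rfl

lemma mn_neg (M : ℕ) (x : ℝ) : mn M (-x) = mn M x := by
  unfold mn
  rw [nint_neg]

lemma mn_abs (M : ℕ) (γ y : ℝ) : mn M (γ * y) = mn M (|γ| * y) := by
  rcases le_total 0 γ with h | h
  · rw [abs_of_nonneg h]
  · rw [abs_of_nonpos h, neg_mul, mn_neg]

lemma Ioc_shift (D : ℕ) (f : ℕ → ℝ) : ∑ d ∈ Ioc D (2 * D), f d = ∑ n ∈ range D, f (D + 1 + n) := by
  have : Ioc D (2 * D) = Ico (D + 1) (D + D + 1) := by
    ext x; rw [mem_Ioc, mem_Ico]; omega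
  rw [this, sum_Ico_eq_sum_range]
  congr 2; omega

/-- sum over the slopes -/
lemma col_sum {R : ℕ → ℝ} {K1 K : ℕ} {D : ℕ} {ρ : ℝ} (hR : Conv R K1 K D ρ) {k0 q m M : ℕ} (hq : 1 ≤ q)
    (hk0 : K1 < k0) (hm : ∀ n < m, k0 + q * n ≤ K) (hM : 1 ≤ M) (γ : ℝ) (hγ0 : γ ≠ 0)
    (hγ : |γ| * (ρ * (q : ℝ) ^ 2) * (M : ℝ) ^ 2 ≤ 1) :
    ∑ d ∈ Ioc D (2 * D), ‖kS R k0 q m d γ‖ ≤ ((m / M + 1 : ℕ) : ℝ) *
      (8 * ((|γ| * q * D + 2) * (2 * ((Nat.log 2 M : ℝ) + 1) / (|γ| * q) + 2 * M))) := by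
  have hγp : 0 < |γ| := abs_pos.2 hγ0
  have hq0 : (0 : ℝ) < q := by exact_mod_cast hq
  calc ∑ d ∈ Ioc D (2 * D), ‖kS R k0 q m d γ‖
      ≤ ∑ d ∈ Ioc D (2 * D), ∑ i ∈ range (m / M + 1), 8 * mn M (γ * (q * d + dl R K k0 q M i)) :=
        sum_le_sum fun d _ => kS_blocks hR hk0 hm hM d γ hγ
    _ = ∑ i ∈ range (m / M + 1), ∑ d ∈ Ioc D (2 * D), 8 * mn M (γ * (q * d + dl R K k0 q M i)) := sum_comm
    _ ≤ ∑ i ∈ range (m / M + 1), 8 * ((|γ| * q * D + 2) *
        (2 * ((Nat.log 2 M : ℝ) + 1) / (|γ| * q) + 2 * M)) := by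
        refine sum_le_sum fun i _ => ?_
        rw [← mul_sum, Ioc_shift]
        apply mul_le_mul_of_nonneg_left _ (by norm_num)
        have h1 := sum_mn (|γ| * q) (|γ| * (q * (D + 1) + dl R K k0 q M i)) (by positivity) M hM D
        refine le_trans (le_of_eq ?_) h1
        refine sum_congr rfl fun n _ => ?_
        rw [mn_abs]
        congr 1
        push_cast
        ring
    _ = _ := by rw [sum_const, card_range, nsmul_eq_mul]

/-- sum over the frequencies -/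
lemma row_sum {R : ℕ → ℝ} {K1 K : ℕ} {D : ℕ} {ρ : ℝ} (hR : Conv R K1 K D ρ) (hD : 1 ≤ D) {k0 q m M N : ℕ}
    (hq : 1 ≤ q) (hN : 1 ≤ N) (hk0 : K1 < k0) (hm : ∀ n < m, k0 + q * n ≤ K) (hM : 1 ≤ M) (d : ℝ)
    (hd1 : (D : ℝ) ≤ d) (hd2 : d ≤ 2 * D) (S : Finset ℤ) (θ δ : ℝ)
    (hδ0 : 0 ≤ δ) (hS : ∀ h ∈ S, |((h : ℝ) + θ) / N| ≤ δ) (hδ : δ * (ρ * (q : ℝ) ^ 2) * (M : ℝ) ^ 2 ≤ 1) :
    ∑ h ∈ S, ‖kS R k0 q m d (((h : ℝ) + θ) / N)‖ ≤ ((m / M + 1 : ℕ) : ℝ) *
      (8 * ((3 * q * D / N * (2 * (δ * N) + 1) + 2) *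
        (2 * ((Nat.log 2 M : ℝ) + 1) * (N / (q * D)) + 2 * M))) := by
  classical
  have hN0 : (0 : ℝ) < N := by exact_mod_cast hN
  have hq0 : (0 : ℝ) < q := by exact_mod_cast hq
  have hD0 : (0 : ℝ) < D := by exact_mod_cast hD
  rcases S.eq_empty_or_nonempty with hSe | hSn
  · rw [hSe, sum_empty]
    positivity
  have hJ0 : (0 : ℝ) ≤ (Nat.log 2 M : ℝ) + 1 := by positivity
  have hρ0 := hR.r0
  -- the range of `h`
  set h0 : ℤ := ⌈-(δ * N) - θ⌉ with hh0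
  set n1 : ℕ := ⌊2 * (δ * N)⌋₊ + 1 with hn1
  have hmem : ∀ h ∈ S, 0 ≤ h - h0 ∧ (h - h0).toNat < n1 := by
    intro h hh
    have h1 := hS h hh
    rw [abs_div, abs_of_pos hN0, div_le_iff₀ hN0] at h1
    have h2 := abs_le.1 h1
    have h3 : h0 ≤ h := by
      rw [hh0, Int.ceil_le]
      linarith [h2.1]
    refine ⟨by omega, ?_⟩
    have h4 : (((h - h0).toNat : ℕ) : ℝ) = (h : ℝ) - h0 := by
      have : (((h - h0).toNat : ℕ) : ℤ) = h - h0 := Int.toNat_of_nonneg (by omega)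
      exact_mod_cast this
    have h5 : (((h - h0).toNat : ℕ) : ℝ) ≤ 2 * (δ * N) := by
      rw [h4]
      have := Int.le_ceil (-(δ * N) - θ)
      rw [← hh0] at this
      linarith [h2.2]
    have h6 := Nat.le_floor h5
    omega
  have hn1r : (n1 : ℝ) ≤ 2 * (δ * N) + 1 := by
    rw [hn1]
    push_cast
    have := Nat.floor_le (show 0 ≤ 2 * (δ * N) by positivity)
    linarith
  calc ∑ h ∈ S, ‖kS R k0 q m d (((h : ℝ) + θ) / N)‖
      ≤ ∑ h ∈ S, ∑ i ∈ range (m / M + 1), 8 * mn M (((h : ℝ) + θ) / N * (q * d + dl R K k0 q M i)) := by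
        refine sum_le_sum fun h hh => kS_blocks hR hk0 hm hM d _ ?_
        refine le_trans ?_ hδ
        have h1 := hS h hh
        gcongr
    _ = ∑ i ∈ range (m / M + 1), ∑ h ∈ S, 8 * mn M (((h : ℝ) + θ) / N * (q * d + dl R K k0 q M i)) :=
        sum_comm
    _ ≤ ∑ i ∈ range (m / M + 1), (8 * ((3 * q * D / N * (2 * (δ * N) + 1) + 2) *
        (2 * ((Nat.log 2 M : ℝ) + 1) * (N / (q * D)) + 2 * M))) := by
        refine sum_le_sum fun i _ => ?_
        rw [← mul_sum]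
        apply mul_le_mul_of_nonneg_left _ (by norm_num)
        obtain ⟨g1, g2⟩ := dl_bd hR hD0.le (k0 := k0) (q := q) (M := M) (i := i) hk0
        set Δ := dl R K k0 q M i with hΔ
        set β : ℝ := (q * d + Δ) / N with hβ
        have hβl : q * D / N ≤ β := by
          rw [hβ]
          apply div_le_div_of_nonneg_right _ hN0.le
          nlinarith
        have hβu : β ≤ 3 * q * D / N := by
          rw [hβ]
          apply div_le_div_of_nonneg_right _ hN0.le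
          nlinarith
        have hβ0 : 0 < β := lt_of_lt_of_le (by positivity) hβl
        have e1 : ∑ h ∈ S, mn M (((h : ℝ) + θ) / N * (q * d + Δ)) =
            ∑ h ∈ S, mn M (β * ((h - h0).toNat : ℕ) + β * (h0 + θ)) := by
          refine sum_congr rfl fun h hh => ?_
          congr 1
          have h4 : (((h - h0).toNat : ℕ) : ℝ) = (h : ℝ) - h0 := by
            have : (((h - h0).toNat : ℕ) : ℤ) = h - h0 := Int.toNat_of_nonneg (hmem h hh).1
            exact_mod_cast this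
          rw [h4, hβ]
          field_simp
          ring
        rw [e1]
        have hinj : Set.InjOn (fun h : ℤ => (h - h0).toNat) (S : Set ℤ) := by
          intro h hh h' hh' heq
          have h1 := (hmem h hh).1
          have h2 := (hmem h' hh').1
          simp only at heq
          omega
        have e2 : ∑ h ∈ S, mn M (β * ((h - h0).toNat : ℕ) + β * (h0 + θ)) =
            ∑ n ∈ S.image (fun h : ℤ => (h - h0).toNat), mn M (β * n + β * (h0 + θ)) := by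
          rw [sum_image hinj]
        rw [e2]
        calc ∑ n ∈ S.image (fun h : ℤ => (h - h0).toNat), mn M (β * n + β * (h0 + θ))
            ≤ ∑ n ∈ range n1, mn M (β * n + β * (h0 + θ)) := by
              apply sum_le_sum_of_subset_of_nonneg
              · intro n hn
                rw [mem_image] at hn
                obtain ⟨h, hh, rfl⟩ := hn
                exact mem_range.2 (hmem h hh).2
              · intro n _ _
                exact mn_nonneg _ _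
          _ ≤ (β * n1 + 2) * (2 * ((Nat.log 2 M : ℝ) + 1) / β + 2 * M) := sum_mn β _ hβ0 M hM n1
          _ ≤ _ := by
              have a1 : β * n1 ≤ 3 * q * D / N * (2 * (δ * N) + 1) :=
                mul_le_mul hβu hn1r (Nat.cast_nonneg _) (by positivity)
              have a2 : 2 * ((Nat.log 2 M : ℝ) + 1) / β ≤ 2 * ((Nat.log 2 M : ℝ) + 1) * (N / (q * D)) := by
                rw [div_eq_mul_inv]
                apply mul_le_mul_of_nonneg_left _ (by positivity)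
                have h3 : β⁻¹ ≤ ((q : ℝ) * D / N)⁻¹ := inv_anti₀ (by positivity) hβl
                have h4 : ((q : ℝ) * D / N)⁻¹ = N / (q * D) := inv_div _ _
                rwa [h4] at h3
              apply mul_le_mul (by linarith) (by linarith) (by positivity) (by positivity)
    _ = _ := by rw [sum_const, card_range, nsmul_eq_mul]

end Pool.Agent.helper24_TG
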